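import Mathlib

/-!
For every separable metrizable space `X` there is a set `Z` of reals such that `C_k(Z)` does not
embed into `C_k(X, Y)` for any metrizable `Y`.

An embedding of `C_k(Z)` into `C_k(X, Y)` assigns to every compact `K ⊆ X` and every `n` a subset
`ψ(K, n)` of `Z` with compact closure, monotonically in `K`, such that these sets cover `Z`. Then
`Z` can be recovered from the traces of `ψ` on a countable base of `X` and a countable base of the
real line, and there are more sets of reals than such traces.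
-/

set_option autoImplicit false

open Set Filter Topology TopologicalSpace

namespace Pool.Agent.Q153.CkUniv

/-- The basic neighbourhoods in the compact-open topology. -/
theorem nhds_basis {X Y : Type} [TopologicalSpace X] [PseudoMetricSpace Y] (h : C(X, Y)) :
    (𝓝 h).HasBasis (fun p : Set X × ℝ => IsCompact p.1 ∧ 0 < p.2)
      fun p => {g : C(X, Y) | ∀ x ∈ p.1, dist (g x) (h x) < p.2} :=
  nhds_basis_uniformity Metric.uniformity_basis_dist.compactConvergenceUniformity

/-- A compact set and compact sets converging to it from above have a compact union. -/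
theorem isCompact_union {X : Type} [PseudoMetricSpace X] {K : Set X} (hK : IsCompact K)
    {L : ℕ → Set X} (hL : ∀ n, IsCompact (L n))
    (hLK : ∀ n : ℕ, L n ⊆ Metric.thickening (1 / ((n : ℝ) + 1)) K) :
    IsCompact (K ∪ ⋃ n, L n) := by
  rw [isCompact_iff_finite_subcover]
  intro ι U hU hsub
  obtain ⟨t, ht⟩ := hK.elim_finite_subcover U hU (subset_union_left.trans hsub)
  obtain ⟨δ, hδ, hδK⟩ := hK.exists_thickening_subset_open (isOpen_biUnion fun i _ => hU i) ht
  obtain ⟨N, hN⟩ := exists_nat_one_div_lt hδ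
  have h1 : ∀ n : ℕ, ∃ s : Finset ι, L n ⊆ ⋃ i ∈ s, U i := fun n =>
    (hL n).elim_finite_subcover U hU ((subset_iUnion L n).trans
      (subset_union_right.trans hsub))
  choose s hs using h1
  classical
  refine ⟨t ∪ (Finset.range N).biUnion s, ?_⟩
  rintro x (hx | hx)
  · obtain ⟨i, hi, hxi⟩ := mem_iUnion₂.1 (ht hx)
    exact mem_iUnion₂.2 ⟨i, Finset.mem_union_left _ hi, hxi⟩
  · obtain ⟨n, hn⟩ := mem_iUnion.1 hx
    rcases lt_or_ge n N with h | h
    · obtain ⟨i, hi, hxi⟩ := mem_iUnion₂.1 (hs n hn)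
      exact mem_iUnion₂.2 ⟨i, Finset.mem_union_right _
        (Finset.mem_biUnion.2 ⟨n, Finset.mem_range.2 h, hi⟩), hxi⟩
    · have h2 : x ∈ Metric.thickening δ K := by
        refine Metric.thickening_mono ?_ K (hLK n hn)
        refine le_trans ?_ hN.le
        gcongr
      obtain ⟨i, hi, hxi⟩ := mem_iUnion₂.1 (hδK h2)
      exact mem_iUnion₂.2 ⟨i, Finset.mem_union_left _ hi, hxi⟩

section

variable {X : Type} [PseudoMetricSpace X] [SecondCountableTopology X]

/-- The codes: a natural number, a finite set of basic open sets of `X` and a basic open set of the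
real line. -/
abbrev Code (X : Type) [PseudoMetricSpace X] [SecondCountableTopology X] : Type :=
  ℕ × Finset (countableBasis X) × countableBasis ℝ

/-- The property that the point `z` is controlled by `K` and `n`. -/
def Ctrl {Z : Set ℝ} {Y : Type} [PseudoMetricSpace Y] (e : C(Z, ℝ) → C(X, Y)) (n : ℕ) (K : Set X)
    (z : Z) : Prop :=
  ∀ g : C(Z, ℝ), (∀ x ∈ K, dist (e g x) (e 0 x) < 1 / ((n : ℝ) + 1)) → |g z| ≤ 1

/-- The set of the codes that meet the graph of the map `ψ`. -/
def code {Z : Set ℝ} {Y : Type} [PseudoMetricSpace Y] (e : C(Z, ℝ) → C(X, Y)) : Set (Code X) :=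
  {t | ∃ K : Set X, IsCompact K ∧ K ⊆ ⋃ u ∈ t.2.1, (u : Set X) ∧
    ∃ z : Z, (z : ℝ) ∈ (t.2.2 : Set ℝ) ∧ Ctrl e t.1 K z}

omit [SecondCountableTopology X] in
theorem Ctrl.mono {Z : Set ℝ} {Y : Type} [PseudoMetricSpace Y] {e : C(Z, ℝ) → C(X, Y)} {n : ℕ}
    {K L : Set X} (hKL : K ⊆ L) {z : Z} (h : Ctrl e n K z) : Ctrl e n L z :=
  fun g hg => h g fun x hx => hg x (hKL hx)

omit [SecondCountableTopology X] in
/-- Every point is controlled by some compact set. -/
theorem exists_ctrl {Z : Set ℝ} {Y : Type} [PseudoMetricSpace Y] {e : C(Z, ℝ) → C(X, Y)}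
    (he : IsInducing e) (z : Z) : ∃ (n : ℕ) (K : Set X), IsCompact K ∧ Ctrl e n K z := by
  have h1 : {g : C(Z, ℝ) | |g z| < 1} ∈ 𝓝 (0 : C(Z, ℝ)) := by
    have h2 : IsOpen {g : C(Z, ℝ) | |g z| < 1} :=
      isOpen_lt (continuous_eval_const z).abs continuous_const
    exact h2.mem_nhds (by simp)
  rw [he.nhds_eq_comap, mem_comap] at h1
  obtain ⟨O, hO, hOsub⟩ := h1
  obtain ⟨⟨K, ε⟩, ⟨hK, hε⟩, hsub⟩ := (nhds_basis (e 0)).mem_iff.1 hO
  obtain ⟨n, hn⟩ := exists_nat_one_div_lt hε
  refine ⟨n, K, hK, fun g hg => ?_⟩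
  have h3 : g ∈ e ⁻¹' O := hsub fun x hx => (hg x hx).trans hn
  exact (hOsub h3).le

omit [SecondCountableTopology X] in
/-- The points controlled by a compact set lie in a compact set. -/
theorem exists_compact {Z : Set ℝ} {Y : Type} [PseudoMetricSpace Y] {e : C(Z, ℝ) → C(X, Y)}
    (he : IsInducing e) (n : ℕ) {K : Set X} (hK : IsCompact K) :
    ∃ L : Set Z, IsCompact L ∧ ∀ z, Ctrl e n K z → z ∈ L := by
  have h1 : {h : C(X, Y) | ∀ x ∈ K, dist (h x) (e 0 x) < 1 / ((n : ℝ) + 1)} ∈ 𝓝 (e 0) :=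
    (nhds_basis (e 0)).mem_of_mem (i := (K, 1 / ((n : ℝ) + 1))) ⟨hK, by positivity⟩
  have h2 := he.continuous.continuousAt.preimage_mem_nhds h1
  obtain ⟨⟨L, ε⟩, ⟨hL, hε⟩, hsub⟩ := (nhds_basis (0 : C(Z, ℝ))).mem_iff.1 h2
  refine ⟨L, hL, fun z hz => ?_⟩
  by_contra hzL
  -- a function that vanishes on `L` and is large at `z`
  have h3 : 0 < Metric.infDist z L ∨ L = ∅ := by
    rcases L.eq_empty_or_nonempty with h | h
    · exact Or.inr h
    · exact Or.inl ((hL.isClosed.notMem_iff_infDist_pos h).1 hzL)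
  obtain ⟨g, hg0, hgz⟩ : ∃ g : C(Z, ℝ), (∀ w ∈ L, g w = 0) ∧ g z = 2 := by
    rcases h3 with h3 | h3
    · refine ⟨⟨fun w => 2 * (Metric.infDist w L / Metric.infDist z L), ?_⟩, fun w hw => ?_, ?_⟩
      · exact continuous_const.mul ((Metric.continuous_infDist_pt L).div_const _)
      · show 2 * (Metric.infDist w L / Metric.infDist z L) = 0
        rw [Metric.infDist_zero_of_mem hw, zero_div, mul_zero]
      · show 2 * (Metric.infDist z L / Metric.infDist z L) = 2
        rw [div_self h3.ne', mul_one]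
    · refine ⟨ContinuousMap.const Z 2, fun w hw => ?_, rfl⟩
      rw [h3] at hw
      exact hw.elim
  have h4 : g ∈ {g : C(Z, ℝ) | ∀ w ∈ L, dist (g w) ((0 : C(Z, ℝ)) w) < ε} := by
    intro w hw
    rw [hg0 w hw]
    simpa using hε
  have h5 := hz g (hsub h4)
  rw [hgz] at h5
  norm_num at h5

/-- A set of reals can be recovered from its code. -/
theorem subset_of_code_eq {Z Z' : Set ℝ} {Y Y' : Type} [PseudoMetricSpace Y]
    [PseudoMetricSpace Y'] {e : C(Z, ℝ) → C(X, Y)} {e' : C(Z', ℝ) → C(X, Y')}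
    (he : IsInducing e) (he' : IsInducing e') (hcode : code e = code e') : Z ⊆ Z' := by
  intro z hz
  obtain ⟨n, K, hK, hctrl⟩ := exists_ctrl he ⟨z, hz⟩
  -- the approximations
  have h1 : ∀ j : ℕ, ∃ L : Set X, IsCompact L ∧ L ⊆ Metric.thickening (1 / ((j : ℝ) + 1)) K ∧
      ∃ w : Z', dist (w : ℝ) z < 1 / ((j : ℝ) + 1) ∧ Ctrl e' n L w := by
    intro j
    have hj : (0 : ℝ) < 1 / ((j : ℝ) + 1) := by positivity
    -- a finite union of basic sets
    obtain ⟨s, hs1, hs2⟩ : ∃ s : Finset (countableBasis X), K ⊆ ⋃ u ∈ s, (u : Set X) ∧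
        (⋃ u ∈ s, (u : Set X)) ⊆ Metric.thickening (1 / ((j : ℝ) + 1)) K := by
      have h2 : ∀ x ∈ K, ∃ u : countableBasis X, x ∈ (u : Set X) ∧
          (u : Set X) ⊆ Metric.thickening (1 / ((j : ℝ) + 1)) K := by
        intro x hx
        obtain ⟨u, hu, hxu, husub⟩ := (isBasis_countableBasis X).exists_subset_of_mem_open
          (Metric.self_subset_thickening hj K hx) Metric.isOpen_thickening
        exact ⟨⟨u, hu⟩, hxu, husub⟩
      rcases K.eq_empty_or_nonempty with hKe | ⟨x₀, hx₀⟩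
      · exact ⟨∅, by simp [hKe], by simp⟩
      have : Nonempty (countableBasis X) := ⟨(h2 x₀ hx₀).choose⟩
      choose! u hu1 hu2 using h2
      obtain ⟨t, ht, hKt⟩ := hK.elim_nhds_subcover (fun x => (u x : Set X)) fun x hx =>
        (isOpen_of_mem_countableBasis (u x).2).mem_nhds (hu1 x hx)
      classical
      refine ⟨t.image u, ?_, ?_⟩
      · intro x hx
        obtain ⟨y, hy, hxy⟩ := mem_iUnion₂.1 (hKt hx)
        exact mem_iUnion₂.2 ⟨u y, Finset.mem_image_of_mem _ hy, hxy⟩
      · intro x hx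
        obtain ⟨v, hv, hxv⟩ := mem_iUnion₂.1 hx
        obtain ⟨y, hy, rfl⟩ := Finset.mem_image.1 hv
        exact hu2 y (ht y hy) hxv
    obtain ⟨v, hv, hzv, hvsub⟩ := (isBasis_countableBasis ℝ).exists_subset_of_mem_open
      (Metric.mem_ball_self (x := z) hj) Metric.isOpen_ball
    have h3 : ((n, s, ⟨v, hv⟩) : Code X) ∈ code e := ⟨K, hK, hs1, ⟨z, hz⟩, hzv, hctrl⟩
    rw [hcode] at h3
    obtain ⟨L, hL, hLs, w, hwv, hw⟩ := h3
    exact ⟨L, hL, hLs.trans hs2, w, hvsub hwv, hw⟩
  choose L hL hLsub w hw hctrl' using h1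
  obtain ⟨M, hM, hMc⟩ := exists_compact he' n (isCompact_union hK hL hLsub)
  have h4 : ∀ j, w j ∈ M := fun j =>
    hMc _ ((hctrl' j).mono ((subset_iUnion L j).trans subset_union_right))
  have h5 : IsClosed (Subtype.val '' M : Set ℝ) := (hM.image continuous_subtype_val).isClosed
  have h6 : Tendsto (fun j => (w j : ℝ)) atTop (𝓝 z) := by
    rw [tendsto_iff_dist_tendsto_zero]
    exact squeeze_zero (fun _ => dist_nonneg) (fun j => (hw j).le)
      tendsto_one_div_add_atTop_nhds_zero_nat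
  obtain ⟨m, -, hm⟩ := h5.mem_of_tendsto h6 (Eventually.of_forall fun j => ⟨w j, h4 j, rfl⟩)
  rw [← hm]
  exact m.2

end

/-- For every separable metrizable space `X` there is a set `Z` of reals such that `C_k(Z)` does not
embed into `C_k(X, Y)` for any metrizable `Y`. -/
theorem exists_not_embeddable (X : Type) [TopologicalSpace X] [SeparableSpace X]
    [MetrizableSpace X] :
    ∃ Z : Set ℝ, ∀ (Y : Type) [TopologicalSpace Y] [MetrizableSpace Y] (e : C(Z, ℝ) → C(X, Y)),
      ¬ IsInducing e := by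
  by_contra hcon
  push Not at hcon
  let _ := metrizableSpaceMetric X
  have : SecondCountableTopology X := UniformSpace.secondCountable_of_separable X
  have h1 : ∀ Z : Set ℝ, ∃ (Y : Type) (_ : PseudoMetricSpace Y) (e : C(Z, ℝ) → C(X, Y)),
      IsInducing e := by
    intro Z
    obtain ⟨Y, _, _, e, he⟩ := hcon Z
    let _ := metrizableSpaceMetric Y
    exact ⟨Y, inferInstance, e, he⟩
  choose Y instY e he using h1
  have hinj : Function.Injective fun Z : Set ℝ => code (e Z) := fun Z Z' h =>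
    Subset.antisymm (subset_of_code_eq (he Z) (he Z') h)
      (subset_of_code_eq (he Z') (he Z) h.symm)
  -- the codes form a countable set
  obtain ⟨c, hc⟩ := (countable_iff_exists_injective (Code X)).1 inferInstance
  have hinj2 : Function.Injective fun Z : Set ℝ => c '' code (e Z) :=
    hc.image_injective.comp hinj
  -- the sets of natural numbers embed into the reals
  obtain ⟨r⟩ : Nonempty (Set ℕ ↪ ℝ) := by
    rw [← Cardinal.le_def, Cardinal.mk_set, Cardinal.mk_nat, Cardinal.two_power_aleph0,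
      Cardinal.mk_real]
  exact Function.cantor_injective _ (r.injective.comp hinj2)

end Pool.Agent.Q153.CkUniv
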