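import Mathlib

/-!
Debreu's theorem: a continuous total preorder on a second countable space has a continuous
utility representation.
-/

set_option autoImplicit false

open Set Topology TopologicalSpace Filter

namespace Pool.Agent.Q153.Debreu

/-- A monotone Urysohn function in a linear order with its order topology. -/
theorem exists_monotone_urysohn {L : Type*} [LinearOrder L] [TopologicalSpace L] [OrderTopology L]
    {a b : L} (hab : a < b) :
    ∃ F : L → ℝ, Continuous F ∧ Monotone F ∧ (∀ x, F x ∈ Icc (0 : ℝ) 1) ∧ F a = 0 ∧ F b = 1 := by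
  obtain ⟨f, hf0, hf1, hf⟩ := exists_continuous_zero_one_of_isClosed (X := L)
    (isClosed_Iic (a := a)) (isClosed_Ici (a := b))
    (by
      rw [Set.disjoint_left]
      intro x hx hx'
      exact absurd (le_trans hx' hx) (not_le.2 hab))
  have hbdd : ∀ x : L, BddAbove (f '' Iic x) := by
    intro x
    refine ⟨1, ?_⟩
    rintro _ ⟨y, _, rfl⟩
    exact (hf y).2
  have hne : ∀ x : L, (f '' Iic x).Nonempty := fun x => ⟨f x, x, mem_Iic.2 le_rfl, rfl⟩
  let F : L → ℝ := fun x => sSup (f '' Iic x)
  have hmono : Monotone F := by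
    intro x y hxy
    exact csSup_le_csSup (hbdd y) (hne x) (image_mono (Iic_subset_Iic.2 hxy))
  have hle : ∀ x, f x ≤ F x := fun x => le_csSup (hbdd x) ⟨x, mem_Iic.2 le_rfl, rfl⟩
  refine ⟨F, ?_, hmono, ?_, ?_, ?_⟩
  · rw [continuous_iff_continuousAt]
    intro x
    rw [ContinuousAt, Metric.tendsto_nhds]
    intro ε hε
    have h1 : {y | dist (f y) (f x) < ε / 4} ∈ 𝓝 x :=
      (Metric.tendsto_nhds.1 (f.continuous.tendsto x)) (ε / 4) (by linarith)
    obtain ⟨c, d, hx, hcd, hsub⟩ := exists_Icc_mem_subset_of_mem_nhds h1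
    filter_upwards [hcd] with y hy
    have key : ∀ p q : L, p ∈ Icc c d → q ∈ Icc c d → p ≤ q → F q ≤ F p + ε / 2 := by
      intro p q hp hq hpq
      apply csSup_le (hne q)
      rintro _ ⟨z, hz, rfl⟩
      rcases le_total z p with h | h
      · have := le_csSup (hbdd p) ⟨z, h, rfl⟩
        have h' : f z ≤ F p := this
        linarith
      · have hz' : z ∈ Icc c d := ⟨le_trans hp.1 h, le_trans hz hq.2⟩
        have h2 := hsub hz'
        have h3 := hsub hp
        simp only [mem_ofPred_eq, Real.dist_eq] at h2 h3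
        rw [abs_lt] at h2 h3
        have h4 := hle p
        linarith
    rw [Real.dist_eq, abs_lt]
    rcases le_total x y with h | h
    · have h1 := key x y hx hy h
      have h2 := hmono h
      constructor <;> linarith
    · have h1 := key y x hy hx h
      have h2 := hmono h
      constructor <;> linarith
  · intro x
    refine ⟨le_trans (hf x).1 (hle x), csSup_le (hne x) ?_⟩
    rintro _ ⟨y, _, rfl⟩
    exact (hf y).2
  · apply le_antisymm
    · apply csSup_le (hne a)
      rintro _ ⟨y, hy, rfl⟩
      exact le_of_eq (hf0 hy)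
    · exact le_trans (hf a).1 (hle a)
  · apply le_antisymm
    · apply csSup_le (hne b)
      rintro _ ⟨y, _, rfl⟩
      exact (hf y).2
    · have := hle b
      rw [hf1 (mem_Ici.2 le_rfl)] at this
      exact this

/-- A linear order in which countably many points separate has a continuous utility. -/
theorem exists_strictMono_continuous {L : Type*} [LinearOrder L] [TopologicalSpace L]
    [OrderTopology L] (E : Set L) (hE : E.Countable)
    (h : ∀ l l' : L, l < l' → ∃ e ∈ E, ∃ e' ∈ E, l ≤ e ∧ e < e' ∧ e' ≤ l') :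
    ∃ u : L → ℝ, Continuous u ∧ StrictMono u := by
  classical
  let ι := {p : E × E // p.1.1 < p.2.1}
  have : Countable E := hE.to_subtype
  have hι : Countable ι := inferInstance
  let _ : Encodable ι := Encodable.ofCountable ι
  obtain ⟨w, hw0, c, hc, -⟩ := posSumOfEncodable (ε := 1) one_pos ι
  have hex : ∀ i : ι, ∃ F : L → ℝ, Continuous F ∧ Monotone F ∧ (∀ x, F x ∈ Icc (0 : ℝ) 1) ∧
      F i.1.1.1 = 0 ∧ F i.1.2.1 = 1 := fun i => exists_monotone_urysohn i.2
  choose F hF1 hF2 hF3 hF4 hF5 using hex
  have hws : Summable w := hc.summable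
  have hb : ∀ i x, ‖w i * F i x‖ ≤ w i := by
    intro i x
    rw [Real.norm_eq_abs, abs_mul, abs_of_pos (hw0 i), abs_of_nonneg (hF3 i x).1]
    exact mul_le_of_le_one_right (hw0 i).le (hF3 i x).2
  have hs : ∀ x, Summable fun i => w i * F i x := by
    intro x
    exact Summable.of_norm_bounded hws (fun i => hb i x)
  refine ⟨fun x => ∑' i, w i * F i x, ?_, ?_⟩
  · exact continuous_tsum (fun i => continuous_const.mul (hF1 i)) hws hb
  · intro l l' hl
    obtain ⟨e, he, e', he', h1, h2, h3⟩ := h l l' hl
    let i : ι := ⟨(⟨e, he⟩, ⟨e', he'⟩), h2⟩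
    apply Summable.tsum_lt_tsum (i := i) _ _ (hs l) (hs l')
    · intro j
      exact mul_le_mul_of_nonneg_left (hF2 j hl.le) (hw0 j).le
    · have h4 : F i l = 0 := by
        apply le_antisymm
        · have := hF2 i h1
          rw [show F i e = 0 from hF4 i] at this
          exact this
        · exact (hF3 i l).1
      have h5 : F i l' = 1 := by
        apply le_antisymm
        · exact (hF3 i l').2
        · have := hF2 i h3
          rw [show F i e' = 1 from hF5 i] at this
          exact this
      show w i * F i l < w i * F i l'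
      rw [h4, h5]
      simpa using hw0 i

/-- Debreu's theorem. -/
theorem debreu {Y : Type*} [TopologicalSpace Y] [SecondCountableTopology Y] (r : Y → Y → Prop)
    (hrefl : ∀ x, r x x) (htrans : ∀ x y z, r x y → r y z → r x z) (htot : ∀ x y, r x y ∨ r y x)
    (hU : ∀ x, IsOpen {y | ¬ r y x}) (hL : ∀ x, IsOpen {y | ¬ r x y}) :
    ∃ u : Y → ℝ, Continuous u ∧ ∀ x y, r x y ↔ u x ≤ u y := by
  classical
  let _ : Preorder Y := { le := r, le_refl := hrefl, le_trans := htrans }
  have htot' : Std.Total (α := Y) (· ≤ ·) := ⟨htot⟩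
  let _ : DecidableLE Y := Classical.decRel _
  let _ : DecidableLT Y := Classical.decRel _
  let L := Antisymmetrization Y (· ≤ ·)
  let _ : LinearOrder L := inferInstance
  let _ : TopologicalSpace L := Preorder.topology L
  have hOT : OrderTopology L := ⟨rfl⟩
  let π : Y → L := toAntisymmetrization (· ≤ ·)
  have hπle : ∀ x y, π x ≤ π y ↔ r x y := fun x y => toAntisymmetrization_le_toAntisymmetrization_iff
  have hπlt : ∀ x y, π x < π y ↔ ¬ r y x := by
    intro x y
    rw [← not_le, hπle]
  have hsurj : Function.Surjective π := by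
    intro l
    induction l using Quotient.inductionOn' with
    | h a => exact ⟨a, rfl⟩
  have hcont : Continuous π := by
    rw [hOT.topology_eq_generate_intervals, continuous_generateFrom_iff]
    rintro s ⟨l, rfl | rfl⟩
    · obtain ⟨x, rfl⟩ := hsurj l
      have : π ⁻¹' Ioi (π x) = {y | ¬ r y x} := by
        ext y
        simp only [mem_preimage, mem_Ioi, mem_ofPred_eq, hπlt]
      rw [this]
      exact hU x
    · obtain ⟨x, rfl⟩ := hsurj l
      have : π ⁻¹' Iio (π x) = {y | ¬ r x y} := by
        ext y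
        simp only [mem_preimage, mem_Iio, mem_ofPred_eq, hπlt]
      rw [this]
      exact hL x
  let B := countableBasis Y
  have hB : IsTopologicalBasis B := isBasis_countableBasis Y
  have hBc : B.Countable := countable_countableBasis Y
  let d : Set Y → Set L := fun s => if h : (π '' s).Nonempty then {h.some} else ∅
  let m : Set Y → Set L := fun s => {l | IsGreatest (π '' s) l}
  let n : Set Y → Set L := fun s => {l | IsLeast (π '' s) l}
  let E : Set L := ⋃ s ∈ B, (d s ∪ m s ∪ n s)
  have hEc : E.Countable := by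
    apply hBc.biUnion
    intro s _
    refine (Countable.union (Countable.union ?_ ?_) ?_)
    · by_cases h : (π '' s).Nonempty
      · simp only [d, dif_pos h]
        exact countable_singleton _
      · simp only [d, dif_neg h]
        exact countable_empty
    · apply Set.Subsingleton.countable
      intro p hp q hq
      exact IsGreatest.unique hp hq
    · apply Set.Subsingleton.countable
      intro p hp q hq
      exact IsLeast.unique hp hq
  -- nonempty open intervals contain a point of `E`
  have hE1 : ∀ l l' : L, (Ioo l l').Nonempty → ∃ e ∈ E, l < e ∧ e < l' := by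
    rintro l l' ⟨z, hz⟩
    obtain ⟨x, rfl⟩ := hsurj z
    obtain ⟨s, hs, hxs, hsub⟩ := hB.exists_subset_of_mem_open (show x ∈ π ⁻¹' Ioo l l' from hz)
      (isOpen_Ioo.preimage hcont)
    have hne : (π '' s).Nonempty := ⟨π x, x, hxs, rfl⟩
    have hmem : hne.some ∈ π '' s := hne.some_mem
    obtain ⟨y, hys, hy⟩ := hmem
    refine ⟨hne.some, ?_, ?_⟩
    · refine mem_biUnion hs (Or.inl (Or.inl ?_))
      simp only [d, dif_pos hne]
      exact mem_singleton _
    · rw [← hy]
      exact hsub hys
  -- the two ends of a jump belong to `E`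
  have hE2 : ∀ l l' : L, l < l' → (∀ z, ¬ (l < z ∧ z < l')) → l ∈ E ∧ l' ∈ E := by
    intro l l' hl hj
    obtain ⟨x, rfl⟩ := hsurj l
    obtain ⟨y, rfl⟩ := hsurj l'
    constructor
    · obtain ⟨s, hs, hxs, hsub⟩ := hB.exists_subset_of_mem_open
        (show x ∈ π ⁻¹' Iio (π y) from hl) (isOpen_Iio.preimage hcont)
      refine mem_biUnion hs (Or.inl (Or.inr ?_))
      refine ⟨⟨x, hxs, rfl⟩, ?_⟩
      rintro _ ⟨z, hz, rfl⟩
      by_contra hcon
      exact hj (π z) ⟨not_le.1 hcon, hsub hz⟩
    · obtain ⟨s, hs, hxs, hsub⟩ := hB.exists_subset_of_mem_open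
        (show y ∈ π ⁻¹' Ioi (π x) from hl) (isOpen_Ioi.preimage hcont)
      refine mem_biUnion hs (Or.inr ?_)
      refine ⟨⟨y, hxs, rfl⟩, ?_⟩
      rintro _ ⟨z, hz, rfl⟩
      by_contra hcon
      exact hj (π z) ⟨hsub hz, not_le.1 hcon⟩
  obtain ⟨u, hu, hmono⟩ := exists_strictMono_continuous E hEc (by
    intro l l' hl
    by_cases hj : ∀ z, ¬ (l < z ∧ z < l')
    · obtain ⟨h1, h2⟩ := hE2 l l' hl hj
      exact ⟨l, h1, l', h2, le_rfl, hl, le_rfl⟩
    · push Not at hj
      obtain ⟨z, hz⟩ := hj
      obtain ⟨e, he, h1, h2⟩ := hE1 l l' ⟨z, hz⟩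
      by_cases hj' : ∀ z, ¬ (l < z ∧ z < e)
      · obtain ⟨h3, h4⟩ := hE2 l e h1 hj'
        exact ⟨l, h3, e, h4, le_rfl, h1, h2.le⟩
      · push Not at hj'
        obtain ⟨z', hz'⟩ := hj'
        obtain ⟨e', he', h3, h4⟩ := hE1 l e ⟨z', hz'⟩
        exact ⟨e', he', e, he, h3.le, h4, h2.le⟩)
  refine ⟨fun y => u (π y), hu.comp hcont, ?_⟩
  intro x y
  rw [hmono.le_iff_le, hπle]

end Pool.Agent.Q153.Debreu
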