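import Pool.Agent.Q153.FreeKOmega

/-!
For a metrizable space `X`, if `sp_N(X)` is a `k`-space for some `N ≥ 2`, then `X` is locally compact
and separable, and then `V(X)` and all `sp_n(X)` are `k_ω`-spaces.
-/

set_option autoImplicit false

open Set Filter Topology Metric

namespace Pool.Agent.Q153.FreeK

open Pool.Agent.Q153.FreeTVS Pool.Agent.Q153.KOmega Pool.Agent.Q153.FreeKOmega

section

variable {X V : Type} [AddCommGroup V] [Module ℝ V] [TopologicalSpace V]
  [IsTopologicalAddGroup V] [ContinuousSMul ℝ V] {i : X → V}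

/-! ### Linear independence -/

theorem linearIndependent [MetricSpace X] (hi : IsFreeTVS i) : LinearIndependent ℝ i := by
  classical
  rw [linearIndependent_iff']
  intro s g hg x₀ hx₀
  -- a function that separates `x₀` from the other points of `s`
  have h1 : ∀ z ∈ s.erase x₀, 0 < dist z x₀ := fun z hz => dist_pos.2 (Finset.ne_of_mem_erase hz)
  obtain ⟨δ, hδ, hδs⟩ : ∃ δ > 0, ∀ z ∈ s.erase x₀, δ ≤ dist z x₀ := by
    rcases (s.erase x₀).eq_empty_or_nonempty with h | h
    · exact ⟨1, one_pos, fun z hz => by simp [h] at hz⟩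
    · refine ⟨(s.erase x₀).inf' h fun z => dist z x₀, ?_, fun z hz => Finset.inf'_le _ hz⟩
      exact (Finset.lt_inf'_iff h).2 h1
  obtain ⟨F, hF, -⟩ := hi.lift ℝ (fun x => max 0 (1 - dist x x₀ / δ))
    (continuous_const.max (continuous_const.sub ((continuous_id.dist continuous_const).div_const _)))
  have h2 : F (∑ z ∈ s, g z • i z) = 0 := by rw [hg, map_zero]
  rw [map_sum, Finset.sum_eq_single x₀] at h2
  · rw [map_smul, hF, dist_self, zero_div, sub_zero, max_eq_right zero_le_one, smul_eq_mul,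
      mul_one] at h2
    exact h2
  · intro z hz hne
    rw [map_smul, hF, max_eq_left, smul_zero]
    have h3 := hδs z (Finset.mem_erase.2 ⟨hne, hz⟩)
    have h4 : 1 ≤ dist z x₀ / δ := by rwa [le_div_iff₀ hδ, one_mul]
    linarith
  · exact fun h => (h hx₀).elim

omit [TopologicalSpace V] [IsTopologicalAddGroup V] [ContinuousSMul ℝ V] in
/-- The elements of `sp_n` that are combinations of points of `K` are in `spK i K n`. -/
theorem mem_spK_of_mem_span (hli : LinearIndependent ℝ i) {K : Set X} {x₀ : X} (hx₀ : x₀ ∈ K)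
    {n : ℕ} {v : V} (hv : v ∈ sp i n) (hK : v ∈ Submodule.span ℝ (i '' K)) : v ∈ spK i K n := by
  classical
  obtain ⟨c, x, hc, rfl⟩ := hv
  have h1 : ∑ j, c j • i (x j) = (∑ j, if x j ∈ K then c j • i (x j) else 0) +
      ∑ j, if x j ∈ K then 0 else c j • i (x j) := by
    rw [← Finset.sum_add_distrib]
    refine Finset.sum_congr rfl fun j _ => ?_
    split_ifs
    · rw [add_zero]
    · rw [zero_add]
  have h2 : (∑ j, if x j ∈ K then c j • i (x j) else 0) ∈ Submodule.span ℝ (i '' K) := by
    refine Submodule.sum_mem _ fun j _ => ?_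
    split_ifs with h
    · exact Submodule.smul_mem _ _ (Submodule.subset_span ⟨x j, h, rfl⟩)
    · exact Submodule.zero_mem _
  have h3 : (∑ j, if x j ∈ K then 0 else c j • i (x j)) ∈ Submodule.span ℝ (i '' Kᶜ) := by
    refine Submodule.sum_mem _ fun j _ => ?_
    split_ifs with h
    · exact Submodule.zero_mem _
    · exact Submodule.smul_mem _ _ (Submodule.subset_span ⟨x j, h, rfl⟩)
  have h4 : (∑ j, if x j ∈ K then 0 else c j • i (x j)) ∈ Submodule.span ℝ (i '' K) := by
    have h5 : (∑ j, if x j ∈ K then 0 else c j • i (x j)) = (∑ j, c j • i (x j)) -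
        ∑ j, if x j ∈ K then c j • i (x j) else 0 := by
      rw [h1, add_sub_cancel_left]
    rw [h5]
    exact Submodule.sub_mem _ hK h2
  have h6 : (∑ j, if x j ∈ K then 0 else c j • i (x j)) = 0 :=
    Submodule.disjoint_def.1 (hli.disjoint_span_image disjoint_compl_right) _ h4 h3
  rw [h6, add_zero] at h1
  rw [h1]
  refine ⟨fun j => if x j ∈ K then c j else 0, fun j => if x j ∈ K then x j else x₀,
    fun j => ?_, fun j => ?_, ?_⟩
  · show |if x j ∈ K then c j else 0| ≤ n
    split_ifs
    · exact hc j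
    · rw [abs_zero]
      positivity
  · show (if x j ∈ K then x j else x₀) ∈ K
    split_ifs with h
    · exact h
    · exact hx₀
  · refine Finset.sum_congr rfl fun j _ => ?_
    show _ = (if x j ∈ K then c j else 0) • i (if x j ∈ K then x j else x₀)
    split_ifs
    · rfl
    · rw [zero_smul]

omit [TopologicalSpace V] [IsTopologicalAddGroup V] [ContinuousSMul ℝ V] in
theorem spK_subset_span {K : Set X} {n : ℕ} {v : V} (hv : v ∈ spK i K n) :
    v ∈ Submodule.span ℝ (i '' K) := by
  obtain ⟨c, x, -, hx, rfl⟩ := hv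
  exact Submodule.sum_mem _ fun j _ =>
    Submodule.smul_mem _ _ (Submodule.subset_span ⟨x j, hx j, rfl⟩)

/-! ### Locally compact separable base -/

/-- For a locally compact separable metrizable space `X`, the free topological vector space and its
subspaces `sp_n` are `k_ω`-spaces. -/
theorem isKOmega_free [MetricSpace X] [SecondCountableTopology X] [WeaklyLocallyCompactSpace X]
    [T2Space V] (hi : IsFreeTVS i) : IsKOmega V ∧ ∀ n, IsKOmega (sp i n) := by
  rcases isEmpty_or_nonempty X with hX | ⟨⟨x₀⟩⟩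
  · -- the trivial case
    have h1 : Subsingleton V := by
      have h3 := span_eq_top hi
      rw [range_eq_empty, Submodule.span_empty] at h3
      exact (Submodule.subsingleton_iff ℝ).1 (subsingleton_iff_bot_eq_top.1 h3)
    have h2 : ∀ (Z : Type) [TopologicalSpace Z] [Subsingleton Z], IsKOmega Z := by
      intro Z _ _
      refine ⟨fun _ => univ, fun _ => (Set.subsingleton_of_subsingleton).finite.isCompact,
        fun C _ => ?_⟩
      rcases C.eq_empty_or_nonempty with h | h
      · rw [h]
        exact isClosed_empty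
      · rw [h.eq_univ]
        exact isClosed_univ
    exact ⟨h2 V, fun n => h2 _⟩
  -- an exhaustion
  have : SigmaCompactSpace X := by
    have : LocallyCompactSpace X := inferInstance
    infer_instance
  let E : CompactExhaustion X := CompactExhaustion.choice X
  obtain ⟨n₀, hn₀⟩ : ∃ n, x₀ ∈ E n := E.exists_mem x₀
  set K : ℕ → Set X := fun n => E (n + n₀) with hK
  have hKmono : Monotone K := fun n m hnm => E.subset (by omega)
  have hKcov : ∀ x, ∃ n, K n ∈ 𝓝 x := by
    intro x
    obtain ⟨n, hn⟩ := E.exists_mem_nhds x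
    exact ⟨n, mem_of_superset hn (E.subset (Nat.le_add_right _ _))⟩
  have hx₀ : ∀ n, x₀ ∈ K n := fun n => E.subset (Nat.le_add_left _ _) hn₀
  have hD := decomp_free hi (fun n => E.isCompact (n + n₀)) hKmono hKcov hx₀
  refine ⟨isKOmega_of_decomp hD, fun n => ?_⟩
  have hli := linearIndependent hi
  refine ⟨fun m => Subtype.val ⁻¹' spK i (K m) m, fun m => ?_, fun S hS => ?_⟩
  · -- compactness of the traces
    have h1 : IsCompact (spK i (K m) n ∩ spK i (K m) m) :=
      (isCompact_spK hi.continuous (E.isCompact _) n).inter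
        (isCompact_spK hi.continuous (E.isCompact _) m)
    rw [Topology.IsEmbedding.subtypeVal.isCompact_iff]
    have h2 : Subtype.val '' (Subtype.val ⁻¹' spK i (K m) m : Set (sp i n)) =
        spK i (K m) n ∩ spK i (K m) m := by
      ext v
      constructor
      · rintro ⟨w, hw, rfl⟩
        exact ⟨mem_spK_of_mem_span hli (hx₀ m) w.2 (spK_subset_span hw), hw⟩
      · rintro ⟨h1, h2⟩
        exact ⟨⟨v, spK_subset_sp h1⟩, h2, rfl⟩
    rw [h2]
    exact h1
  · have h1 : IsClosed (Subtype.val '' S : Set V) := by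
      rw [← isOpen_compl_iff]
      refine hD.isOpen _ fun m => ?_
      -- the trace of `S` is compact
      have h2 : IsCompact (Subtype.val '' S ∩ spK i (K m) m : Set V) := by
        have h3 : IsCompact (S ∩ Subtype.val ⁻¹' spK i (K m) m : Set (sp i n)) := by
          have h4 : IsCompact (Subtype.val ⁻¹' spK i (K m) m : Set (sp i n)) := by
            have h1 : IsCompact (spK i (K m) n ∩ spK i (K m) m) :=
              (isCompact_spK hi.continuous (E.isCompact _) n).inter
                (isCompact_spK hi.continuous (E.isCompact _) m)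
            rw [Topology.IsEmbedding.subtypeVal.isCompact_iff]
            have h2 : Subtype.val '' (Subtype.val ⁻¹' spK i (K m) m : Set (sp i n)) =
                spK i (K m) n ∩ spK i (K m) m := by
              ext v
              constructor
              · rintro ⟨w, hw, rfl⟩
                exact ⟨mem_spK_of_mem_span hli (hx₀ m) w.2 (spK_subset_span hw), hw⟩
              · rintro ⟨h1, h2⟩
                exact ⟨⟨v, spK_subset_sp h1⟩, h2, rfl⟩
            rw [h2]
            exact h1
          have h5 : CompactSpace (Subtype.val ⁻¹' spK i (K m) m : Set (sp i n)) :=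
            isCompact_iff_compactSpace.1 h4
          have h6 := (hS m).isCompact.image continuous_subtype_val
          have h7 : (Subtype.val '' (Subtype.val ⁻¹' S :
              Set (Subtype.val ⁻¹' spK i (K m) m : Set (sp i n)))) =
              S ∩ Subtype.val ⁻¹' spK i (K m) m := by
            rw [Subtype.image_preimage_coe, inter_comm]
          rwa [h7] at h6
        have h8 := h3.image continuous_subtype_val
        have h9 : Subtype.val '' (S ∩ Subtype.val ⁻¹' spK i (K m) m) =
            Subtype.val '' S ∩ spK i (K m) m := by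
          rw [image_inter_preimage]
        rwa [h9] at h8
      refine ⟨(Subtype.val '' S ∩ spK i (K m) m)ᶜ, h2.isClosed.isOpen_compl, ?_⟩
      ext v
      constructor
      · rintro ⟨h3, h4⟩
        exact ⟨fun h5 => h3 h5.1, h4⟩
      · rintro ⟨h3, h4⟩
        exact ⟨fun h5 => h3 ⟨h5, h4⟩, h4⟩
    have h2 : S = Subtype.val ⁻¹' (Subtype.val '' S : Set V) :=
      (preimage_image_eq S Subtype.val_injective).symm
    rw [h2]
    exact h1.preimage continuous_subtype_val

/-! ### The base is separable -/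

omit [TopologicalSpace V] [IsTopologicalAddGroup V] [ContinuousSMul ℝ V] in
/-- For every countable set of elements of the set `A` there is a function on the indices such that
the corresponding functional is at least `1` on these elements, and large on all but finitely
many. -/
theorem exists_weight' (y : W → X) (n : W → W → ℕ) {B : Set V} (hB : B.Countable)
    (hBA : B ⊆ elt i y n '' {p | p.1 ≠ p.2}) :
    ∃ g : W → ℝ, ∀ F : V →ₗ[ℝ] ℝ, (∀ w, F (i (y w)) = g w) → (∀ b ∈ B, 1 ≤ F b) ∧
      ∀ M : ℕ, {b ∈ B | F b ≤ M}.Finite := by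
  have h1 : ∀ b : B, ∃ p : W × W, p.1 ≠ p.2 ∧ elt i y n p = b := fun b => hBA b.2
  choose p hp1 hp2 using h1
  have : Countable B := hB
  set D : Set W := (range fun b => (p b).1) ∪ range fun b => (p b).2 with hD
  have hDc : D.Countable := (countable_range _).union (countable_range _)
  obtain ⟨e, he⟩ := countable_iff_exists_injOn.1 hDc
  have hWne : Nonempty W := inferInstance
  set u : ℕ → W := Function.invFunOn e D with hu
  have hue : ∀ v ∈ D, u (e v) = v := fun v hv => he.leftInvOn_invFunOn hv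
  set g : W → ℝ := fun w => ((e w : ℝ) + 1) * ∑ j ∈ Finset.range (e w + 1),
    ((n (u j) w : ℝ) + n w (u j) + 1) with hg
  have hg0 : ∀ w, 0 ≤ g w := fun w =>
    mul_nonneg (by positivity) (Finset.sum_nonneg fun j _ => by positivity)
  have hgle : ∀ v ∈ D, ∀ w, e v ≤ e w → ((e w : ℝ) + 1) * ((n v w : ℝ) + n w v + 1) ≤ g w := by
    intro v hv w hvw
    have h2 : e v ∈ Finset.range (e w + 1) := Finset.mem_range.2 (by omega)
    have h3 := Finset.single_le_sum (f := fun j => ((n (u j) w : ℝ) + n w (u j) + 1))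
      (fun j _ => by positivity) h2
    simp only [hue v hv] at h3
    exact mul_le_mul_of_nonneg_left h3 (by positivity)
  refine ⟨g, fun F hF => ?_⟩
  have hmax : ∀ b (hb : b ∈ B), (max (e (p ⟨b, hb⟩).1) (e (p ⟨b, hb⟩).2) : ℝ) + 1 ≤ F b := by
    intro b hb
    have hb' : b = elt i y n (p ⟨b, hb⟩) := (hp2 ⟨b, hb⟩).symm
    have hFb : F b = ((n (p ⟨b, hb⟩).1 (p ⟨b, hb⟩).2 : ℝ) + 1)⁻¹ *
        (g (p ⟨b, hb⟩).1 + g (p ⟨b, hb⟩).2) := by
      conv_lhs => rw [hb']
      unfold elt
      rw [map_smul, map_add, hF, hF, smul_eq_mul]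
    rw [hFb]
    have h4 : (0 : ℝ) < (n (p ⟨b, hb⟩).1 (p ⟨b, hb⟩).2 : ℝ) + 1 := by positivity
    rw [le_inv_mul_iff₀ h4]
    have hv : (p ⟨b, hb⟩).1 ∈ D := Or.inl ⟨_, rfl⟩
    have hw : (p ⟨b, hb⟩).2 ∈ D := Or.inr ⟨_, rfl⟩
    have h5 : (0 : ℝ) ≤ n (p ⟨b, hb⟩).2 (p ⟨b, hb⟩).1 := Nat.cast_nonneg _
    rcases le_total (e (p ⟨b, hb⟩).1) (e (p ⟨b, hb⟩).2) with h | h
    · have h6 := hgle _ hv _ h
      have h7 := hg0 (p ⟨b, hb⟩).1
      rw [max_eq_right (Nat.cast_le.2 h)]
      have h8 : (0 : ℝ) ≤ ((e (p ⟨b, hb⟩).2 : ℝ) + 1) * n (p ⟨b, hb⟩).2 (p ⟨b, hb⟩).1 := by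
        positivity
      nlinarith
    · have h6 := hgle _ hw _ h
      have h7 := hg0 (p ⟨b, hb⟩).2
      rw [max_eq_left (Nat.cast_le.2 h)]
      have h8 : (0 : ℝ) ≤ ((e (p ⟨b, hb⟩).1 : ℝ) + 1) * n (p ⟨b, hb⟩).2 (p ⟨b, hb⟩).1 := by
        positivity
      nlinarith
  refine ⟨fun b hb => ?_, fun M => ?_⟩
  · have h2 := hmax b hb
    have h3 : (0 : ℝ) ≤ max (e (p ⟨b, hb⟩).1 : ℝ) (e (p ⟨b, hb⟩).2) :=
      le_max_of_le_left (Nat.cast_nonneg _)
    linarith
  · -- only finitely many pairs have small indices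
    have hfin : (D ∩ e ⁻¹' Iic M).Finite :=
      Set.Finite.of_finite_image ((finite_Iic M).subset (image_subset_iff.2 inter_subset_right))
        (he.mono inter_subset_left)
    refine ((hfin.prod hfin).image (elt i y n)).subset ?_
    rintro b ⟨hb, hbM⟩
    have h2 := hmax b hb
    have h3 : (max (e (p ⟨b, hb⟩).1 : ℝ) (e (p ⟨b, hb⟩).2)) ≤ M := by linarith
    refine ⟨p ⟨b, hb⟩, ⟨⟨Or.inl ⟨_, rfl⟩, ?_⟩, ⟨Or.inr ⟨_, rfl⟩, ?_⟩⟩, hp2 ⟨b, hb⟩⟩
    · exact Nat.cast_le.1 ((le_max_left _ _).trans h3)
    · exact Nat.cast_le.1 ((le_max_right _ _).trans h3)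

omit [AddCommGroup V] [Module ℝ V] [IsTopologicalAddGroup V] [ContinuousSMul ℝ V] in
/-- In a `k`-space contained in a Hausdorff space, a set that meets compact sets in finite sets is
closed. -/
theorem not_mem_closure_of_isKSpace [T2Space V] {S : Set V} (hS : IsKSpace S) {A : Set V}
    (hAS : A ⊆ S) (hA : ∀ K ⊆ S, IsCompact K → (A ∩ K).Finite) {v : V} (hv : v ∈ S)
    (hvA : v ∉ A) : v ∉ closure A := by
  have h1 : IsClosed (Subtype.val ⁻¹' A : Set S) := by
    refine hS _ fun K hK => ?_
    have h2 : (A ∩ Subtype.val '' K).Finite :=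
      hA _ (by rintro _ ⟨z, -, rfl⟩; exact z.2) (hK.image continuous_subtype_val)
    refine Set.Finite.isClosed ?_
    refine Set.Finite.of_finite_image (f := fun z : K => (z.1.1 : V)) (h2.subset ?_) ?_
    · rintro _ ⟨z, hz, rfl⟩
      exact ⟨hz, z.1, z.2, rfl⟩
    · intro z _ w _ h
      exact Subtype.ext (Subtype.ext h)
  intro hcl
  have h2 : (⟨v, hv⟩ : S) ∈ closure (Subtype.val ⁻¹' A : Set S) := by
    rw [closure_subtype, image_preimage_eq_inter_range, Subtype.range_coe,
      inter_eq_left.2 hAS]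
    exact hcl
  rw [h1.closure_eq] at h2
  exact hvA h2

/-- If `sp_N` is a `k`-space for some `N ≥ 2`, then the base is separable. -/
theorem separable_of_isKSpace [MetricSpace X] [T2Space V] (hi : IsFreeTVS i) {N : ℕ} (hN : 2 ≤ N)
    (h : IsKSpace (sp i N)) : TopologicalSpace.SeparableSpace X := by
  by_contra hX
  obtain ⟨ε, hε, y, hy⟩ := exists_separated hX
  obtain ⟨n, hn⟩ := exists_coloring
  have h0 : (0 : V) ∈ sp i N := by
    refine ⟨fun _ => 0, fun _ => y (Classical.arbitrary W), fun _ => ?_, ?_⟩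
    · rw [abs_zero]
      positivity
    · simp
  refine not_mem_closure_of_isKSpace h (A := elt i y n '' {p | p.1 ≠ p.2}) ?_ ?_ h0 ?_
    (zero_mem_closure hn)
  · rintro _ ⟨p, -, rfl⟩
    exact elt_mem_sp i y n p hN
  · intro K _ hK
    by_contra hinf
    obtain ⟨b, hb1, hb2, hb3⟩ := Set.Infinite.exists_subset_countable_infinite hinf
    obtain ⟨g, hg⟩ := exists_weight' (i := i) y n hb2 (hb1.trans inter_subset_left)
    obtain ⟨f, hf, hfg⟩ := exists_extension_of_separated hε hy g
    obtain ⟨F, hF, -⟩ := hi.lift ℝ f hf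
    have h2 := (hg F.toLinearMap fun w => (hF (y w)).trans (hfg w)).2
    obtain ⟨M, hM⟩ := (hK.image F.continuous).bddAbove
    obtain ⟨M', hM'⟩ := exists_nat_ge M
    refine hb3 ((h2 M').subset fun v hv => ⟨hv, ?_⟩)
    exact (hM ⟨v, (hb1 hv).2, rfl⟩).trans hM'
  · rintro ⟨p, hp, hp0⟩
    obtain ⟨g, hg⟩ := exists_weight' (i := i) y n (B := {elt i y n p}) (countable_singleton _)
      (singleton_subset_iff.2 ⟨p, hp, rfl⟩)
    obtain ⟨f, hf, hfg⟩ := exists_extension_of_separated hε hy g
    obtain ⟨F, hF, -⟩ := hi.lift ℝ f hf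
    have h2 := (hg F.toLinearMap fun w => (hF (y w)).trans (hfg w)).1 _ rfl
    rw [hp0] at h2
    have h3 : (1 : ℝ) ≤ F 0 := h2
    rw [map_zero] at h3
    exact absurd h3 (by norm_num)

end

end Pool.Agent.Q153.FreeK
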