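import Mathlib

/-!
Spaces with a compact decomposition (`k_ω`-spaces) and products of two of them.
-/

set_option autoImplicit false

open Set Filter Topology

namespace Pool.Agent.Q153.KOmega

/-- `k`-spaces: a set is closed if its intersection with every compact set `K` is closed in `K`. -/
def IsKSpace (Z : Type) [TopologicalSpace Z] : Prop :=
  ∀ C : Set Z, (∀ K : Set Z, IsCompact K → IsClosed (Subtype.val ⁻¹' C : Set K)) → IsClosed C

/-- `k_ω`-spaces: there are compact sets `K₀, K₁, ...` such that a set is closed if its intersection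
with every `Kₙ` is closed in `Kₙ`. -/
def IsKOmega (Z : Type) [TopologicalSpace Z] : Prop :=
  ∃ K : ℕ → Set Z, (∀ n, IsCompact (K n)) ∧
    ∀ C : Set Z, (∀ n, IsClosed (Subtype.val ⁻¹' C : Set (K n))) → IsClosed C

theorem IsKOmega.isKSpace {Z : Type} [TopologicalSpace Z] (h : IsKOmega Z) : IsKSpace Z := by
  obtain ⟨K, hK, h⟩ := h
  exact fun C hC => h C fun n => hC _ (hK n)

/-- An increasing sequence of compact sets that cover the space and determine its topology. -/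
structure Decomp {Z : Type} [TopologicalSpace Z] (C : ℕ → Set Z) : Prop where
  /-- the sets are compact -/
  isCompact : ∀ n, IsCompact (C n)
  /-- the sets increase -/
  mono : Monotone C
  /-- the sets cover the space -/
  cover : ∀ z, ∃ n, z ∈ C n
  /-- a set is open if it is relatively open in all sets of the sequence -/
  isOpen : ∀ U : Set Z, (∀ n, ∃ O : Set Z, IsOpen O ∧ U ∩ C n = O ∩ C n) → IsOpen U

/-- One step of the construction: a compact subset `A` of `C` and an open set `u ⊇ A` give a compact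
relative neighbourhood of `A` in `C` contained in `u`. -/
theorem exists_nbhd {Z : Type} [TopologicalSpace Z] [T2Space Z] {A C u : Set Z} (hA : IsCompact A)
    (hC : IsCompact C) (hu : IsOpen u) (hAu : A ⊆ u) :
    ∃ A' P : Set Z, IsCompact A' ∧ IsOpen P ∧ A ⊆ P ∧ P ∩ C ⊆ A' ∧ A' ⊆ u ∩ C := by
  have h1 : IsCompact (C \ u) := hC.diff hu
  have h2 : Disjoint A (C \ u) := by
    rw [Set.disjoint_left]
    exact fun x hx hx' => hx'.2 (hAu hx)
  obtain ⟨P, Q, hP, hQ, hAP, hCQ, hPQ⟩ := SeparatedNhds.of_isCompact_isCompact hA h1 h2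
  refine ⟨C \ Q, P, hC.diff hQ, hP, hAP, fun x hx => ⟨hx.2, fun hxQ =>
    Set.disjoint_left.1 hPQ hx.1 hxQ⟩, fun x hx => ⟨?_, hx.1⟩⟩
  by_contra h
  exact hx.2 (hCQ ⟨hx.1, h⟩)

/-- In the product of two spaces with a compact decomposition, a set is open if its intersections
with the products of the members of the decompositions are relatively open. -/
theorem isOpen_prod {Z Z' : Type} [TopologicalSpace Z] [TopologicalSpace Z'] [T2Space Z]
    [T2Space Z'] {C : ℕ → Set Z} {C' : ℕ → Set Z'} (hC : Decomp C) (hC' : Decomp C')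
    {W : Set (Z × Z')}
    (hW : ∀ n, ∃ O : Set (Z × Z'), IsOpen O ∧ W ∩ C n ×ˢ C' n = O ∩ C n ×ˢ C' n) : IsOpen W := by
  rw [isOpen_iff_mem_nhds]
  rintro ⟨a, b⟩ hab
  obtain ⟨n₁, h₁⟩ := hC.cover a
  obtain ⟨n₂, h₂⟩ := hC'.cover b
  set n₀ := max n₁ n₂ with hn₀
  have ha : a ∈ C n₀ := hC.mono (le_max_left _ _) h₁
  have hb : b ∈ C' n₀ := hC'.mono (le_max_right _ _) h₂
  -- the states of the construction
  let S : ℕ → Type := fun n => {p : Set Z × Set Z' // IsCompact p.1 ∧ IsCompact p.2 ∧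
    p.1 ⊆ C (n₀ + n) ∧ p.2 ⊆ C' (n₀ + n) ∧ p.1 ×ˢ p.2 ⊆ W}
  have step : ∀ (n : ℕ) (p : S n), ∃ q : S (n + 1), (∃ P, IsOpen P ∧ p.1.1 ⊆ P ∧
      P ∩ C (n₀ + (n + 1)) ⊆ q.1.1) ∧ ∃ P, IsOpen P ∧ p.1.2 ⊆ P ∧
      P ∩ C' (n₀ + (n + 1)) ⊆ q.1.2 := by
    rintro n ⟨⟨A, B⟩, hA, hB, hAC, hBC, hAB⟩
    obtain ⟨O, hO, hOW⟩ := hW (n₀ + (n + 1))
    have hABO : A ×ˢ B ⊆ O := by
      intro z hz
      have h3 : z ∈ W ∩ C (n₀ + (n + 1)) ×ˢ C' (n₀ + (n + 1)) :=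
        ⟨hAB hz, hC.mono (by omega) (hAC hz.1), hC'.mono (by omega) (hBC hz.2)⟩
      rw [hOW] at h3
      exact h3.1
    obtain ⟨u, v, hu, hv, hAu, hBv, huv⟩ := generalized_tube_lemma hA hB hO hABO
    obtain ⟨A', P, hA', hP, hAP, hPA, hA'u⟩ := exists_nbhd hA (hC.isCompact (n₀ + (n + 1))) hu hAu
    obtain ⟨B', Q, hB', hQ, hBQ, hQB, hB'v⟩ := exists_nbhd hB (hC'.isCompact (n₀ + (n + 1))) hv hBv
    refine ⟨⟨(A', B'), hA', hB', fun x hx => (hA'u hx).2, fun x hx => (hB'v hx).2, ?_⟩,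
      ⟨P, hP, hAP, hPA⟩, ⟨Q, hQ, hBQ, hQB⟩⟩
    rintro ⟨x, z⟩ ⟨hx, hz⟩
    have h3 : (x, z) ∈ O ∩ C (n₀ + (n + 1)) ×ˢ C' (n₀ + (n + 1)) :=
      ⟨huv ⟨(hA'u hx).1, (hB'v hz).1⟩, (hA'u hx).2, (hB'v hz).2⟩
    rw [← hOW] at h3
    exact h3.1
  choose nxt hnxt using step
  let st : ∀ n, S n := fun n => Nat.rec ⟨({a}, {b}), isCompact_singleton, isCompact_singleton,
    singleton_subset_iff.2 ha, singleton_subset_iff.2 hb, by
      rintro ⟨x, z⟩ ⟨hx, hz⟩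
      rw [mem_singleton_iff] at hx hz
      simp only at hx hz
      rw [hx, hz]
      exact hab⟩ (fun n p => nxt n p) n
  have hst : ∀ n, st (n + 1) = nxt n (st n) := fun n => rfl
  have hmono₁ : ∀ n, (st n).1.1 ⊆ (st (n + 1)).1.1 := by
    intro n x hx
    obtain ⟨⟨P, -, hP1, hP2⟩, -⟩ := hnxt n (st n)
    rw [hst]
    exact hP2 ⟨hP1 hx, hC.mono (by omega) ((st n).2.2.2.1 hx)⟩
  have hmono₂ : ∀ n, (st n).1.2 ⊆ (st (n + 1)).1.2 := by
    intro n x hx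
    obtain ⟨-, ⟨P, -, hP1, hP2⟩⟩ := hnxt n (st n)
    rw [hst]
    exact hP2 ⟨hP1 hx, hC'.mono (by omega) ((st n).2.2.2.2.1 hx)⟩
  have hm₁ : Monotone fun n => (st n).1.1 := monotone_nat_of_le_succ hmono₁
  have hm₂ : Monotone fun n => (st n).1.2 := monotone_nat_of_le_succ hmono₂
  have hopen₁ : IsOpen (⋃ n, (st n).1.1) := by
    refine hC.isOpen _ fun k => ?_
    choose P hP1 hP2 hP3 using fun n => (hnxt n (st n)).1
    refine ⟨⋃ n ≥ k, P n, isOpen_biUnion fun n _ => hP1 n, ?_⟩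
    ext x
    constructor
    · rintro ⟨hx, hxk⟩
      obtain ⟨n, hn⟩ := mem_iUnion.1 hx
      exact ⟨mem_iUnion₂.2 ⟨max n k, le_max_right _ _, hP2 _ (hm₁ (le_max_left n k) hn)⟩, hxk⟩
    · rintro ⟨hx, hxk⟩
      obtain ⟨n, hnk, hn⟩ := mem_iUnion₂.1 hx
      refine ⟨mem_iUnion.2 ⟨n + 1, ?_⟩, hxk⟩
      rw [hst]
      exact hP3 n ⟨hn, hC.mono (by omega) hxk⟩
  have hopen₂ : IsOpen (⋃ n, (st n).1.2) := by
    refine hC'.isOpen _ fun k => ?_
    choose P hP1 hP2 hP3 using fun n => (hnxt n (st n)).2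
    refine ⟨⋃ n ≥ k, P n, isOpen_biUnion fun n _ => hP1 n, ?_⟩
    ext x
    constructor
    · rintro ⟨hx, hxk⟩
      obtain ⟨n, hn⟩ := mem_iUnion.1 hx
      exact ⟨mem_iUnion₂.2 ⟨max n k, le_max_right _ _, hP2 _ (hm₂ (le_max_left n k) hn)⟩, hxk⟩
    · rintro ⟨hx, hxk⟩
      obtain ⟨n, hnk, hn⟩ := mem_iUnion₂.1 hx
      refine ⟨mem_iUnion.2 ⟨n + 1, ?_⟩, hxk⟩
      rw [hst]
      exact hP3 n ⟨hn, hC'.mono (by omega) hxk⟩
  have h4 : (⋃ n, (st n).1.1) ×ˢ (⋃ n, (st n).1.2) ⊆ W := by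
    rintro ⟨x, z⟩ ⟨hx, hz⟩
    obtain ⟨n, hn⟩ := mem_iUnion.1 hx
    obtain ⟨m, hm⟩ := mem_iUnion.1 hz
    exact (st (max n m)).2.2.2.2.2 ⟨hm₁ (le_max_left n m) hn, hm₂ (le_max_right n m) hm⟩
  refine mem_of_superset ((hopen₁.prod hopen₂).mem_nhds ⟨?_, ?_⟩) h4
  · exact mem_iUnion.2 ⟨0, mem_singleton a⟩
  · exact mem_iUnion.2 ⟨0, mem_singleton b⟩

/-- The compact intervals decompose the real line. -/
theorem decomp_real : Decomp fun n : ℕ => Icc (-(n : ℝ)) n where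
  isCompact n := isCompact_Icc
  mono n m hnm := Icc_subset_Icc (neg_le_neg (Nat.cast_le.2 hnm)) (Nat.cast_le.2 hnm)
  cover z := by
    obtain ⟨n, hn⟩ := exists_nat_ge |z|
    exact ⟨n, abs_le.1 hn⟩
  isOpen U hU := by
    rw [isOpen_iff_mem_nhds]
    intro x hx
    obtain ⟨n, hn⟩ := exists_nat_gt |x|
    obtain ⟨O, hO, hOU⟩ := hU n
    have h1 : Icc (-(n : ℝ)) n ∈ 𝓝 x := Icc_mem_nhds (abs_lt.1 hn).1 (abs_lt.1 hn).2
    have h2 : x ∈ O ∩ Icc (-(n : ℝ)) n := by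
      rw [← hOU]
      exact ⟨hx, mem_of_mem_nhds h1⟩
    filter_upwards [hO.mem_nhds h2.1, h1] with z hz1 hz2
    have h3 : z ∈ O ∩ Icc (-(n : ℝ)) n := ⟨hz1, hz2⟩
    rw [← hOU] at h3
    exact h3.1

end Pool.Agent.Q153.KOmega
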