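import Pool.Agent.Q153.FreeTVS
import Pool.Agent.Q153.KOmega

/-!
The free topological vector space over a locally compact separable metrizable space is a
`k_ω`-space, and so are all its subspaces `sp_n`.
-/

set_option autoImplicit false

open Set Filter Topology Metric

namespace Pool.Agent.Q153.FreeKOmega

open Pool.Agent.Q153.FreeTVS Pool.Agent.Q153.KOmega

/-! ### The topology determined by a sequence of compact sets -/

/-- The vector space `V` with the topology determined by the sets `C n`. -/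
def Tau {V : Type} (_ : ℕ → Set V) : Type := V

section

variable {V : Type} [AddCommGroup V] [Module ℝ V] [TopologicalSpace V]
  {C : ℕ → Set V}

instance : AddCommGroup (Tau C) := inferInstanceAs (AddCommGroup V)

instance : Module ℝ (Tau C) := inferInstanceAs (Module ℝ V)

instance : TopologicalSpace (Tau C) where
  IsOpen U := ∀ n, ∃ O : Set V, IsOpen O ∧ (show Set V from U) ∩ C n = O ∩ C n
  isOpen_univ n := ⟨univ, isOpen_univ, rfl⟩
  isOpen_inter U U' hU hU' n := by
    obtain ⟨O, hO, h1⟩ := hU n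
    obtain ⟨O', hO', h2⟩ := hU' n
    refine ⟨O ∩ O', hO.inter hO', ?_⟩
    have h3 : ∀ A B : Set V, (A ∩ B) ∩ C n = (A ∩ C n) ∩ (B ∩ C n) := fun A B => by
      rw [inter_inter_distrib_right]
    exact (h3 U U').trans ((congrArg₂ (· ∩ ·) h1 h2).trans (h3 O O').symm)
  isOpen_sUnion 𝒰 h𝒰 n := by
    choose! O hO h1 using fun U hU => h𝒰 U hU n
    refine ⟨⋃ U ∈ 𝒰, O U, isOpen_biUnion fun U hU => hO U hU, ?_⟩
    ext x
    constructor
    · rintro ⟨⟨U, hU, hxU⟩, hxn⟩
      have h2 : x ∈ O U ∩ C n := by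
        rw [← h1 U hU]
        exact ⟨hxU, hxn⟩
      exact ⟨mem_iUnion₂.2 ⟨U, hU, h2.1⟩, hxn⟩
    · rintro ⟨hx, hxn⟩
      obtain ⟨U, hU, hxU⟩ := mem_iUnion₂.1 hx
      have h2 : x ∈ (show Set V from U) ∩ C n := by
        rw [h1 U hU]
        exact ⟨hxU, hxn⟩
      exact ⟨⟨U, hU, h2.1⟩, hxn⟩

/-- The identity, from the vector space to the space with the new topology. -/
def toTau (C : ℕ → Set V) (v : V) : Tau C := v

/-- The identity, from the space with the new topology to the vector space. -/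
def ofTau (C : ℕ → Set V) (v : Tau C) : V := v

omit [AddCommGroup V] [Module ℝ V] in
theorem isOpen_iff {U : Set (Tau C)} :
    IsOpen U ↔ ∀ n, ∃ O : Set V, IsOpen O ∧ toTau C ⁻¹' U ∩ C n = O ∩ C n := Iff.rfl

omit [AddCommGroup V] [Module ℝ V] in
theorem continuous_ofTau : Continuous (ofTau C) := by
  rw [continuous_def]
  intro U hU
  rw [isOpen_iff]
  exact fun n => ⟨U, hU, rfl⟩

instance [T2Space V] : T2Space (Tau C) :=
  T2Space.of_injective_continuous (f := ofTau C) (fun _ _ h => h) continuous_ofTau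

omit [AddCommGroup V] [Module ℝ V] in
theorem continuousOn_toTau (n : ℕ) : ContinuousOn (toTau C) (C n) := by
  rw [_root_.continuousOn_iff']
  intro U hU
  exact hU n

omit [AddCommGroup V] [Module ℝ V] in
theorem decomp_tau (hC : ∀ n, IsCompact (C n)) (hmono : Monotone C) (hcov : ∀ v, ∃ n, v ∈ C n) :
    Decomp (Z := Tau C) C where
  isCompact n := by
    have h1 := (hC n).image_of_continuousOn (continuousOn_toTau n)
    have h2 : toTau C '' C n = C n := image_id _
    rw [h2] at h1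
    exact h1
  mono := hmono
  cover := hcov
  isOpen U hU := by
    rw [isOpen_iff]
    intro n
    obtain ⟨O, hO, h1⟩ := hU n
    obtain ⟨O', hO', h2⟩ := isOpen_iff.1 hO n
    exact ⟨O', hO', h1.trans h2⟩

omit [Module ℝ V] in
/-- The new topology is a vector space topology. -/
theorem continuousAdd_tau [IsTopologicalAddGroup V] [T2Space V] (hC : ∀ n, IsCompact (C n))
    (hmono : Monotone C) (hcov : ∀ v, ∃ n, v ∈ C n)
    (hadd : ∀ n, ∃ m, ∀ v ∈ C n, ∀ w ∈ C n, v + w ∈ C m) : ContinuousAdd (Tau C) := by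
  refine ⟨continuous_def.2 fun U hU => ?_⟩
  refine isOpen_prod (decomp_tau hC hmono hcov) (decomp_tau hC hmono hcov) fun n => ?_
  obtain ⟨m, hm⟩ := hadd n
  obtain ⟨O, hO, h1⟩ := isOpen_iff.1 hU m
  refine ⟨(fun p : Tau C × Tau C => ofTau C p.1 + ofTau C p.2) ⁻¹' O,
    hO.preimage ((continuous_ofTau.comp continuous_fst).add
      (continuous_ofTau.comp continuous_snd)), ?_⟩
  ext ⟨v, w⟩
  have h2 : v ∈ C n → w ∈ C n → (v + w ∈ U ↔ ofTau C v + ofTau C w ∈ O) := by
    intro hv hw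
    have h3 : (v + w : V) ∈ toTau C ⁻¹' U ∩ C m ↔ (v + w : V) ∈ O ∩ C m := by rw [h1]
    have h4 := hm v hv w hw
    constructor
    · intro h
      exact (h3.1 ⟨h, h4⟩).1
    · intro h
      exact (h3.2 ⟨h, h4⟩).1
  constructor
  · rintro ⟨h, hv, hw⟩
    exact ⟨(h2 hv hw).1 h, hv, hw⟩
  · rintro ⟨h, hv, hw⟩
    exact ⟨(h2 hv hw).2 h, hv, hw⟩

theorem continuousSMul_tau [ContinuousSMul ℝ V] [T2Space V] (hC : ∀ n, IsCompact (C n))
    (hmono : Monotone C) (hcov : ∀ v, ∃ n, v ∈ C n)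
    (hsmul : ∀ n : ℕ, ∃ m, ∀ r : ℝ, |r| ≤ n → ∀ v ∈ C n, r • v ∈ C m) :
    ContinuousSMul ℝ (Tau C) := by
  refine ⟨continuous_def.2 fun U hU => ?_⟩
  refine isOpen_prod decomp_real (decomp_tau hC hmono hcov) fun n => ?_
  obtain ⟨m, hm⟩ := hsmul n
  obtain ⟨O, hO, h1⟩ := isOpen_iff.1 hU m
  refine ⟨(fun p : ℝ × Tau C => p.1 • ofTau C p.2) ⁻¹' O,
    hO.preimage (continuous_fst.smul (continuous_ofTau.comp continuous_snd)), ?_⟩
  ext ⟨r, v⟩
  have h2 : r ∈ Icc (-(n : ℝ)) n → v ∈ C n → (r • v ∈ U ↔ r • ofTau C v ∈ O) := by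
    intro hr hv
    have h3 : (r • v : V) ∈ toTau C ⁻¹' U ∩ C m ↔ (r • v : V) ∈ O ∩ C m := by rw [h1]
    have h4 := hm r (abs_le.2 hr) v hv
    constructor
    · intro h
      exact (h3.1 ⟨h, h4⟩).1
    · intro h
      exact (h3.2 ⟨h, h4⟩).1
  constructor
  · rintro ⟨h, hr, hv⟩
    exact ⟨(h2 hr hv).1 h, hr, hv⟩
  · rintro ⟨h, hr, hv⟩
    exact ⟨(h2 hr hv).2 h, hr, hv⟩

theorem isTopologicalAddGroup_tau [IsTopologicalAddGroup V] [ContinuousSMul ℝ V] [T2Space V]
    (hC : ∀ n, IsCompact (C n)) (hmono : Monotone C) (hcov : ∀ v, ∃ n, v ∈ C n)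
    (hadd : ∀ n, ∃ m, ∀ v ∈ C n, ∀ w ∈ C n, v + w ∈ C m)
    (hsmul : ∀ n : ℕ, ∃ m, ∀ r : ℝ, |r| ≤ n → ∀ v ∈ C n, r • v ∈ C m) :
    IsTopologicalAddGroup (Tau C) := by
  have h1 := continuousAdd_tau hC hmono hcov hadd
  have h2 := continuousSMul_tau hC hmono hcov hsmul
  refine { toContinuousAdd := h1, toContinuousNeg := ⟨?_⟩ }
  have h3 : (fun v : Tau C => -v) = fun v => (-1 : ℝ) • v := by
    funext v
    rw [neg_one_smul]
  rw [h3]
  exact continuous_const_smul _

end

/-! ### The free topological vector space -/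

section

variable {X V : Type} [TopologicalSpace X] [AddCommGroup V] [Module ℝ V] [TopologicalSpace V]
  [IsTopologicalAddGroup V] [ContinuousSMul ℝ V] {i : X → V}

/-- The combinations of at most `n` points of `K` with coefficients of absolute value at most
`n`. -/
def spK (i : X → V) (K : Set X) (n : ℕ) : Set V :=
  {v | ∃ (c : Fin n → ℝ) (x : Fin n → X), (∀ j, |c j| ≤ n) ∧ (∀ j, x j ∈ K) ∧
    v = ∑ j, c j • i (x j)}

omit [TopologicalSpace X] [TopologicalSpace V] [IsTopologicalAddGroup V]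
  [ContinuousSMul ℝ V] in
theorem spK_subset_sp {K : Set X} {n : ℕ} : spK i K n ⊆ sp i n := by
  rintro v ⟨c, x, hc, -, rfl⟩
  exact ⟨c, x, hc, rfl⟩

theorem isCompact_spK (hi : Continuous i) {K : Set X} (hK : IsCompact K) (n : ℕ) :
    IsCompact (spK i K n) := by
  have h1 : IsCompact ((univ.pi fun _ : Fin n => Icc (-(n : ℝ)) n) ×ˢ
      (univ.pi fun _ : Fin n => K)) :=
    (isCompact_univ_pi fun _ => isCompact_Icc).prod (isCompact_univ_pi fun _ => hK)
  have h2 : spK i K n = comb i n '' ((univ.pi fun _ : Fin n => Icc (-(n : ℝ)) n) ×ˢ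
      (univ.pi fun _ : Fin n => K)) := by
    ext v
    constructor
    · rintro ⟨c, x, hc, hx, rfl⟩
      exact ⟨(c, x), ⟨fun j _ => abs_le.1 (hc j), fun j _ => hx j⟩, rfl⟩
    · rintro ⟨⟨c, x⟩, ⟨hc, hx⟩, rfl⟩
      exact ⟨c, x, fun j => abs_le.2 (hc j trivial), fun j => hx j trivial, rfl⟩
  rw [h2]
  exact h1.image (continuous_comb hi n)

omit [TopologicalSpace X] [TopologicalSpace V] [IsTopologicalAddGroup V]
  [ContinuousSMul ℝ V] in
/-- Padding by a point of `K`. -/
theorem mem_spK_of_le {K L : Set X} {n m : ℕ} (hnm : n ≤ m) (hKL : K ⊆ L) {x₀ : X} (hx₀ : x₀ ∈ L)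
    {c : Fin n → ℝ} {x : Fin n → X} (hc : ∀ j, |c j| ≤ m) (hx : ∀ j, x j ∈ K) :
    ∑ j, c j • i (x j) ∈ spK i L m := by
  obtain ⟨k, rfl⟩ := Nat.exists_eq_add_of_le hnm
  refine ⟨Fin.append c fun _ => 0, Fin.append x fun _ => x₀, fun j => ?_, fun j => ?_, ?_⟩
  · refine Fin.addCases (fun j => ?_) (fun j => ?_) j
    · rw [Fin.append_left]
      exact hc j
    · rw [Fin.append_right, abs_zero]
      positivity
  · refine Fin.addCases (fun j => ?_) (fun j => ?_) j
    · rw [Fin.append_left]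
      exact hKL (hx j)
    · rw [Fin.append_right]
      exact hx₀
  · rw [Fin.sum_univ_add]
    simp

omit [TopologicalSpace X] [TopologicalSpace V] [IsTopologicalAddGroup V]
  [ContinuousSMul ℝ V] in
theorem add_mem_spK {K : Set X} {n : ℕ} {v w : V} (hv : v ∈ spK i K n) (hw : w ∈ spK i K n) :
    v + w ∈ spK i K (n + n) := by
  obtain ⟨c, x, hc, hx, rfl⟩ := hv
  obtain ⟨d, z, hd, hz, rfl⟩ := hw
  refine ⟨Fin.append c d, Fin.append x z, fun j => ?_, fun j => ?_, ?_⟩
  · refine Fin.addCases (fun j => ?_) (fun j => ?_) j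
    · rw [Fin.append_left]
      push_cast
      have : (0 : ℝ) ≤ n := Nat.cast_nonneg _
      linarith [hc j]
    · rw [Fin.append_right]
      push_cast
      have : (0 : ℝ) ≤ n := Nat.cast_nonneg _
      linarith [hd j]
  · refine Fin.addCases (fun j => ?_) (fun j => ?_) j
    · rw [Fin.append_left]
      exact hx j
    · rw [Fin.append_right]
      exact hz j
  · rw [Fin.sum_univ_add]
    simp only [Fin.append_left, Fin.append_right]

/-- The topology of the free topological vector space over a space with a suitable sequence of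
compact sets is determined by the compact sets `spK i (K n) n`. -/
theorem decomp_free [T2Space V] (hi : IsFreeTVS i) {K : ℕ → Set X}
    (hK : ∀ n, IsCompact (K n)) (hmono : Monotone K) (hcov : ∀ x, ∃ n, K n ∈ 𝓝 x) {x₀ : X}
    (hx₀ : ∀ n, x₀ ∈ K n) : Decomp fun n => spK i (K n) n := by
  set C : ℕ → Set V := fun n => spK i (K n) n with hC
  have hCc : ∀ n, IsCompact (C n) := fun n => isCompact_spK hi.continuous (hK n) n
  have hCm : Monotone C := by
    rintro n m hnm v ⟨c, x, hc, hx, rfl⟩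
    exact mem_spK_of_le hnm (hmono hnm) (hx₀ m) (fun j => (hc j).trans (Nat.cast_le.2 hnm)) hx
  have hcov' : ∀ x, ∃ n, x ∈ K n := fun x => by
    obtain ⟨n, hn⟩ := hcov x
    exact ⟨n, mem_of_mem_nhds hn⟩
  have hCcov : ∀ v, ∃ n, v ∈ C n := by
    intro v
    obtain ⟨n, c, x, hc, rfl⟩ := iUnion_sp hi v
    choose k hk using hcov'
    set m := n + ∑ j, k (x j) with hm
    refine ⟨m, mem_spK_of_le (K := K m) (Nat.le_add_right _ _) subset_rfl (hx₀ m)
      (fun j => (hc j).trans (Nat.cast_le.2 (Nat.le_add_right _ _))) fun j => ?_⟩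
    refine hmono ?_ (hk (x j))
    exact (Finset.single_le_sum (f := fun j => k (x j)) (fun _ _ => Nat.zero_le _)
      (Finset.mem_univ j)).trans (Nat.le_add_left _ _)
  have hadd : ∀ n, ∃ m, ∀ v ∈ C n, ∀ w ∈ C n, v + w ∈ C m := by
    refine fun n => ⟨n + n, fun v hv w hw => ?_⟩
    obtain ⟨c, x, hc, hx, h⟩ := add_mem_spK hv hw
    rw [h]
    exact mem_spK_of_le le_rfl (hmono (Nat.le_add_right n n)) (hx₀ _) hc hx
  have hsmul : ∀ n : ℕ, ∃ m, ∀ r : ℝ, |r| ≤ n → ∀ v ∈ C n, r • v ∈ C m := by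
    refine fun n => ⟨n * n + n, fun r hr v hv => ?_⟩
    obtain ⟨c, x, hc, hx, rfl⟩ := hv
    rw [Finset.smul_sum]
    have h1 : ∑ j, r • c j • i (x j) = ∑ j, (r * c j) • i (x j) :=
      Finset.sum_congr rfl fun j _ => (mul_smul _ _ _).symm
    rw [h1]
    refine mem_spK_of_le (Nat.le_add_left _ _) (hmono (Nat.le_add_left _ _)) (hx₀ _)
      (fun j => ?_) hx
    rw [abs_mul]
    have h2 : |r| * |c j| ≤ n * n :=
      mul_le_mul hr (hc j) (abs_nonneg _) (Nat.cast_nonneg _)
    push_cast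
    have : (0 : ℝ) ≤ n := Nat.cast_nonneg _
    linarith
  have h1 := isTopologicalAddGroup_tau hCc hCm hCcov hadd hsmul
  have h2 := continuousSMul_tau hCc hCm hCcov hsmul
  -- `i` is continuous for the new topology
  have h3 : Continuous fun x => toTau C (i x) := by
    rw [continuous_iff_continuousAt]
    intro x
    obtain ⟨n, hn⟩ := hcov x
    have h4 : ContinuousOn (fun x => toTau C (i x)) (K n) := by
      refine (continuousOn_toTau (n + 1)).comp hi.continuous.continuousOn fun z hz => ?_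
      have h5 : i z = ∑ j : Fin 1, (1 : ℝ) • i z := by simp
      rw [h5]
      exact mem_spK_of_le (n := 1) (Nat.le_add_left _ _) (hmono (Nat.le_add_right n 1)) (hx₀ _)
        (c := fun _ => 1) (x := fun _ => z) (fun j => by
          rw [abs_one]
          push_cast
          have : (0 : ℝ) ≤ n := Nat.cast_nonneg _
          linarith) fun _ => hz
    exact h4.continuousAt hn
  obtain ⟨F, hF, -⟩ := hi.lift (Tau C) (fun x => toTau C (i x)) h3
  -- the extension is the identity
  have h4 : ∀ v, F v = toTau C v := by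
    intro v
    have h5 : v ∈ Submodule.span ℝ (range i) := by
      rw [span_eq_top hi]
      trivial
    induction h5 using Submodule.span_induction with
    | mem v hv =>
      obtain ⟨x, rfl⟩ := hv
      exact hF x
    | zero => exact map_zero F
    | add v w _ _ hv hw =>
      rw [map_add, hv, hw]
      rfl
    | smul r v _ hv =>
      rw [map_smul, hv]
      rfl
  refine ⟨hCc, hCm, hCcov, fun U hU => ?_⟩
  have h5 : IsOpen (ofTau C ⁻¹' U) := isOpen_iff.2 hU
  have h6 : U = F ⁻¹' (ofTau C ⁻¹' U) := by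
    ext v
    show v ∈ U ↔ ofTau C (F v) ∈ U
    rw [h4]
    rfl
  rw [h6]
  exact h5.preimage F.continuous

/-- A space with a decomposition to compact sets is a `k_ω`-space. -/
theorem isKOmega_of_decomp {Z : Type} [TopologicalSpace Z] {C : ℕ → Set Z} (hC : Decomp C) :
    IsKOmega Z := by
  refine ⟨C, hC.isCompact, fun F hF => ?_⟩
  rw [← isOpen_compl_iff]
  refine hC.isOpen _ fun n => ?_
  obtain ⟨O, hO, h⟩ := isOpen_induced_iff.1 (hF n).isOpen_compl
  refine ⟨O, hO, ?_⟩
  ext x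
  constructor
  · rintro ⟨h1, h2⟩
    have h3 : (⟨x, h2⟩ : C n) ∈ Subtype.val ⁻¹' O := by
      rw [h]
      exact h1
    exact ⟨h3, h2⟩
  · rintro ⟨h1, h2⟩
    have h3 : (⟨x, h2⟩ : C n) ∈ (Subtype.val ⁻¹' F : Set (C n))ᶜ := by
      rw [← h]
      exact h1
    exact ⟨h3, h2⟩

end

end Pool.Agent.Q153.FreeKOmega
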