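import Pool.Agent.Q153.FreeK

/-!
For a metrizable space `X`, if `sp_N(X)` is a `k`-space for some `N ≥ 2`, then `X` is locally compact.
-/

set_option autoImplicit false

open Set Filter Topology Metric

namespace Pool.Agent.Q153.FreeK

open Pool.Agent.Q153.FreeTVS Pool.Agent.Q153.KOmega Pool.Agent.Q153.FreeKOmega

/-- The main properties of one row of points near a point `x₀` without compact neighbourhoods. -/
structure Row {X : Type} [MetricSpace X] (x₀ : X) (r b : ℝ) (y : ℕ → X) : Prop where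
  /-- the inner radius is positive -/
  pos : 0 < b
  /-- the inner radius is smaller than the outer one -/
  lt : b < r
  /-- the points are in the annulus -/
  mem : ∀ k, b < dist (y k) x₀ ∧ dist (y k) x₀ < r
  /-- functions on the row extend to functions that vanish outside the annulus -/
  ext : ∀ g : ℕ → ℝ, ∃ f : X → ℝ, Continuous f ∧ (∀ k, f (y k) = g k) ∧
    ∀ x, ¬ (b < dist x x₀ ∧ dist x x₀ < r) → f x = 0

/-- Rows exist. -/
theorem exists_row {X : Type} [MetricSpace X] {x₀ : X} (hx₀ : ∀ r > 0, ¬ IsCompact (closedBall x₀ r))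
    {r : ℝ} (hr : 0 < r) : ∃ b y, Row x₀ r b y := by
  have h1 : ¬ IsSeqCompact (closedBall x₀ (r / 2)) := fun h =>
    hx₀ (r / 2) (half_pos hr) h.isCompact
  unfold IsSeqCompact at h1
  push Not at h1
  obtain ⟨u, hu, hsub⟩ := h1
  -- every point has a ball with finitely many terms
  have h2 : ∀ a : X, ∃ ε > 0, {n | dist (u n) a < ε}.Finite := by
    intro a
    by_contra hcon
    push Not at hcon
    have h3 : MapClusterPt a atTop u := by
      rw [(nhds_basis_ball (x := a)).mapClusterPt_iff_frequently]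
      intro ε hε
      rw [Nat.frequently_atTop_iff_infinite]
      exact hcon ε hε
    obtain ⟨φ, hφ, hlim⟩ := h3.tendsto_subseq
    have h4 : a ∈ closedBall x₀ (r / 2) := isClosed_closedBall.mem_of_tendsto hlim
      (Eventually.of_forall fun n => hu _)
    exact hsub a h4 φ hφ hlim
  obtain ⟨ε₀, hε₀, hfin₀⟩ := h2 x₀
  set b : ℝ := min (ε₀ / 2) (r / 4) with hb
  have hbpos : 0 < b := lt_min (by linarith) (by linarith)
  have hbε : b < ε₀ := (min_le_left _ _).trans_lt (by linarith)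
  have hbr : b < r := (min_le_right _ _).trans_lt (by linarith)
  -- the set of values
  set S : Set X := u '' {n | ε₀ ≤ dist (u n) x₀} with hS
  have hSfin : ∀ a : X, ∃ ε > 0, {s ∈ S | dist s a < ε}.Finite := by
    intro a
    obtain ⟨ε, hε, hf⟩ := h2 a
    refine ⟨ε, hε, (hf.image u).subset ?_⟩
    rintro _ ⟨⟨n, -, rfl⟩, hn⟩
    exact ⟨n, hn, rfl⟩
  have hSinf : S.Infinite := by
    intro hSf
    -- otherwise some value is taken infinitely often
    have h3 : ({n | ε₀ ≤ dist (u n) x₀} : Set ℕ).Infinite := by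
      have h4 : ({n | ε₀ ≤ dist (u n) x₀} : Set ℕ) = {n | dist (u n) x₀ < ε₀}ᶜ := by
        ext n
        simp
      rw [h4]
      exact hfin₀.infinite_compl
    have h5 : ({n | ε₀ ≤ dist (u n) x₀} : Set ℕ) ⊆ ⋃ s ∈ S, {n | u n = s} := by
      intro n hn
      exact mem_iUnion₂.2 ⟨u n, ⟨n, hn, rfl⟩, rfl⟩
    refine h3 ((hSf.biUnion fun s _ => ?_).subset h5)
    obtain ⟨ε, hε, hf⟩ := h2 s
    refine hf.subset fun n hn => ?_
    show dist (u n) s < ε
    rw [show u n = s from hn, dist_self]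
    exact hε
  let y : ℕ → X := fun k => (hSinf.natEmbedding S k : X)
  have hyinj : Function.Injective y := fun j k h =>
    (hSinf.natEmbedding S).injective (Subtype.ext h)
  have hyS : ∀ k, y k ∈ S := fun k => (hSinf.natEmbedding S k).2
  have hymem : ∀ k, b < dist (y k) x₀ ∧ dist (y k) x₀ < r := by
    intro k
    obtain ⟨n, hn, hnk⟩ := hyS k
    rw [← hnk]
    exact ⟨hbε.trans_le hn, (mem_closedBall.1 (hu n)).trans_lt (by linarith)⟩
  have hyfin : ∀ a : X, ∃ ε > 0, {k | dist (y k) a < ε}.Finite := by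
    intro a
    obtain ⟨ε, hε, hf⟩ := hSfin a
    exact ⟨ε, hε, Set.Finite.of_finite_image (f := y) (hf.subset (by
      rintro _ ⟨k, hk, rfl⟩
      exact ⟨hyS k, hk⟩)) hyinj.injOn⟩
  -- the radii
  have hrad : ∀ k, ∃ δ > 0, (∀ j, j ≠ k → δ ≤ dist (y j) (y k)) ∧ δ ≤ 1 / ((k : ℝ) + 1) ∧
      δ ≤ dist (y k) x₀ - b ∧ δ ≤ r - dist (y k) x₀ := by
    intro k
    obtain ⟨ε, hε, hf⟩ := hyfin (y k)
    obtain ⟨δ₁, hδ₁, h3⟩ : ∃ δ₁ > 0, ∀ j ∈ {j | dist (y j) (y k) < ε} \ {k},
        δ₁ ≤ dist (y j) (y k) := by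
      have hf' : ({j | dist (y j) (y k) < ε} \ {k}).Finite := hf.subset sdiff_subset
      rcases ({j | dist (y j) (y k) < ε} \ {k}).eq_empty_or_nonempty with h | h
      · exact ⟨1, one_pos, fun j hj => by rw [h] at hj; exact hj.elim⟩
      · obtain ⟨j, hj, hmin⟩ := exists_min_image _ (fun j => dist (y j) (y k)) hf' h
        exact ⟨dist (y j) (y k), dist_pos.2 fun h => hj.2 (hyinj h), hmin⟩
    refine ⟨min (min ε δ₁) (min (1 / ((k : ℝ) + 1)) (min (dist (y k) x₀ - b)
      (r - dist (y k) x₀))), ?_, fun j hj => ?_, ?_, ?_, ?_⟩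
    · have := hymem k
      exact lt_min (lt_min hε hδ₁) (lt_min (by positivity) (lt_min (by linarith) (by linarith)))
    · rcases lt_or_ge (dist (y j) (y k)) ε with h | h
      · exact ((min_le_left _ _).trans (min_le_right _ _)).trans (h3 j ⟨h, hj⟩)
      · exact ((min_le_left _ _).trans (min_le_left _ _)).trans h
    · exact (min_le_right _ _).trans (min_le_left _ _)
    · exact (min_le_right _ _).trans ((min_le_right _ _).trans (min_le_left _ _))
    · exact (min_le_right _ _).trans ((min_le_right _ _).trans (min_le_right _ _))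
  choose δ hδ hδsep hδ1 hδ2 hδ3 using hrad
  refine ⟨b, y, hbpos, hbr, hymem, fun g => ?_⟩
  obtain ⟨f, hf, hfy, hf0⟩ := exists_extension y δ hδ (by
    intro a
    obtain ⟨ε, hε, hfin⟩ := hyfin a
    refine ⟨ball a (ε / 2), ball_mem_nhds _ (half_pos hε), ?_⟩
    obtain ⟨N, hN⟩ := exists_nat_one_div_lt (half_pos hε)
    refine (hfin.union (finite_lt_nat N)).subset ?_
    rintro k ⟨z, hz1, hz2⟩
    rcases lt_or_ge k N with h | h
    · exact Or.inr h
    · left
      show dist (y k) a < ε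
      have h4 : δ k < ε / 2 := by
        refine (hδ1 k).trans_lt (lt_of_le_of_lt ?_ hN)
        gcongr
      have h5 := dist_triangle (y k) z a
      rw [mem_ball] at hz1 hz2
      rw [dist_comm (y k) z] at h5
      linarith) (fun k j hkj hmem => by
    have h3 := hδsep k j (Ne.symm hkj)
    rw [mem_ball] at hmem
    linarith) g
  refine ⟨f, hf, hfy, fun x hx => hf0 x fun k hk => hx ?_⟩
  rw [mem_ball] at hk
  have h3 := dist_triangle (y k) x x₀
  have h4 := dist_triangle x (y k) x₀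
  rw [dist_comm (y k) x] at h3
  constructor
  · linarith [hδ2 k]
  · linarith [hδ3 k]

/-- A sequence of rows with radii that decrease to zero. -/
theorem exists_rows {X : Type} [MetricSpace X] {x₀ : X}
    (hx₀ : ∀ r > 0, ¬ IsCompact (closedBall x₀ r)) :
    ∃ (r b : ℕ → ℝ) (y : ℕ → ℕ → X), (∀ n, Row x₀ (r n) (b n) (y n)) ∧
      (∀ n m, n < m → r m ≤ b n) ∧ Tendsto r atTop (𝓝 0) := by
  have : Nonempty X := ⟨x₀⟩
  choose! b y hrow using fun (r : ℝ) (hr : 0 < r) => exists_row hx₀ hr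
  let r : ℕ → ℝ := fun n => Nat.rec 1 (fun _ s => min (b s) (s / 2)) n
  have hr0 : r 0 = 1 := rfl
  have hrs : ∀ n, r (n + 1) = min (b (r n)) (r n / 2) := fun n => rfl
  have hpos : ∀ n, 0 < r n := by
    intro n
    induction n with
    | zero => rw [hr0]; exact one_pos
    | succ n ih => rw [hrs]; exact lt_min (hrow _ ih).pos (half_pos ih)
  have hpow : ∀ n, r n ≤ (1 / 2) ^ n := by
    intro n
    induction n with
    | zero => rw [hr0, pow_zero]
    | succ n ih =>
      rw [hrs, pow_succ]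
      exact (min_le_right _ _).trans (by linarith)
  have hanti : Antitone r := antitone_nat_of_succ_le fun n => by
    rw [hrs]
    exact (min_le_right _ _).trans (by linarith [hpos n])
  refine ⟨r, fun n => b (r n), fun n => y (r n), fun n => hrow _ (hpos n), fun n m hnm => ?_, ?_⟩
  · refine (hanti (Nat.succ_le_of_lt hnm)).trans ?_
    rw [Nat.succ_eq_add_one, hrs]
    exact min_le_left _ _
  · exact squeeze_zero (fun n => (hpos n).le) hpow
      (tendsto_pow_atTop_nhds_zero_of_lt_one (by norm_num) (by norm_num))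

section

variable {X V : Type} [AddCommGroup V] [Module ℝ V] [TopologicalSpace V]
  [IsTopologicalAddGroup V] [ContinuousSMul ℝ V] {i : X → V}

/-- The elements of the set `B`. -/
noncomputable def eltB (i : X → V) (y : ℕ → ℕ → X) (p : ℕ × ℕ) : V :=
  ((p.2 : ℝ) + 1)⁻¹ • i (y 0 p.1) + i (y (p.1 + 1) p.2)

omit [TopologicalSpace V] [IsTopologicalAddGroup V] [ContinuousSMul ℝ V] in
theorem eltB_mem_sp (i : X → V) (y : ℕ → ℕ → X) (p : ℕ × ℕ) {N : ℕ} (hN : 2 ≤ N) :
    eltB i y p ∈ sp i N := by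
  obtain ⟨N, rfl⟩ := Nat.exists_eq_add_of_le' hN
  have h1 : (0 : ℝ) < (p.2 : ℝ) + 1 := by positivity
  have h2 : ((p.2 : ℝ) + 1)⁻¹ ≤ 1 := inv_le_one_of_one_le₀ (by
    have : (0 : ℝ) ≤ p.2 := Nat.cast_nonneg _
    linarith)
  refine ⟨fun j => if j.1 = 0 then ((p.2 : ℝ) + 1)⁻¹ else if j.1 = 1 then 1 else 0,
    fun j => if j.1 = 0 then y 0 p.1 else y (p.1 + 1) p.2, fun j => ?_, ?_⟩
  · have hN0 : (0 : ℝ) ≤ N := Nat.cast_nonneg _
    show |if j.1 = 0 then ((p.2 : ℝ) + 1)⁻¹ else if j.1 = 1 then 1 else 0| ≤ _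
    split_ifs
    · rw [abs_of_pos (inv_pos.2 h1)]
      push_cast
      linarith
    · rw [abs_one]
      push_cast
      linarith
    · rw [abs_zero]
      positivity
  · rw [Fin.sum_univ_succ, Fin.sum_univ_succ, Finset.sum_eq_zero]
    · simp [eltB]
    · intro j _
      show (if (j.succ.succ : Fin (N + 2)).1 = 0 then ((p.2 : ℝ) + 1)⁻¹ else
        if (j.succ.succ : Fin (N + 2)).1 = 1 then 1 else 0) • _ = (0 : V)
      rw [if_neg (by simp), if_neg (by simp), zero_smul]

/-- If `sp_N` is a `k`-space for some `N ≥ 2`, then the base is locally compact. -/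
theorem weaklyLocallyCompact_of_isKSpace [MetricSpace X] [T2Space V] (hi : IsFreeTVS i) {N : ℕ}
    (hN : 2 ≤ N) (h : IsKSpace (sp i N)) : WeaklyLocallyCompactSpace X := by
  by_contra hX
  obtain ⟨x₀, hx₀⟩ : ∃ x₀ : X, ∀ r > 0, ¬ IsCompact (closedBall x₀ r) := by
    by_contra hcon
    push Not at hcon
    refine hX ⟨fun x => ?_⟩
    obtain ⟨r, hr, hc⟩ := hcon x
    exact ⟨_, hc, closedBall_mem_nhds x hr⟩
  obtain ⟨r, b, y, hrow, hrb, hlim⟩ := exists_rows hx₀
  -- points of other rows and the center are outside the annulus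
  have hout : ∀ n m k, n ≠ m → ¬ (b n < dist (y m k) x₀ ∧ dist (y m k) x₀ < r n) := by
    rintro n m k hnm ⟨h1, h2⟩
    have h3 := (hrow m).mem k
    rcases lt_or_gt_of_ne hnm with h | h
    · have := hrb n m h
      linarith
    · have := hrb m n h
      linarith
  have hout₀ : ∀ n, ¬ (b n < dist x₀ x₀ ∧ dist x₀ x₀ < r n) := by
    rintro n ⟨h1, -⟩
    rw [dist_self] at h1
    exact lt_asymm h1 (hrow n).pos
  have hmem₀ : i x₀ ∈ sp i N := by
    have h1 : i x₀ ∈ spK i univ N := by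
      have h2 : i x₀ = ∑ j : Fin 1, (1 : ℝ) • i x₀ := by simp
      rw [h2]
      refine mem_spK_of_le (K := univ) (n := 1) (by omega) subset_rfl (mem_univ x₀)
        (c := fun _ => 1) (x := fun _ => x₀) (fun j => ?_) fun _ => mem_univ _
      rw [abs_one]
      exact_mod_cast (by omega : 1 ≤ N)
    exact spK_subset_sp h1
  refine not_mem_closure_of_isKSpace h (A := range (eltB i y)) ?_ ?_ hmem₀ ?_ ?_
  · rintro _ ⟨p, rfl⟩
    exact eltB_mem_sp i y p hN
  · intro K _ hK
    by_contra hinf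
    -- the set of pairs of indices is infinite
    set P : Set (ℕ × ℕ) := eltB i y ⁻¹' K with hP
    have hPinf : P.Infinite := by
      intro hPf
      refine hinf ((hPf.image (eltB i y)).subset ?_)
      rintro _ ⟨⟨p, rfl⟩, hp⟩
      exact ⟨p, hp, rfl⟩
    have hbound : ∀ F : V →L[ℝ] ℝ, ∃ M : ℕ, ∀ p ∈ P, F (eltB i y p) ≤ M := by
      intro F
      obtain ⟨M, hM⟩ := (hK.image F.continuous).bddAbove
      obtain ⟨M', hM'⟩ := exists_nat_ge M
      exact ⟨M', fun p hp => (hM ⟨_, hp, rfl⟩).trans hM'⟩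
    by_cases hfst : (Prod.fst '' P).Infinite
    · -- infinitely many rows
      have h1 : ∀ n ∈ Prod.fst '' P, ∃ k, (n, k) ∈ P := by
        rintro _ ⟨⟨n, k⟩, hp, rfl⟩
        exact ⟨k, hp⟩
      choose! k hk using h1
      obtain ⟨f, hf, hfy, hf0⟩ := (hrow 0).ext fun n => (n : ℝ) * ((k n : ℝ) + 1)
      obtain ⟨F, hF, -⟩ := hi.lift ℝ f hf
      obtain ⟨M, hM⟩ := hbound F
      obtain ⟨n, hn, hnM⟩ := hfst.exists_gt M
      have h2 := hM _ (hk n hn)
      unfold eltB at h2
      rw [map_add, map_smul, hF, hF, hfy, hf0 _ (hout 0 (n + 1) (k n) (by omega)), add_zero,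
        smul_eq_mul, mul_comm (n : ℝ), inv_mul_cancel_left₀ (by positivity)] at h2
      have h3 : n ≤ M := by exact_mod_cast h2
      omega
    · -- infinitely many points of one row
      rw [Set.not_infinite] at hfst
      obtain ⟨n, hn⟩ : ∃ n, {k | (n, k) ∈ P}.Infinite := by
        by_contra hcon
        push Not at hcon
        refine hPinf ((hfst.biUnion fun n _ => (hcon n).image fun k => (n, k)).subset ?_)
        rintro ⟨n, k⟩ hp
        exact mem_iUnion₂.2 ⟨n, ⟨_, hp, rfl⟩, k, hp, rfl⟩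
      obtain ⟨f, hf, hfy, hf0⟩ := (hrow (n + 1)).ext fun k => (k : ℝ)
      obtain ⟨F, hF, -⟩ := hi.lift ℝ f hf
      obtain ⟨M, hM⟩ := hbound F
      obtain ⟨k, hk, hkM⟩ := hn.exists_gt M
      have h2 := hM _ hk
      unfold eltB at h2
      rw [map_add, map_smul, hF, hF, hfy, hf0 _ (hout (n + 1) 0 n (by omega)), smul_zero,
        zero_add] at h2
      have h3 : k ≤ M := by exact_mod_cast h2
      omega
  · rintro ⟨⟨n, k⟩, hp⟩
    obtain ⟨f, hf, hfy, hf0⟩ := (hrow (n + 1)).ext fun _ => 1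
    obtain ⟨F, hF, -⟩ := hi.lift ℝ f hf
    have h1 : F (eltB i y (n, k)) = F (i x₀) := by rw [hp]
    unfold eltB at h1
    rw [map_add, map_smul, hF, hF, hF, hfy, hf0 _ (hout (n + 1) 0 n (by omega)), smul_zero,
      zero_add, hf0 _ (hout₀ _)] at h1
    exact one_ne_zero h1
  · -- the center is in the closure
    rw [mem_closure_iff_nhds]
    intro U hU
    have h1 : Tendsto (fun p : V × V => p.1 + p.2) (𝓝 (0, i x₀)) (𝓝 (i x₀)) := by
      have := (continuous_add (M := V)).tendsto (0, i x₀)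
      simpa using this
    have h2 := h1 hU
    rw [nhds_prod_eq, mem_map, mem_prod_iff] at h2
    obtain ⟨U₁, hU₁, U₂, hU₂, hsub⟩ := h2
    -- a row inside the neighbourhood
    obtain ⟨ε, hε, hεU⟩ := Metric.mem_nhds_iff.1 (hi.continuous.continuousAt hU₂)
    obtain ⟨n, hn⟩ := ((tendsto_add_atTop_iff_nat 1).2 hlim |>.eventually_lt_const hε).exists
    have h4 : Tendsto (fun k : ℕ => ((k : ℝ) + 1)⁻¹ • i (y 0 n)) atTop (𝓝 0) := by
      have h5 : Tendsto (fun k : ℕ => ((k : ℝ) + 1)⁻¹) atTop (𝓝 0) := by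
        simpa [one_div] using tendsto_one_div_add_atTop_nhds_zero_nat (𝕜 := ℝ)
      simpa using h5.smul_const (i (y 0 n))
    obtain ⟨k, hk⟩ := (h4.eventually hU₁).exists
    refine ⟨eltB i y (n, k), ?_, ⟨(n, k), rfl⟩⟩
    refine hsub (mk_mem_prod (a := ((k : ℝ) + 1)⁻¹ • i (y 0 n)) (b := i (y (n + 1) k)) hk ?_)
    exact hεU (((hrow (n + 1)).mem k).2.trans hn)

end

end Pool.Agent.Q153.FreeK
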