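import Mathlib

/-!
Free topological vector spaces over metrizable spaces: definitions, and the consequences of the
non-separability of the base space.
-/

set_option autoImplicit false

open Set Filter Topology Metric
open scoped Cardinal

namespace Pool.Agent.Q153.FreeTVS

/-- `V` with `i : X → V` is a free (Hausdorff) topological vector space over `X`: `i` is continuous
and every continuous map from `X` into a Hausdorff topological vector space factors through `i` by
a unique continuous linear operator. -/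
structure IsFreeTVS {X V : Type} [TopologicalSpace X] [AddCommGroup V] [Module ℝ V]
    [TopologicalSpace V] [IsTopologicalAddGroup V] [ContinuousSMul ℝ V] (i : X → V) : Prop where
  /-- the map `i` is continuous -/
  continuous : Continuous i
  /-- continuous maps into topological vector spaces extend uniquely -/
  lift : ∀ (E : Type) [AddCommGroup E] [Module ℝ E] [TopologicalSpace E] [IsTopologicalAddGroup E]
    [ContinuousSMul ℝ E] [T2Space E] (f : X → E), Continuous f →
      ∃! F : V →L[ℝ] E, ∀ x, F (i x) = f x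

/-- The set `sp_n(X)` of the combinations `λ₁x₁ + ... + λₙxₙ` with `|λⱼ| ≤ n`. -/
def sp {X V : Type} [AddCommGroup V] [Module ℝ V] (i : X → V) (n : ℕ) : Set V :=
  {v | ∃ (c : Fin n → ℝ) (x : Fin n → X), (∀ j, |c j| ≤ n) ∧ v = ∑ j, c j • i (x j)}

/-- Countable tightness. -/
def CountablyTight (Z : Type) [TopologicalSpace Z] : Prop :=
  ∀ (A : Set Z) (z : Z), z ∈ closure A → ∃ B ⊆ A, B.Countable ∧ z ∈ closure B

/-! ### Extension of functions from closed discrete sets -/

/-- Bump functions: a function on a family of points with a locally finite expansion to balls that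
contain no other points of the family extends continuously, by zero outside the balls. -/
theorem exists_extension {X ι : Type} [PseudoMetricSpace X] (y : ι → X) (δ : ι → ℝ)
    (hδ : ∀ i, 0 < δ i) (hlf : LocallyFinite fun i => ball (y i) (δ i))
    (hsep : ∀ i j, i ≠ j → y j ∉ ball (y i) (δ i)) (g : ι → ℝ) :
    ∃ f : X → ℝ, Continuous f ∧ (∀ i, f (y i) = g i) ∧
      ∀ x, (∀ i, x ∉ ball (y i) (δ i)) → f x = 0 := by
  let φ : ι → X → ℝ := fun i x => g i * max 0 (1 - dist x (y i) / δ i)
  have hφ0 : ∀ i x, x ∉ ball (y i) (δ i) → φ i x = 0 := by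
    intro i x hx
    have h1 : 1 ≤ dist x (y i) / δ i := by
      rw [le_div_iff₀ (hδ i), one_mul]
      exact not_lt.1 hx
    show g i * max 0 (1 - dist x (y i) / δ i) = 0
    rw [max_eq_left (by linarith), mul_zero]
  refine ⟨fun x => ∑ᶠ i, φ i x, ?_, ?_, ?_⟩
  · refine continuous_finsum (fun i => ?_) ?_
    · exact continuous_const.mul (continuous_const.max
        (continuous_const.sub ((continuous_id.dist continuous_const).div_const _)))
    · refine hlf.subset fun i x hx => ?_
      by_contra h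
      exact hx (hφ0 i x h)
  · intro i
    show ∑ᶠ j, φ j (y i) = g i
    rw [finsum_eq_single _ i]
    · show g i * max 0 (1 - dist (y i) (y i) / δ i) = g i
      rw [dist_self, zero_div, sub_zero, max_eq_right zero_le_one, mul_one]
    · intro j hj
      exact hφ0 j (y i) (hsep j i hj)
  · intro x hx
    show ∑ᶠ j, φ j x = 0
    rw [finsum_eq_zero_of_forall_eq_zero]
    exact fun j => hφ0 j x (hx j)

/-! ### A coloring of the pairs of countable ordinals -/

/-- A well-ordered set of type `ω₁`. -/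
abbrev W : Type := (ℵ₁ : Cardinal.{0}).ord.ToType

theorem mk_W : #W = ℵ₁ := by
  rw [Cardinal.mk_toType, Cardinal.card_ord]

theorem countable_Iio (w : W) : (Iio w).Countable := by
  have h1 : #(Iio w) < #W := Cardinal.mk_Iio_lt w (by rw [mk_W]; simp)
  rw [← Cardinal.le_aleph0_iff_set_countable]
  refine Order.lt_succ_iff.1 ?_
  rw [Cardinal.succ_aleph0]
  exact h1.trans_eq mk_W

instance : Uncountable W := by
  rw [← Cardinal.aleph0_lt_mk_iff, mk_W]
  exact Cardinal.aleph0_lt_aleph_one

/-- There is a function on the pairs of countable ordinals that is unbounded in a strong sense. -/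
theorem exists_coloring : ∃ n : W → W → ℕ, ∀ m : W → ℕ, ∃ v w : W, v ≠ w ∧ m v ≤ n v w ∧
    m w ≤ n v w := by
  have h1 : ∀ w : W, ∃ e : W → ℕ, InjOn e (Iio w) := fun w =>
    countable_iff_exists_injOn.1 (countable_Iio w)
  choose e he using h1
  refine ⟨fun v w => e w v, fun m => ?_⟩
  -- a value taken uncountably often
  obtain ⟨k, hk⟩ : ∃ k, ¬ (m ⁻¹' {k}).Countable := by
    by_contra hcon
    push Not at hcon
    have h2 : (⋃ k, m ⁻¹' {k}).Countable := countable_iUnion hcon
    have h3 : (⋃ k, m ⁻¹' {k}) = univ := by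
      ext w
      simp
    rw [h3, countable_univ_iff] at h2
    exact (not_countable_iff.2 inferInstance) h2
  -- an element with infinitely many predecessors in this set
  obtain ⟨w, hw, hinf⟩ : ∃ w ∈ m ⁻¹' {k}, ((m ⁻¹' {k}) ∩ Iio w).Infinite := by
    by_contra hcon
    push Not at hcon
    apply hk
    have h2 : ∀ w : m ⁻¹' {k}, ((m ⁻¹' {k}) ∩ Iio (w : W)).Finite := fun w =>
      hcon w.1 w.2
    have h3 : Function.Injective fun w : m ⁻¹' {k} => ((m ⁻¹' {k}) ∩ Iio (w : W)).ncard := by
      have hmono : ∀ a b : m ⁻¹' {k}, (a : W) < b →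
          ((m ⁻¹' {k}) ∩ Iio (a : W)).ncard < ((m ⁻¹' {k}) ∩ Iio (b : W)).ncard := by
        intro a b hab
        refine ncard_lt_ncard ⟨fun x hx => ⟨hx.1, lt_trans hx.2 hab⟩, fun hsub => ?_⟩ (h2 b)
        exact lt_irrefl (a : W) (hsub ⟨a.2, hab⟩).2
      intro a b hab
      rcases lt_trichotomy (a : W) b with h | h | h
      · exact absurd hab (hmono a b h).ne
      · exact Subtype.ext h
      · exact absurd hab (hmono b a h).ne'
    exact (h3.countable : Countable (m ⁻¹' {k}))
  have himg : (e w '' ((m ⁻¹' {k}) ∩ Iio w)).Infinite :=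
    hinf.image ((he w).mono inter_subset_right)
  obtain ⟨_, ⟨v, ⟨hv, hvw⟩, rfl⟩, hlt⟩ := himg.exists_gt k
  refine ⟨v, w, hvw.ne, ?_, ?_⟩
  · rw [show m v = k from hv]
    exact hlt.le
  · rw [show m w = k from hw]
    exact hlt.le

/-! ### Separated sets in non-separable metric spaces -/

/-- A non-separable metric space contains a separated set of type `ω₁`. -/
theorem exists_separated {X : Type} [PseudoMetricSpace X]
    (hX : ¬ TopologicalSpace.SeparableSpace X) :
    ∃ ε > 0, ∃ y : W → X, ∀ v w, v ≠ w → ε ≤ dist (y v) (y w) := by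
  have h1 : ∃ ε > (0 : ℝ), ∀ s : Set X, s.Countable → ∃ x, ∀ z ∈ s, ε < dist x z := by
    by_contra hcon
    push Not at hcon
    apply hX
    have := Metric.secondCountable_of_almost_dense_set fun ε hε => by
      obtain ⟨s, hs, h⟩ := hcon ε hε
      exact ⟨s, hs, h⟩
    exact inferInstance
  obtain ⟨ε, hε, h⟩ := h1
  obtain ⟨M, hM⟩ : ∃ M, Maximal (fun M : Set X => M.Pairwise fun a b => ε ≤ dist a b) M := by
    refine zorn_subset _ ?_
    intro c hc hchain
    exact ⟨⋃₀ c, (pairwise_sUnion hchain.directedOn).2 fun s hs => hc hs,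
      fun s hs => subset_sUnion_of_mem hs⟩
  have hMunc : ¬ M.Countable := by
    intro hMc
    obtain ⟨x, hx⟩ := h M hMc
    have hxM : x ∉ M := fun hxM => by
      have := hx x hxM
      rw [dist_self] at this
      exact lt_asymm this hε
    have h2 := hM.le_of_ge (y := insert x M)
      (hM.prop.insert fun z hz _ => ⟨(hx z hz).le, by rw [dist_comm]; exact (hx z hz).le⟩)
      (subset_insert _ _)
    exact hxM (h2 (mem_insert _ _))
  have hcard : #W ≤ #M := by
    rw [mk_W]
    by_contra hcon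
    rw [not_le, ← Cardinal.succ_aleph0, Order.lt_succ_iff] at hcon
    exact hMunc (Cardinal.le_aleph0_iff_set_countable.1 hcon)
  obtain ⟨e⟩ := Cardinal.le_def _ _ |>.1 hcard
  exact ⟨ε, hε, fun w => e w, fun v w hvw =>
    hM.prop (e v).2 (e w).2 fun heq => hvw (e.injective (Subtype.ext heq))⟩

/-- Every function on the separated set extends. -/
theorem exists_extension_of_separated {X : Type} [PseudoMetricSpace X] {ε : ℝ} (hε : 0 < ε)
    {y : W → X} (hy : ∀ v w, v ≠ w → ε ≤ dist (y v) (y w)) (g : W → ℝ) :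
    ∃ f : X → ℝ, Continuous f ∧ ∀ w, f (y w) = g w := by
  obtain ⟨f, hf, h1, -⟩ := exists_extension y (fun _ => ε / 3) (fun _ => by positivity) (by
    intro x
    refine ⟨ball x (ε / 6), ball_mem_nhds _ (by positivity), ?_⟩
    refine Set.Subsingleton.finite ?_
    rintro v ⟨a, ha1, ha2⟩ w ⟨b, hb1, hb2⟩
    by_contra hvw
    have h2 := hy v w hvw
    rw [mem_ball] at ha1 ha2 hb1 hb2
    have h3 := dist_triangle (y v) a (y w)
    have h4 := dist_triangle a x (y w)
    have h5 := dist_triangle x b (y w)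
    rw [dist_comm (y v) a] at h3
    rw [dist_comm x b] at h5
    linarith) (fun v w hvw hmem => by
    have h2 := hy v w hvw
    rw [mem_ball, dist_comm] at hmem
    linarith) g
  exact ⟨f, hf, h1⟩

/-! ### The set `A` -/

section

variable {X V : Type} [AddCommGroup V] [Module ℝ V] [TopologicalSpace V]
  [IsTopologicalAddGroup V] [ContinuousSMul ℝ V] {i : X → V}

/-- The sums of two points, divided by the color of the pair. -/
noncomputable def elt (i : X → V) (y : W → X) (n : W → W → ℕ) (p : W × W) : V :=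
  ((n p.1 p.2 : ℝ) + 1)⁻¹ • (i (y p.1) + i (y p.2))

omit [TopologicalSpace V] [IsTopologicalAddGroup V] [ContinuousSMul ℝ V] in
theorem elt_mem_sp (i : X → V) (y : W → X) (n : W → W → ℕ) (p : W × W) {N : ℕ} (hN : 2 ≤ N) :
    elt i y n p ∈ sp i N := by
  obtain ⟨N, rfl⟩ := Nat.exists_eq_add_of_le' hN
  have h1 : (0 : ℝ) < (n p.1 p.2 : ℝ) + 1 := by positivity
  have h2 : ((n p.1 p.2 : ℝ) + 1)⁻¹ ≤ 1 := inv_le_one_of_one_le₀ (by
    have : (0 : ℝ) ≤ n p.1 p.2 := Nat.cast_nonneg _
    linarith)
  refine ⟨fun j => if j.1 < 2 then ((n p.1 p.2 : ℝ) + 1)⁻¹ else 0,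
    fun j => if j.1 = 0 then y p.1 else y p.2, fun j => ?_, ?_⟩
  · show |if j.1 < 2 then ((n p.1 p.2 : ℝ) + 1)⁻¹ else 0| ≤ _
    split_ifs
    · rw [abs_of_pos (inv_pos.2 h1)]
      push_cast
      have : (0 : ℝ) ≤ N := Nat.cast_nonneg _
      linarith
    · rw [abs_zero]
      positivity
  · rw [Fin.sum_univ_succ, Fin.sum_univ_succ, Finset.sum_eq_zero]
    · simp [elt, smul_add]
    · intro j _
      show (if (j.succ.succ : Fin (N + 2)).1 < 2 then ((n p.1 p.2 : ℝ) + 1)⁻¹ else 0) • _ = (0 : V)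
      rw [if_neg (by simp), zero_smul]

/-- `0` lies in the closure of the set `A`, in every topological vector space. -/
theorem zero_mem_closure {y : W → X} {n : W → W → ℕ}
    (hn : ∀ m : W → ℕ, ∃ v w : W, v ≠ w ∧ m v ≤ n v w ∧ m w ≤ n v w) :
    (0 : V) ∈ closure (elt i y n '' {p | p.1 ≠ p.2}) := by
  rw [mem_closure_iff_nhds]
  intro U hU
  obtain ⟨U', hU', hadd⟩ : ∃ U' ∈ 𝓝 (0 : V), ∀ a ∈ U', ∀ b ∈ U', a + b ∈ U := by
    have h1 : Tendsto (fun p : V × V => p.1 + p.2) (𝓝 (0, 0)) (𝓝 0) := by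
      have := (continuous_add (M := V)).tendsto (0, 0)
      simpa using this
    have h2 := h1 hU
    rw [nhds_prod_eq, mem_map, mem_prod_iff] at h2
    obtain ⟨a, ha, b, hb, hab⟩ := h2
    exact ⟨a ∩ b, inter_mem ha hb, fun x hx z hz => hab (mk_mem_prod hx.1 hz.2)⟩
  have h3 : ∀ w : W, ∃ m : ℕ, ∀ k ≥ m, ((k : ℝ) + 1)⁻¹ • i (y w) ∈ U' := by
    intro w
    have h4 : Tendsto (fun k : ℕ => ((k : ℝ) + 1)⁻¹ • i (y w)) atTop (𝓝 0) := by
      have h5 : Tendsto (fun k : ℕ => ((k : ℝ) + 1)⁻¹) atTop (𝓝 0) := by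
        simpa [one_div] using tendsto_one_div_add_atTop_nhds_zero_nat (𝕜 := ℝ)
      simpa using h5.smul_const (i (y w))
    exact eventually_atTop.1 (h4 hU')
  choose m hm using h3
  obtain ⟨v, w, hvw, h4, h5⟩ := hn m
  refine ⟨elt i y n (v, w), ?_, ⟨(v, w), hvw, rfl⟩⟩
  unfold elt
  rw [smul_add]
  exact hadd _ (hm v _ h4) _ (hm w _ h5)

omit [TopologicalSpace V] [IsTopologicalAddGroup V] [ContinuousSMul ℝ V] in
/-- For every countable set of elements of the set `A` there is a function on the indices such that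
the corresponding functional is at least `1` on these elements. -/
theorem exists_weight (y : W → X) (n : W → W → ℕ) {B : Set V} (hB : B.Countable)
    (hBA : B ⊆ elt i y n '' {p | p.1 ≠ p.2}) :
    ∃ g : W → ℝ, ∀ F : V →ₗ[ℝ] ℝ, (∀ w, F (i (y w)) = g w) → ∀ b ∈ B, 1 ≤ F b := by
  have h1 : ∀ b : B, ∃ p : W × W, p.1 ≠ p.2 ∧ elt i y n p = b := fun b => hBA b.2
  choose p hp1 hp2 using h1
  have : Countable B := hB
  set D : Set W := (range fun b => (p b).1) ∪ range fun b => (p b).2 with hD
  have hDc : D.Countable := (countable_range _).union (countable_range _)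
  obtain ⟨e, he⟩ := countable_iff_exists_injOn.1 hDc
  have hWne : Nonempty W := inferInstance
  set u : ℕ → W := Function.invFunOn e D with hu
  have hue : ∀ v ∈ D, u (e v) = v := fun v hv => he.leftInvOn_invFunOn hv
  set g : W → ℝ := fun w => ∑ j ∈ Finset.range (e w + 1),
    ((n (u j) w : ℝ) + n w (u j) + 1) with hg
  have hg0 : ∀ w, 0 ≤ g w := fun w => Finset.sum_nonneg fun j _ => by positivity
  have hgle : ∀ v ∈ D, ∀ w, e v ≤ e w → (n v w : ℝ) + n w v + 1 ≤ g w := by
    intro v hv w hvw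
    have h2 : e v ∈ Finset.range (e w + 1) := Finset.mem_range.2 (by omega)
    have h3 := Finset.single_le_sum (f := fun j => ((n (u j) w : ℝ) + n w (u j) + 1))
      (fun j _ => by positivity) h2
    simp only [hue v hv] at h3
    exact h3
  refine ⟨g, fun F hF b hb => ?_⟩
  have hb' : b = elt i y n (p ⟨b, hb⟩) := (hp2 ⟨b, hb⟩).symm
  rw [hb']
  unfold elt
  rw [map_smul, map_add, hF, hF, smul_eq_mul]
  have h4 : (0 : ℝ) < (n (p ⟨b, hb⟩).1 (p ⟨b, hb⟩).2 : ℝ) + 1 := by positivity
  rw [le_inv_mul_iff₀ h4, mul_one]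
  have hv : (p ⟨b, hb⟩).1 ∈ D := Or.inl ⟨_, rfl⟩
  have hw : (p ⟨b, hb⟩).2 ∈ D := Or.inr ⟨_, rfl⟩
  have h5 : (0 : ℝ) ≤ n (p ⟨b, hb⟩).2 (p ⟨b, hb⟩).1 := Nat.cast_nonneg _
  rcases le_total (e (p ⟨b, hb⟩).1) (e (p ⟨b, hb⟩).2) with h | h
  · have h6 := hgle _ hv _ h
    have h7 := hg0 (p ⟨b, hb⟩).1
    linarith
  · have h6 := hgle _ hw _ h
    have h7 := hg0 (p ⟨b, hb⟩).2
    linarith

end

/-! ### Countable tightness -/

section

variable {X V : Type} [TopologicalSpace X] [AddCommGroup V] [Module ℝ V] [TopologicalSpace V]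
  [IsTopologicalAddGroup V] [ContinuousSMul ℝ V] {i : X → V}

/-- If the base is metrizable and not separable, then `sp_n` is not countably tight for `n ≥ 2`. -/
theorem separable_of_countablyTight [TopologicalSpace.MetrizableSpace X] (hi : IsFreeTVS i) {N : ℕ}
    (hN : 2 ≤ N) (h : CountablyTight (sp i N)) : TopologicalSpace.SeparableSpace X := by
  let _ := TopologicalSpace.metrizableSpaceMetric X
  by_contra hX
  obtain ⟨ε, hε, y, hy⟩ := exists_separated hX
  obtain ⟨n, hn⟩ := exists_coloring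
  have h0 : (0 : V) ∈ sp i N := by
    refine ⟨fun _ => 0, fun _ => y (Classical.arbitrary W), fun _ => ?_, ?_⟩
    · rw [abs_zero]
      positivity
    · simp
  obtain ⟨B, hBA, hB, hcl⟩ := h {z | z.1 ∈ elt i y n '' {p | p.1 ≠ p.2}} ⟨0, h0⟩ (by
    rw [closure_subtype]
    have h1 : Subtype.val '' {z : sp i N | z.1 ∈ elt i y n '' {p | p.1 ≠ p.2}} =
        elt i y n '' {p | p.1 ≠ p.2} := by
      ext v
      constructor
      · rintro ⟨z, hz, rfl⟩
        exact hz
      · rintro ⟨p, hp, rfl⟩
        exact ⟨⟨_, elt_mem_sp i y n p hN⟩, ⟨p, hp, rfl⟩, rfl⟩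
    rw [h1]
    exact zero_mem_closure hn)
  obtain ⟨g, hg⟩ := exists_weight (i := i) y n (B := Subtype.val '' B) (hB.image _) (by
    rintro _ ⟨z, hz, rfl⟩
    exact hBA hz)
  obtain ⟨f, hf, hfg⟩ := exists_extension_of_separated hε hy g
  obtain ⟨F, hF, -⟩ := hi.lift ℝ f hf
  have h2 := hg F.toLinearMap fun w => (hF (y w)).trans (hfg w)
  have h3 : closure B ⊆ {z | 1 ≤ F z.1} :=
    closure_minimal (fun z hz => h2 z.1 ⟨z, hz, rfl⟩)
      (isClosed_le continuous_const (F.continuous.comp continuous_subtype_val))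
  have h4 : (1 : ℝ) ≤ F 0 := h3 hcl
  rw [map_zero] at h4
  exact absurd h4 (by norm_num)

/-- The map whose values are the combinations of `n` points. -/
def comb (i : X → V) (n : ℕ) (q : (Fin n → ℝ) × (Fin n → X)) : V := ∑ j, q.1 j • i (q.2 j)

theorem continuous_comb (hi : Continuous i) (n : ℕ) : Continuous (comb i n) := by
  unfold comb
  refine continuous_finsetSum _ fun j _ => ?_
  exact ((continuous_apply j).comp continuous_fst).smul
    (hi.comp ((continuous_apply j).comp continuous_snd))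

omit [TopologicalSpace V] [IsTopologicalAddGroup V] [ContinuousSMul ℝ V] [TopologicalSpace X] in
theorem sp_subset_range (n : ℕ) : sp i n ⊆ range (comb i n) := by
  rintro v ⟨c, x, -, rfl⟩
  exact ⟨(c, x), rfl⟩

/-- Subsets of `sp_n` contain countable dense subsets if the base is second countable. -/
theorem exists_countable_dense_of_subset [SecondCountableTopology X] (hi : Continuous i) {n : ℕ}
    {A : Set V} (hA : A ⊆ sp i n) : ∃ B ⊆ A, B.Countable ∧ A ⊆ closure B := by
  set S : Set ((Fin n → ℝ) × (Fin n → X)) := comb i n ⁻¹' A with hS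
  obtain ⟨t, htc, htd⟩ := TopologicalSpace.exists_countable_dense S
  refine ⟨(fun q : S => comb i n q.1) '' t, ?_, htc.image _, ?_⟩
  · rintro _ ⟨q, -, rfl⟩
    exact q.2
  · intro a ha
    obtain ⟨q, hq⟩ := sp_subset_range n (hA ha)
    have hqS : q ∈ S := by
      show comb i n q ∈ A
      rw [hq]
      exact ha
    have h1 : Continuous fun q : S => comb i n q.1 :=
      (continuous_comb hi n).comp continuous_subtype_val
    have h2 := image_closure_subset_closure_image h1 ⟨⟨q, hqS⟩, htd ⟨q, hqS⟩, rfl⟩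
    replace h2 : comb i n q ∈ closure ((fun q : S => comb i n q.1) '' t) := h2
    rwa [hq] at h2

/-- The sets `sp_n` are countably tight if the base is second countable. -/
theorem countablyTight_sp [SecondCountableTopology X] (hi : Continuous i) (n : ℕ) :
    CountablyTight (sp i n) := by
  intro A z hz
  obtain ⟨B, hBA, hB, hAB⟩ := exists_countable_dense_of_subset hi (n := n)
    (A := Subtype.val '' A) (by rintro _ ⟨z, -, rfl⟩; exact z.2)
  refine ⟨A ∩ Subtype.val ⁻¹' B, inter_subset_left, ?_, ?_⟩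
  · exact (hB.preimage Subtype.val_injective).mono inter_subset_right
  · rw [closure_subtype] at hz ⊢
    have h1 : Subtype.val '' (A ∩ Subtype.val ⁻¹' B) = B := by
      ext v
      constructor
      · rintro ⟨w, ⟨-, hw⟩, rfl⟩
        exact hw
      · intro hv
        obtain ⟨w, hw, rfl⟩ := hBA hv
        exact ⟨w, ⟨hw, hv⟩, rfl⟩
    rw [h1]
    exact closure_minimal hAB isClosed_closure hz

end

/-! ### The free topological vector space is the union of the sets `sp_n` -/

section

variable {X V : Type} [AddCommGroup V] [Module ℝ V] {i : X → V}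

theorem zero_mem_sp_zero : (0 : V) ∈ sp i 0 :=
  ⟨Fin.elim0, Fin.elim0, fun j => j.elim0, by simp⟩

theorem mem_sp_one (x : X) : i x ∈ sp i 1 :=
  ⟨fun _ => 1, fun _ => x, fun _ => by simp, by simp⟩

theorem add_mem_sp {n m : ℕ} {v w : V} (hv : v ∈ sp i n) (hw : w ∈ sp i m) :
    v + w ∈ sp i (n + m) := by
  obtain ⟨c, x, hc, rfl⟩ := hv
  obtain ⟨d, z, hd, rfl⟩ := hw
  refine ⟨Fin.append c d, Fin.append x z, fun j => ?_, ?_⟩
  · refine Fin.addCases (fun j => ?_) (fun j => ?_) j
    · rw [Fin.append_left]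
      push_cast
      have : (0 : ℝ) ≤ m := Nat.cast_nonneg _
      linarith [hc j]
    · rw [Fin.append_right]
      push_cast
      have : (0 : ℝ) ≤ n := Nat.cast_nonneg _
      linarith [hd j]
  · rw [Fin.sum_univ_add]
    simp

theorem smul_mem_sp {n : ℕ} {v : V} (r : ℝ) (hv : v ∈ sp i n) : ∃ m, r • v ∈ sp i m := by
  obtain ⟨c, x, hc, rfl⟩ := hv
  rcases Nat.eq_zero_or_pos n with rfl | hn
  · exact ⟨0, by simpa using zero_mem_sp_zero⟩
  obtain ⟨k, hk⟩ := exists_nat_ge (|r| * n)
  refine ⟨n + k, Fin.append (fun j => r * c j) fun _ => 0, Fin.append x fun _ => x ⟨0, hn⟩,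
    fun j => ?_, ?_⟩
  · refine Fin.addCases (fun j => ?_) (fun j => ?_) j
    · rw [Fin.append_left, abs_mul]
      push_cast
      have h1 : (0 : ℝ) ≤ n := Nat.cast_nonneg _
      have h2 : |r| * |c j| ≤ |r| * n := mul_le_mul_of_nonneg_left (hc j) (abs_nonneg r)
      linarith
    · rw [Fin.append_right, abs_zero]
      positivity
  · rw [Fin.sum_univ_add, Finset.smul_sum]
    simp [mul_smul]

theorem exists_mem_sp_of_mem_span {v : V} (hv : v ∈ Submodule.span ℝ (range i)) :
    ∃ n, v ∈ sp i n := by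
  induction hv using Submodule.span_induction with
  | mem v hv =>
    obtain ⟨x, rfl⟩ := hv
    exact ⟨1, mem_sp_one x⟩
  | zero => exact ⟨0, zero_mem_sp_zero⟩
  | add v w _ _ hv hw =>
    obtain ⟨n, hn⟩ := hv
    obtain ⟨m, hm⟩ := hw
    exact ⟨n + m, add_mem_sp hn hm⟩
  | smul r v _ hv =>
    obtain ⟨n, hn⟩ := hv
    exact smul_mem_sp r hn

end

section

variable {X V : Type} [TopologicalSpace X] [AddCommGroup V] [Module ℝ V] [TopologicalSpace V]
  [IsTopologicalAddGroup V] [ContinuousSMul ℝ V] {i : X → V}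

theorem span_eq_top [T2Space V] (hi : IsFreeTVS i) : Submodule.span ℝ (range i) = ⊤ := by
  set S := Submodule.span ℝ (range i) with hS
  have h1 : ∀ x, i x ∈ S := fun x => Submodule.subset_span ⟨x, rfl⟩
  obtain ⟨F, hF, -⟩ := hi.lift S (fun x => ⟨i x, h1 x⟩) (hi.continuous.subtype_mk h1)
  obtain ⟨G, -, hG⟩ := hi.lift V i hi.continuous
  have h2 := hG (ContinuousLinearMap.id ℝ V) fun x => rfl
  have h3 := hG (S.subtypeL.comp F) fun x => by
    show ((F (i x) : S) : V) = i x
    rw [hF]
  rw [eq_top_iff]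
  intro v _
  have h4 : (S.subtypeL.comp F) v = v := by
    rw [h3, ← h2]
    rfl
  rw [← h4]
  exact (F v).2

theorem iUnion_sp [T2Space V] (hi : IsFreeTVS i) (v : V) : ∃ n, v ∈ sp i n :=
  exists_mem_sp_of_mem_span (by rw [span_eq_top hi]; trivial)

/-- The free topological vector space over a second countable space is countably tight. -/
theorem countablyTight [SecondCountableTopology X] [T2Space V] (hi : IsFreeTVS i) :
    CountablyTight V := by
  intro A z hz
  have h1 : ∀ n, ∃ B ⊆ A ∩ sp i n, B.Countable ∧ A ∩ sp i n ⊆ closure B := fun n =>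
    exists_countable_dense_of_subset hi.continuous inter_subset_right
  choose B hB1 hB2 hB3 using h1
  refine ⟨⋃ n, B n, iUnion_subset fun n => (hB1 n).trans inter_subset_left,
    countable_iUnion hB2, ?_⟩
  refine closure_minimal (fun a ha => ?_) isClosed_closure hz
  obtain ⟨n, hn⟩ := iUnion_sp hi a
  exact closure_mono (subset_iUnion B n) (hB3 n ⟨ha, hn⟩)

end

end Pool.Agent.Q153.FreeTVS
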