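import Pool.Agent.Q153.KGameDefs
import Pool.Agent.Q153.FreeTVS

/-!
A Lindelöf `P`-space on which the games `G₁(𝒦,𝒦)` and `G_fin(𝒦,𝒦)` are undetermined.
-/

set_option autoImplicit false

open Set

namespace Pool.Agent.Q153.KGame

open Pool.Agent.Q153.FreeTVS (W countable_Iio)

/-! ### Countable ordinals -/

theorem countable_Iic (w : W) : (Iic w).Countable := by
  rw [← Iio_insert]
  exact (countable_Iio w).insert w

theorem bdd {ι : Type} [Countable ι] (f : ι → W) : ∃ a, ∀ i, f i < a := by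
  by_contra h
  push Not at h
  have h1 : (univ : Set W) ⊆ ⋃ i, Iic (f i) := fun a _ => mem_iUnion.2 (h a)
  exact not_countable_univ ((countable_iUnion fun i => countable_Iic (f i)).mono h1)

/-- `δ` is the limit of a strictly increasing sequence. -/
def IsL (δ : W) : Prop := ∃ c : ℕ → W, StrictMono c ∧ (∀ n, c n < δ) ∧ ∀ γ < δ, ∃ n, γ < c n

/-- Points: finite sequences, and the limits of the chosen sequences. -/
inductive Pt : Type
  | fin (s : List W) : Pt
  | lim (δ : W) (h : IsL δ) : Pt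

open Pt

theorem fin_inj : Function.Injective fin := fun _ _ h => Pt.fin.inj h

/-- the chosen sequence with limit `δ` -/
noncomputable def lad (δ : W) (h : IsL δ) : ℕ → W := h.choose

theorem lad_lt {δ : W} (h : IsL δ) (n : ℕ) : lad δ h n < δ := h.choose_spec.2.1 n

theorem lad_mono {δ : W} (h : IsL δ) : StrictMono (lad δ h) := h.choose_spec.1

theorem lad_cof {δ : W} (h : IsL δ) {γ : W} (hγ : γ < δ) : ∃ n, γ < lad δ h n :=
  h.choose_spec.2.2 γ hγ

/-- the sequence of a point -/
noncomputable def seq : Pt → ℕ → Option W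
  | fin s, i => s[i]?
  | lim δ h, i => some (lad δ h i)

/-- the basic neighbourhoods of the finite sequence `s` -/
def N (α : W) (s : List W) : Set Pt :=
  {x | (∀ i < s.length, seq x i = s[i]?) ∧ ∀ β, seq x s.length = some β → α ≤ β}

theorem N_anti {α β : W} (h : α ≤ β) (s : List W) : N β s ⊆ N α s :=
  fun _ hx => ⟨hx.1, fun γ hγ => h.trans (hx.2 γ hγ)⟩

theorem mem_N_self (α : W) (s : List W) : fin s ∈ N α s :=
  ⟨fun _ _ => rfl, fun β hβ => by simp [seq] at hβ⟩

instance : TopologicalSpace Pt where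
  IsOpen U := ∀ s, fin s ∈ U → ∃ α, N α s ⊆ U
  isOpen_univ := fun _ _ => ⟨Classical.arbitrary W, subset_univ _⟩
  isOpen_inter U V hU hV s hs := by
    obtain ⟨α, hα⟩ := hU s hs.1
    obtain ⟨β, hβ⟩ := hV s hs.2
    exact ⟨max α β, subset_inter ((N_anti (le_max_left _ _) s).trans hα)
      ((N_anti (le_max_right _ _) s).trans hβ)⟩
  isOpen_sUnion 𝒰 h𝒰 s hs := by
    obtain ⟨U, hU, hsU⟩ := hs
    obtain ⟨α, hα⟩ := h𝒰 U hU s hsU
    exact ⟨α, hα.trans (subset_sUnion_of_mem hU)⟩

theorem isOpen_iff {U : Set Pt} : IsOpen U ↔ ∀ s, fin s ∈ U → ∃ α, N α s ⊆ U := Iff.rfl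

theorem isOpen_iInter' {ι : Type} [Countable ι] (U : ι → Set Pt) (h : ∀ i, IsOpen (U i)) :
    IsOpen (⋂ i, U i) := by
  intro s hs
  have h1 : ∀ i, ∃ α, N α s ⊆ U i := fun i => h i s (mem_iInter.1 hs i)
  choose f hf using h1
  obtain ⟨a, ha⟩ := bdd f
  exact ⟨a, subset_iInter fun i => (N_anti (ha i).le s).trans (hf i)⟩

/-- the set of the extensions of `t` lies in `N α s` if `t` does and `t ≠ s` -/
theorem N_sub {α γ : W} {s t : List W} (h : fin t ∈ N α s) (hne : t ≠ s) : N γ t ⊆ N α s := by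
  have h1 : s.length < t.length := by
    by_contra hle
    push Not at hle
    apply hne
    apply List.ext_getElem?
    intro i
    rcases lt_or_ge i s.length with hi | hi
    · exact h.1 i hi
    · rw [List.getElem?_eq_none hi, List.getElem?_eq_none (hle.trans hi)]
  intro x hx
  refine ⟨fun i hi => ?_, fun β hβ => ?_⟩
  · rw [hx.1 i (hi.trans h1)]
    exact h.1 i hi
  · rw [hx.1 _ h1] at hβ
    exact h.2 β hβ

theorem N_open (α : W) (s : List W) : IsOpen (N α s) := by
  intro t ht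
  by_cases h : t = s
  · exact ⟨α, by rw [h]⟩
  · exact ⟨α, N_sub ht h⟩

/-- if `N γ t` meets `N α s` and the entries of `s` are smaller than `γ` then `t ∈ N α s` -/
theorem mem_of_meet {α γ : W} {s t : List W} (hγ : ∀ b ∈ s, b < γ) {x : Pt} (hx : x ∈ N γ t)
    (hx' : x ∈ N α s) : fin t ∈ N α s := by
  have h1 : s.length ≤ t.length := by
    by_contra hlt
    push Not at hlt
    have h2 := hx'.1 _ hlt
    rw [List.getElem?_eq_getElem hlt] at h2
    exact absurd (hγ _ (List.getElem_mem hlt)) (not_lt.2 (hx.2 _ h2))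
  refine ⟨fun i hi => ?_, fun β hβ => ?_⟩
  · show t[i]? = s[i]?
    rw [← hx.1 i (hi.trans_le h1), hx'.1 i hi]
  · have hβ' : t[s.length]? = some β := hβ
    have h2 : s.length < t.length := by
      by_contra hle
      rw [List.getElem?_eq_none (not_lt.1 hle)] at hβ'
      exact absurd hβ' (by simp)
    exact hx'.2 β (by rw [hx.1 _ h2, hβ'])

theorem list_bdd (s : List W) : ∃ γ, ∀ b ∈ s, b < γ := by
  obtain ⟨a, ha⟩ := bdd (ι := {b // b ∈ s}) (fun b => b.1)
  exact ⟨a, fun b hb => ha ⟨b, hb⟩⟩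

theorem N_closed (α : W) (s : List W) : IsClosed (N α s) := by
  rw [← isOpen_compl_iff]
  intro t ht
  obtain ⟨γ, hγ⟩ := list_bdd s
  exact ⟨γ, fun x hx hx' => ht (mem_of_meet hγ hx hx')⟩

theorem N_clopen (α : W) (s : List W) : IsClopen (N α s) := ⟨N_closed α s, N_open α s⟩

/-- separation of points from finite sequences -/
theorem sep (s : List W) (y : Pt) (h : y ≠ fin s) : ∃ α, y ∉ N α s := by
  rcases y with t | ⟨δ, hδ⟩
  · obtain ⟨γ, hγ⟩ := list_bdd t
    refine ⟨γ, fun hy => h ?_⟩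
    congr 1
    apply List.ext_getElem?
    intro i
    rcases lt_or_ge i s.length with hi | hi
    · exact hy.1 i hi
    · rw [List.getElem?_eq_none hi]
      apply List.getElem?_eq_none
      by_contra hlt
      have h1 : s.length < t.length := hi.trans_lt (not_le.1 hlt)
      have h2 : seq (fin t) s.length = some t[s.length] := List.getElem?_eq_getElem h1
      exact absurd (hγ _ (List.getElem_mem h1)) (not_lt.2 (hy.2 _ h2))
  · obtain ⟨a, ha⟩ := bdd (ι := Unit) fun _ => lad δ hδ s.length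
    exact ⟨a, fun hy => absurd (ha ()) (not_lt.2 (hy.2 _ rfl))⟩

theorem isOpen_compl_singleton' (x : Pt) : IsOpen ({x}ᶜ : Set Pt) := by
  intro s hs
  obtain ⟨α, hα⟩ := sep s x fun h => hs h.symm
  exact ⟨α, fun y hy hyx => hα (by rw [← show y = x from hyx]; exact hy)⟩

theorem isOpen_lim (δ : W) (h : IsL δ) : IsOpen ({lim δ h} : Set Pt) := by
  intro s hs
  exact absurd hs (by simp)

theorem isClopen_lim (δ : W) (h : IsL δ) : IsClopen ({lim δ h} : Set Pt) :=
  ⟨isOpen_compl_iff.1 (isOpen_compl_singleton' _), isOpen_lim δ h⟩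

/-- a clopen base -/
theorem exists_clopen (U : Set Pt) (hU : IsOpen U) (x : Pt) (hx : x ∈ U) :
    ∃ V : Set Pt, IsClopen V ∧ x ∈ V ∧ V ⊆ U := by
  rcases x with s | ⟨δ, h⟩
  · obtain ⟨α, hα⟩ := hU s hx
    exact ⟨_, N_clopen α s, mem_N_self α s, hα⟩
  · exact ⟨_, isClopen_lim δ h, rfl, singleton_subset_iff.2 hx⟩

theorem t2 : T2Space Pt := by
  refine ⟨fun x y hxy => ?_⟩
  obtain ⟨V, hV, hx, hy⟩ := exists_clopen _ (isOpen_compl_singleton' y) x hxy
  exact ⟨V, Vᶜ, hV.isOpen, hV.compl.isOpen, hx, fun h => hy h rfl, disjoint_compl_right⟩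

theorem isClosed_countable {A : Set Pt} (hA : A.Countable) : IsClosed A := by
  have := hA.to_subtype
  rw [← isOpen_compl_iff]
  have h1 : Aᶜ = ⋂ a : A, ({a.1}ᶜ : Set Pt) := by
    ext x
    simp only [mem_compl_iff, mem_iInter, mem_singleton_iff, Subtype.forall]
    exact ⟨fun h a ha hxa => h (hxa ▸ ha), fun h hx => h x hx rfl⟩
  rw [h1]
  exact isOpen_iInter' (fun a : A => ({a.1}ᶜ : Set Pt)) fun a => isOpen_compl_singleton' _

theorem finite_of_compact {K : Set Pt} (hK : IsCompact K) : K.Finite := by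
  by_contra hinf
  have hinf : K.Infinite := hinf
  let f : ℕ ↪ K := hinf.natEmbedding
  let U : ℕ → Set Pt := fun n => ((fun m => (f m).1) '' Ici n)ᶜ
  have hUo : ∀ n, IsOpen (U n) := fun n =>
    (isClosed_countable ((to_countable _).image _)).isOpen_compl
  have hUm : Monotone U := fun m n hmn =>
    compl_subset_compl.2 (image_mono (Ici_subset_Ici.2 hmn))
  have hUc : K ⊆ ⋃ n, U n := by
    intro x hx
    by_cases h : ∃ m, (f m).1 = x
    · obtain ⟨m, rfl⟩ := h
      refine mem_iUnion.2 ⟨m + 1, ?_⟩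
      rintro ⟨k, hk, hk'⟩
      have : k = m := f.injective (Subtype.ext hk')
      rw [this] at hk
      exact absurd hk (by simp)
    · refine mem_iUnion.2 ⟨0, ?_⟩
      rintro ⟨k, hk, hk'⟩
      exact h ⟨k, hk'⟩
  obtain ⟨n, hn⟩ := hK.elim_directed_cover U hUo hUc hUm.directed_le
  exact hn (f n).2 ⟨n, mem_Ici.2 le_rfl, rfl⟩

/-! ### Closing off -/

/-- the points below `δ` -/
def Below (δ : W) : Pt → Prop
  | fin s => ∀ b ∈ s, b < δ
  | lim γ _ => γ < δ

theorem Below.mono {δ ε : W} (h : δ ≤ ε) {x : Pt} (hx : Below δ x) : Below ε x := by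
  rcases x with s | ⟨γ, hγ⟩
  · exact fun b hb => (hx b hb).trans_le h
  · exact lt_of_lt_of_le hx h

theorem countable_below (δ : W) : {x | Below δ x}.Countable := by
  have hc : Countable (Iio δ) := (countable_Iio δ).to_subtype
  have h1 : {x | Below δ x} ⊆
      range (fun s : List (Iio δ) => fin (s.map Subtype.val)) ∪
        range (fun γ : {γ : Iio δ // IsL γ.1} => lim γ.1.1 γ.2) := by
    rintro (s | ⟨γ, hγ⟩) hx
    · left
      refine ⟨s.attach.map fun b => ⟨b.1, hx b.1 b.2⟩, ?_⟩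
      simp [List.map_map, Function.comp_def]
    · right
      exact ⟨⟨⟨γ, hx⟩, hγ⟩, rfl⟩
  exact ((countable_range _).union (countable_range _)).mono h1

theorem closing (c : Finset Pt → W) (β : W) :
    ∃ δ, β < δ ∧ IsL δ ∧ ∀ F : Finset Pt, (∀ x ∈ F, Below δ x) → c F < δ := by
  have h1 : ∀ δ : W, ∃ ε, δ < ε ∧ ∀ F : Finset Pt, (∀ x ∈ F, Below δ x) → c F < ε := by
    intro δ
    have hc : Countable {x // Below δ x} := (countable_below δ).to_subtype
    obtain ⟨ε, hε⟩ := bdd (ι := Option (Finset {x // Below δ x})) fun o =>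
      o.elim δ fun F => c (F.map ⟨Subtype.val, Subtype.val_injective⟩)
    refine ⟨ε, hε none, fun F hF => ?_⟩
    let em : {x // x ∈ F} ↪ {x // Below δ x} := ⟨fun x => ⟨x.1, hF x.1 x.2⟩,
      fun x y hxy => Subtype.ext (congrArg (fun z : {x // Below δ x} => z.1) hxy)⟩
    have h2 := hε (some (F.attach.map em))
    simp only [Option.elim] at h2
    convert h2 using 2
    ext x
    simp only [Finset.mem_map, Finset.mem_attach, true_and, Function.Embedding.coeFn_mk,
      Subtype.exists, exists_and_right, exists_eq_right, em]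
    constructor
    · intro hx
      exact ⟨hF x hx, x, hx, rfl⟩
    · rintro ⟨_, y, hy, hyx⟩
      have : y = x := congrArg (fun z : {x // Below δ x} => z.1) hyx
      exact this ▸ hy
  choose g hg1 hg2 using h1
  obtain ⟨β', hβ'⟩ := bdd (ι := Unit) fun _ => β
  let d : ℕ → W := fun n => g^[n] β'
  have hd : ∀ n, d (n + 1) = g (d n) := fun n => Function.iterate_succ_apply' g n β'
  have hdm : StrictMono d := strictMono_nat_of_lt_succ fun n => by rw [hd]; exact hg1 _
  have hub : {a | ∀ n, d n ≤ a}.Nonempty := by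
    obtain ⟨a, ha⟩ := bdd d
    exact ⟨a, fun n => (ha n).le⟩
  let δ := wellFounded_lt.min _ hub
  have hδ1 : ∀ n, d n ≤ δ := wellFounded_lt.min_mem _ hub
  have hδ2 : ∀ n, d n < δ := fun n => (hdm n.lt_succ_self).trans_le (hδ1 _)
  have hδ3 : ∀ γ < δ, ∃ n, γ < d n := by
    intro γ hγ
    by_contra h
    push Not at h
    exact wellFounded_lt.not_lt_min {a | ∀ n, d n ≤ a} (show γ ∈ {a | ∀ n, d n ≤ a} from h) hγ
  refine ⟨δ, (hβ' ()).trans (hδ2 0), ⟨d, hdm, hδ2, hδ3⟩, fun F hF => ?_⟩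
  have h2 : ∀ x : Pt, Below δ x → ∃ n, Below (d n) x := by
    rintro (s | ⟨γ, hγ⟩) hx
    · have h3 : ∀ b : {b // b ∈ s}, ∃ n, b.1 < d n := fun b => hδ3 _ (hx _ b.2)
      choose n hn using h3
      obtain ⟨m, hm⟩ := (finite_range n).bddAbove
      exact ⟨m, fun b hb => (hn ⟨b, hb⟩).trans_le (hdm.monotone (hm ⟨_, rfl⟩))⟩
    · exact hδ3 γ hx
  have h3 : ∀ x : {x // x ∈ F}, ∃ n, Below (d n) x.1 := fun x => h2 _ (hF _ x.2)
  choose n hn using h3
  obtain ⟨m, hm⟩ := (finite_range n).bddAbove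
  have h4 := hg2 (d m) F fun x hx => (hn ⟨x, hx⟩).mono (hdm.monotone (hm ⟨_, rfl⟩))
  rw [← hd] at h4
  exact h4.trans (hδ2 _)

/-! ### The approximation of points from below -/

/-- the root of `x` below `δ`: the longest initial segment with entries smaller than `δ` -/
theorem exists_root (δ : W) (x : Pt) :
    (Below δ x) ∨ (∃ h, x = lim δ h) ∨ ∃ s, (∀ b ∈ s, b < δ) ∧ x ∈ N δ s := by
  classical
  by_cases h : ∃ n, ∀ β, seq x n = some β → δ ≤ β
  · right; right
    let n := Nat.find h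
    have hn : ∀ β, seq x n = some β → δ ≤ β := Nat.find_spec h
    have hm : ∀ i < n, ∃ β, seq x i = some β ∧ β < δ := by
      intro i hi
      have := Nat.find_min h hi
      push Not at this
      exact this
    choose! g hg1 hg2 using hm
    refine ⟨(List.range n).map g, ?_, ?_⟩
    · intro b hb
      obtain ⟨i, hi, rfl⟩ := List.mem_map.1 hb
      exact hg2 i (List.mem_range.1 hi)
    · refine ⟨fun i hi => ?_, fun β hβ => ?_⟩
      · simp only [List.length_map, List.length_range] at hi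
        rw [hg1 i hi]
        simp [hi]
      · simp only [List.length_map, List.length_range] at hβ
        exact hn β hβ
  · push Not at h
    rcases x with s | ⟨γ, hγ⟩
    · obtain ⟨β, hβ, -⟩ := h s.length
      simp [seq] at hβ
    · rcases lt_trichotomy γ δ with h1 | h1 | h1
      · exact Or.inl h1
      · subst h1
        exact Or.inr (Or.inl ⟨hγ, rfl⟩)
      · obtain ⟨n, hn⟩ := lad_cof hγ h1
        obtain ⟨β, hβ, hβ'⟩ := h n
        have : lad γ hγ n = β := Option.some.inj hβ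
        rw [this] at hn
        exact absurd hn (not_lt.2 hβ'.le)

/-- **Every `k`-cover contains a countable `k`-cover.** -/
theorem k_lindelof (𝒰 : Set (Set Pt)) (h𝒰 : KCover 𝒰) :
    ∃ 𝒱 ⊆ 𝒰, 𝒱.Countable ∧ KCover 𝒱 := by
  classical
  have h1 : ∀ F : Finset Pt, ∃ U ∈ 𝒰, (F : Set Pt) ⊆ U := fun F =>
    h𝒰.2.2 F F.finite_toSet.isCompact
  choose u hu1 hu2 using h1
  have h2 : ∀ F : Finset Pt, ∃ b : W, ∀ s, fin s ∈ F → N b s ⊆ u F := by
    intro F
    have h3 : ∀ s : {s : List W // fin s ∈ F}, ∃ b, N b s.1 ⊆ u F := fun s =>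
      h𝒰.1 _ (hu1 F) s.1 (hu2 F s.2)
    choose b hb using h3
    have hc : Countable {s : List W // fin s ∈ F} := by
      have : Function.Injective fun s : {s : List W // fin s ∈ F} =>
          (⟨fin s.1, s.2⟩ : {x // x ∈ F}) := fun s t hst => by
        have := congrArg Subtype.val hst
        exact Subtype.ext (Pt.fin.inj this)
      exact this.countable
    obtain ⟨a, ha⟩ := bdd b
    exact ⟨a, fun s hs => (N_anti (ha ⟨s, hs⟩).le s).trans (hb ⟨s, hs⟩)⟩
  choose b hb using h2
  -- infinitely many closed ordinals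
  have h3 : ∀ β : W, ∃ δ, β < δ ∧ IsL δ ∧ ∀ F : Finset Pt, (∀ x ∈ F, Below δ x) → b F < δ :=
    closing b
  choose g hg1 hg2 hg3 using h3
  let d : ℕ → W := fun n => g (g^[n] (Classical.arbitrary W))
  have hd : ∀ n, d (n + 1) = g (d n) := fun n => by
    show g (g^[n + 1] _) = g (g (g^[n] _))
    rw [Function.iterate_succ_apply']
  have hdm : StrictMono d := strictMono_nat_of_lt_succ fun n => by rw [hd]; exact hg1 _
  have hdL : ∀ n, IsL (d n) := fun n => hg2 _
  have hdc : ∀ n, ∀ F : Finset Pt, (∀ x ∈ F, Below (d n) x) → b F < d n := fun n => hg3 _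
  refine ⟨⋃ n, u '' {F : Finset Pt | ∀ x ∈ F, Below (d n) x}, ?_, ?_, ?_⟩
  · refine iUnion_subset fun n => ?_
    rintro _ ⟨F, -, rfl⟩
    exact hu1 F
  · refine countable_iUnion fun n => Countable.image ?_ _
    have hc := countable_below (d n)
    have h4 : ({t : Set Pt | t.Finite ∧ t ⊆ {x | Below (d n) x}}).Countable :=
      countable_ofPred_finite_subset hc
    refine (h4.preimage (f := fun F : Finset Pt => (F : Set Pt)) ?_).mono ?_
    · exact Finset.coe_injective
    · intro F hF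
      exact ⟨F.finite_toSet, fun x hx => hF x hx⟩
  · have key : ∀ E : Finset Pt, ∃ U ∈ ⋃ n, u '' {F : Finset Pt | ∀ x ∈ F, Below (d n) x},
        (E : Set Pt) ⊆ U := by
      intro E
      -- avoid the limits
      have h5 : ∃ n, ∀ h, lim (d n) h ∉ E := by
        by_contra hcon
        push Not at hcon
        have h6 : Function.Injective fun n => (⟨lim (d n) (hcon n).choose, (hcon n).choose_spec⟩ :
            {x // x ∈ E}) := by
          intro m n hmn
          have := congrArg Subtype.val hmn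
          simp only [Pt.lim.injEq] at this
          exact hdm.injective this
        exact not_injective_infinite_finite _ h6
      obtain ⟨n, hn⟩ := h5
      have h7 : ∀ x : Pt, ∃ y : Pt, x ∈ E → Below (d n) y ∧ (x = y ∨ ∃ s, y = fin s ∧ x ∈ N (d n) s) := by
        intro x
        by_cases hx : x ∈ E
        · rcases exists_root (d n) x with h | ⟨h, rfl⟩ | ⟨s, hs, hxs⟩
          · exact ⟨x, fun _ => ⟨h, Or.inl rfl⟩⟩
          · exact absurd hx (hn h)
          · exact ⟨fin s, fun _ => ⟨hs, Or.inr ⟨s, rfl, hxs⟩⟩⟩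
        · exact ⟨x, fun h => absurd h hx⟩
      choose y hy using h7
      have h8 : ∀ x ∈ E.image y, Below (d n) x := by
        intro z hz
        obtain ⟨x, hx, rfl⟩ := Finset.mem_image.1 hz
        exact (hy x hx).1
      refine ⟨u (E.image y), mem_iUnion.2 ⟨n, _, h8, rfl⟩, fun x hx => ?_⟩
      have hyE : y x ∈ E.image y := Finset.mem_image_of_mem y hx
      rcases (hy x hx).2 with h | ⟨s, hs, hxs⟩
      · rw [h]
        exact hu2 _ hyE
      · rw [hs] at hyE
        exact hb _ s hyE (N_anti (hdc n _ h8).le s hxs)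
    refine ⟨?_, ?_, ?_⟩
    · intro U hU
      obtain ⟨n, F, -, rfl⟩ := mem_iUnion.1 hU
      exact h𝒰.1 _ (hu1 F)
    · refine eq_univ_of_forall fun x => ?_
      obtain ⟨U, hU, hx⟩ := key {x}
      exact ⟨U, hU, hx (by simp)⟩
    · intro K hK
      obtain ⟨U, hU, hx⟩ := key (finite_of_compact hK).toFinset
      exact ⟨U, hU, by simpa using hx⟩

theorem lindelof : LindelofSpace Pt := by
  classical
  refine ⟨isLindelof_of_countable_subcover fun {ι} U hU hc => ?_⟩
  have h1 : KCover (range fun t : Finset ι => ⋃ i ∈ t, U i) := by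
    refine ⟨?_, ?_, ?_⟩
    · rintro _ ⟨t, rfl⟩
      exact isOpen_biUnion fun i _ => hU i
    · refine eq_univ_of_forall fun x => ?_
      obtain ⟨i, hi⟩ := mem_iUnion.1 (hc (mem_univ x))
      exact ⟨_, ⟨{i}, rfl⟩, by simpa using hi⟩
    · intro K hK
      have h2 : ∀ x : Pt, ∃ i, x ∈ U i := fun x => mem_iUnion.1 (hc (mem_univ x))
      choose i hi using h2
      refine ⟨_, ⟨(finite_of_compact hK).toFinset.image i, rfl⟩, fun x hx => ?_⟩
      exact mem_biUnion (x := i x) (Finset.mem_image_of_mem i (by simpa using hx)) (hi x)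
  obtain ⟨𝒱, h𝒱, hcount, hk⟩ := k_lindelof _ h1
  have h3 : ∀ V : Set Pt, ∃ t : Finset ι, V ∈ 𝒱 → V = ⋃ i ∈ t, U i := by
    intro V
    by_cases hV : V ∈ 𝒱
    · obtain ⟨t, ht⟩ := h𝒱 hV
      exact ⟨t, fun _ => ht.symm⟩
    · exact ⟨∅, fun h => absurd h hV⟩
  choose t ht using h3
  refine ⟨⋃ V ∈ 𝒱, (t V : Set ι), hcount.biUnion fun V _ => (t V).countable_toSet, fun x _ => ?_⟩
  have h4 : x ∈ ⋃₀ 𝒱 := hk.2.1 ▸ mem_univ x
  obtain ⟨V, hV, hx⟩ := h4
  rw [ht V hV] at hx
  obtain ⟨i, hi, hxi⟩ := mem_iUnion₂.1 hx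
  exact mem_biUnion (x := i) (mem_biUnion (x := V) hV hi) hxi

theorem not_P1 : ¬ P1WinsOne Pt :=
  not_P1WinsOne (fun _ _ U h => isOpen_iInter' U h) k_lindelof

/-! ### The second player -/

/-- the basic neighbourhoods of a point -/
def Nb (α : W) : Pt → Set Pt
  | fin s => N α s
  | lim δ h => {lim δ h}

theorem Nb_open (α : W) (x : Pt) : IsOpen (Nb α x) := by
  rcases x with s | ⟨δ, h⟩
  · exact N_open α s
  · exact isOpen_lim δ h

theorem mem_Nb (α : W) (x : Pt) : x ∈ Nb α x := by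
  rcases x with s | ⟨δ, h⟩
  · exact mem_N_self α s
  · exact rfl

/-- the covers played by the first player -/
def cov (α : W) : Set (Set Pt) := range fun F : Finset Pt => ⋃ x ∈ F, Nb α x

theorem cov_k (α : W) : KCover (cov α) := by
  have h1 : ∀ F : Finset Pt, (F : Set Pt) ⊆ ⋃ x ∈ F, Nb α x := fun F x hx =>
    mem_biUnion (x := x) hx (mem_Nb α x)
  refine ⟨?_, ?_, ?_⟩
  · rintro _ ⟨F, rfl⟩
    exact isOpen_biUnion fun x _ => Nb_open α x
  · exact eq_univ_of_forall fun x => ⟨_, ⟨{x}, rfl⟩, h1 {x} (by simp)⟩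
  · intro K hK
    exact ⟨_, ⟨(finite_of_compact hK).toFinset, rfl⟩, fun x hx => h1 _ (by simpa using hx)⟩

/-- Fodor's argument for the finite sets of points `Φ α`. -/
theorem exists_roots (Φ : W → Finset Pt) : ∃ R : Finset (List W), ∀ β, ∃ α, β ≤ α ∧
    ∀ s, fin s ∈ Φ α → ∃ r ∈ R, fin s ∈ N α r := by
  classical
  by_contra hcon
  push Not at hcon
  choose b hb using hcon
  obtain ⟨δ, -, -, hδ⟩ := closing (fun F => b (F.preimage fin fin_inj.injOn))
    (Classical.arbitrary W)
  have h1 : ∀ s, fin s ∈ Φ δ → ∃ r : List W, (∀ b ∈ r, b < δ) ∧ fin s ∈ N δ r := by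
    intro s _
    rcases exists_root δ (fin s) with h | ⟨h, h'⟩ | h
    · exact ⟨s, h, mem_N_self δ s⟩
    · exact absurd h' (by simp)
    · exact h
  choose! r hr1 hr2 using h1
  let A : Finset (List W) := (Φ δ).preimage fin fin_inj.injOn
  let R : Finset (List W) := A.image r
  have h2 : b R < δ := by
    have h3 := hδ (R.image fin) (by
      intro x hx
      obtain ⟨t, ht, rfl⟩ := Finset.mem_image.1 hx
      obtain ⟨s, hs, rfl⟩ := Finset.mem_image.1 ht
      exact hr1 s (Finset.mem_preimage.1 hs))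
    have h4 : (R.image fin).preimage fin fin_inj.injOn = R := by
      ext s
      rw [Finset.mem_preimage, Finset.mem_image]
      exact ⟨fun ⟨t, ht, hts⟩ => Pt.fin.inj hts ▸ ht, fun h => ⟨s, h, rfl⟩⟩
    simp only [h4] at h3
    exact h3
  obtain ⟨s, hs, hs'⟩ := hb R δ h2.le
  exact hs' (r s) (Finset.mem_image_of_mem r (Finset.mem_preimage.2 hs)) (hr2 s hs)

theorem not_P2 : ¬ P2WinsFin Pt := by
  classical
  rintro ⟨τ, hτ⟩
  -- the moves of P2 against the covers `cov α`
  have h1 : ∀ (p : List W) (α : W), ∃ F : Finset Pt,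
      ⋃₀ τ ((p ++ [α]).map cov) ⊆ ⋃ x ∈ F, Nb α x := by
    intro p α
    let f : ℕ → W := fun n => (p ++ [α]).getD n α
    have h2 : hist (fun n => cov (f n)) (p.length + 1) = (p ++ [α]).map cov := by
      apply List.ext_getElem
      · simp [hist]
      · intro i h3 h4
        have h5 : i < (p ++ [α]).length := by simpa using h4
        have h6 : f i = (p ++ [α])[i] := List.getD_eq_getElem _ _ h5
        rw [List.getElem_map]
        simp only [hist, List.getElem_map, List.getElem_range]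
        rw [h6]
    have h3 := (hτ (fun n => cov (f n)) fun n => cov_k _).1 p.length
    rw [h2] at h3
    have h4 : f p.length = α := by simp [f]
    simp only [h4] at h3
    obtain ⟨hfin, hsub⟩ := h3
    have h5 : ∀ U : Set Pt, ∃ G : Finset Pt, U ∈ τ ((p ++ [α]).map cov) →
        U = ⋃ x ∈ G, Nb α x := by
      intro U
      by_cases hU : U ∈ τ ((p ++ [α]).map cov)
      · obtain ⟨G, hG⟩ := hsub hU
        exact ⟨G, fun _ => hG.symm⟩
      · exact ⟨∅, fun h => absurd h hU⟩
    choose G hG using h5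
    refine ⟨hfin.toFinset.biUnion G, ?_⟩
    rintro x ⟨U, hU, hx⟩
    rw [hG U hU] at hx
    obtain ⟨y, hy, hxy⟩ := mem_iUnion₂.1 hx
    exact mem_biUnion (x := y) (Finset.mem_biUnion.2 ⟨U, hfin.mem_toFinset.2 hU, hy⟩) hxy
  choose Φ hΦ using h1
  have h2 : ∀ p : List W, ∃ R : Finset (List W), ∀ β, ∃ α, β ≤ α ∧
    ∀ s, fin s ∈ Φ p α → ∃ r ∈ R, fin s ∈ N α r := fun p => exists_roots (Φ p)
  choose R α hα1 hα2 using h2
  -- a bound of the limits
  have h3 : ∀ (p : List W) (β : W), ∃ c : W, α p β < c ∧ ∀ γ h, lim γ h ∈ Φ p (α p β) → γ < c := by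
    intro p β
    obtain ⟨c, hc⟩ := bdd (ι := Option {x // x ∈ Φ p (α p β)}) fun o => o.elim (α p β) fun x =>
      match x.1 with
      | fin _ => α p β
      | lim γ _ => γ
    exact ⟨c, hc none, fun γ h hγ => hc (some ⟨lim γ h, hγ⟩)⟩
  choose c hc1 hc2 using h3
  -- closing off
  have h4 : ∀ F : Finset Pt, ∃ a : W, ∀ (p : List W) (β : W), fin p ∈ F → fin [β] ∈ F →
      c p β < a := by
    intro F
    let A : Finset (List W) := F.preimage fin fin_inj.injOn
    let B : Finset W := F.preimage (fun β => fin [β]) (fun s _ t _ h => by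
      simpa using Pt.fin.inj h)
    obtain ⟨a, ha⟩ := bdd (ι := {z : List W × W // z ∈ A ×ˢ B}) fun z => c z.1.1 z.1.2
    exact ⟨a, fun p β hp hβ => ha ⟨(p, β),
      Finset.mem_product.2 ⟨Finset.mem_preimage.2 hp, Finset.mem_preimage.2 hβ⟩⟩⟩
  choose k hk using h4
  obtain ⟨δ, -, hL, hδ⟩ := closing k (Classical.arbitrary W)
  have hcδ : ∀ (p : List W) (β : W), (∀ b ∈ p, b < δ) → β < δ → c p β < δ := by
    intro p β hp hβ
    refine (hk {fin p, fin [β]} p β (by simp) (by simp)).trans (hδ _ ?_)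
    intro x hx
    simp only [Finset.mem_insert, Finset.mem_singleton] at hx
    rcases hx with rfl | rfl
    · exact hp
    · intro b hb
      simp only [List.mem_singleton] at hb
      rw [hb]
      exact hβ
  -- the play
  let m : List W → ℕ := fun p => (R p).sup List.length + 1
  let nx : List W → W := fun p => α p (lad δ hL (m p))
  let P : ℕ → List W := fun n => Nat.rec [] (fun _ p => p ++ [nx p]) n
  have hP : ∀ n, P (n + 1) = P n ++ [nx (P n)] := fun n => rfl
  have hnx : ∀ p : List W, (∀ b ∈ p, b < δ) → nx p < δ := fun p hp =>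
    (hc1 p _).trans (hcδ p _ hp (lad_lt hL _))
  have hPδ : ∀ n, ∀ b ∈ P n, b < δ := by
    intro n
    induction n with
    | zero =>
      intro b hb
      exact absurd hb (by simp [P])
    | succ n ih =>
      intro b hb
      rw [hP, List.mem_append, List.mem_singleton] at hb
      rcases hb with hb | rfl
      · exact ih b hb
      · exact hnx _ ih
  let 𝒰 : ℕ → Set (Set Pt) := fun n => cov (nx (P n))
  have hh : ∀ n, hist 𝒰 n = (P n).map cov := by
    intro n
    induction n with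
    | zero => rfl
    | succ n ih => rw [hist_succ, ih, hP, List.map_append]; rfl
  have hwin := (hτ 𝒰 fun n => cov_k _).2
  have hcov : lim δ hL ∈ ⋃₀ ⋃ n, τ (hist 𝒰 (n + 1)) := hwin.2.1 ▸ mem_univ _
  obtain ⟨U, hU, hxU⟩ := hcov
  obtain ⟨n, hn⟩ := mem_iUnion.1 hU
  rw [hh, hP] at hn
  have hx := hΦ (P n) (nx (P n)) ⟨U, hn, hxU⟩
  obtain ⟨y, hy, hxy⟩ := mem_iUnion₂.1 hx
  rcases y with s | ⟨γ, hγ⟩
  · obtain ⟨r, hr, hsr⟩ := hα2 (P n) (lad δ hL (m (P n))) s hy
    have hxr : lim δ hL ∈ N (nx (P n)) r := by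
      by_cases hs : s = r
      · rw [← hs]; exact hxy
      · exact N_sub hsr hs hxy
    have h5 : nx (P n) ≤ lad δ hL r.length := hxr.2 _ rfl
    have h6 : lad δ hL r.length < lad δ hL (m (P n)) := by
      refine lad_mono hL ?_
      have : r.length ≤ (R (P n)).sup List.length := Finset.le_sup (f := List.length) hr
      show r.length < (R (P n)).sup List.length + 1
      omega
    exact absurd (h6.trans_le (hα1 (P n) _)) (not_lt.2 h5)
  · have h5 : lim δ hL = lim γ hγ := hxy
    have h6 : γ = δ := (Pt.lim.inj h5).symm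
    have h7 := hc2 (P n) (lad δ hL (m (P n))) γ hγ hy
    have h8 := hcδ (P n) (lad δ hL (m (P n))) (hPδ n) (lad_lt hL _)
    rw [h6] at h7
    exact absurd h7 (not_lt.2 h8.le)

end Pool.Agent.Q153.KGame
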