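import Mathlib

/-!
The games `G₁(𝒦,𝒦)` and `G_fin(𝒦,𝒦)` on the `k`-covers of a space: definitions.
-/

set_option autoImplicit false

open Set

namespace Pool.Agent.Q153.KGame

variable {X : Type} [TopologicalSpace X]

/-- `𝒰` is a `k`-cover of `X`: a family of open sets with the union `X` such that every compact
subset of `X` is contained in a member of `𝒰` (the set `X` itself may be a member of `𝒰`). -/
def KCover (𝒰 : Set (Set X)) : Prop :=
  (∀ U ∈ 𝒰, IsOpen U) ∧ ⋃₀ 𝒰 = univ ∧ ∀ K : Set X, IsCompact K → ∃ U ∈ 𝒰, K ⊆ U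

/-- The list `[f 0, ..., f (n - 1)]` of the first `n` moves. -/
def hist {A : Type} (f : ℕ → A) (n : ℕ) : List A := (List.range n).map f

variable (X)

/-- P1 has a winning strategy in `G₁(𝒦,𝒦)`: a function `σ` which maps every finite sequence of sets
(the earlier moves of P2) to a `k`-cover, such that P1 wins (the answers of P2 do not form a
`k`-cover) every play in which P1 follows `σ`. -/
def P1WinsOne : Prop :=
  ∃ σ : List (Set X) → Set (Set X), (∀ h, KCover (σ h)) ∧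
    ∀ U : ℕ → Set X, (∀ n, U n ∈ σ (hist U n)) → ¬ KCover (range U)

/-- P2 has a winning strategy in `G₁(𝒦,𝒦)`: a function `τ` which maps the finite sequences
`(𝒰 0, ..., 𝒰 n)` of moves of P1 to members of `𝒰 n`, such that P2 wins every play in which P2
follows `τ`. -/
def P2WinsOne : Prop :=
  ∃ τ : List (Set (Set X)) → Set X, ∀ 𝒰 : ℕ → Set (Set X), (∀ n, KCover (𝒰 n)) →
    (∀ n, τ (hist 𝒰 (n + 1)) ∈ 𝒰 n) ∧ KCover (range fun n => τ (hist 𝒰 (n + 1)))

/-- P1 has a winning strategy in `G_fin(𝒦,𝒦)`: P2 answers a `k`-cover with a finite subfamily, and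
wins if the union of these finite families is a `k`-cover. -/
def P1WinsFin : Prop :=
  ∃ σ : List (Set (Set X)) → Set (Set X), (∀ h, KCover (σ h)) ∧
    ∀ F : ℕ → Set (Set X), (∀ n, (F n).Finite ∧ F n ⊆ σ (hist F n)) → ¬ KCover (⋃ n, F n)

/-- P2 has a winning strategy in `G_fin(𝒦,𝒦)`. -/
def P2WinsFin : Prop :=
  ∃ τ : List (Set (Set X)) → Set (Set X), ∀ 𝒰 : ℕ → Set (Set X), (∀ n, KCover (𝒰 n)) →
    (∀ n, (τ (hist 𝒰 (n + 1))).Finite ∧ τ (hist 𝒰 (n + 1)) ⊆ 𝒰 n) ∧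
      KCover (⋃ n, τ (hist 𝒰 (n + 1)))

variable {X}

theorem P1WinsFin.one (h : P1WinsFin X) : P1WinsOne X := by
  obtain ⟨σ, hσ, hw⟩ := h
  refine ⟨fun l => σ (l.map fun U => {U}), fun l => hσ _, fun U hU hk => ?_⟩
  refine hw (fun n => {U n}) (fun n => ⟨finite_singleton _, ?_⟩) ?_
  · have h1 : hist (fun n => ({U n} : Set (Set X))) n = (hist U n).map fun U => {U} := by
      simp [hist, List.map_map, Function.comp_def]
    rw [h1, singleton_subset_iff]
    exact hU n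
  · convert hk using 1
    ext V
    simp [eq_comm]

theorem P2WinsOne.fin (h : P2WinsOne X) : P2WinsFin X := by
  obtain ⟨τ, hτ⟩ := h
  refine ⟨fun l => {τ l}, fun 𝒰 h𝒰 => ⟨fun n => ⟨finite_singleton _, ?_⟩, ?_⟩⟩
  · rw [singleton_subset_iff]
    exact (hτ 𝒰 h𝒰).1 n
  · convert (hτ 𝒰 h𝒰).2 using 1
    ext V
    simp [eq_comm]

/-! ### The first player does not win in `k`-Lindelöf `P`-spaces -/

theorem hist_succ {A : Type} (f : ℕ → A) (n : ℕ) : hist f (n + 1) = hist f n ++ [f n] := by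
  simp [hist, List.range_succ]

/-- If countable intersections of open sets are open and every `k`-cover contains a countable
`k`-cover then P1 has no winning strategy in `G₁(𝒦,𝒦)`. -/
theorem not_P1WinsOne (hP : ∀ (ι : Type) [Countable ι] (U : ι → Set X), (∀ i, IsOpen (U i)) →
      IsOpen (⋂ i, U i))
    (hL : ∀ 𝒰 : Set (Set X), KCover 𝒰 → ∃ 𝒱 ⊆ 𝒰, 𝒱.Countable ∧ KCover 𝒱) :
    ¬ P1WinsOne X := by
  rintro ⟨σ, hσ, hw⟩
  -- countable subcovers
  have h1 : ∀ h : List (Set X), ∃ e : ℕ → Set X, range e ⊆ σ h ∧ KCover (range e) := by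
    intro h
    obtain ⟨𝒱, h𝒱, hc, hk⟩ := hL _ (hσ h)
    have hne : 𝒱.Nonempty := by
      obtain ⟨U, hU, -⟩ := hk.2.2 ∅ isCompact_empty
      exact ⟨U, hU⟩
    obtain ⟨e, he⟩ := hc.exists_eq_range hne
    exact ⟨e, he ▸ h𝒱, he ▸ hk⟩
  choose e he1 he2 using h1
  -- positions
  let pos : List ℕ → List (Set X) := fun l => l.reverse.rec [] fun n _ h => h ++ [e h n]
  have hpos0 : pos [] = [] := rfl
  have hpos : ∀ l n, pos (l ++ [n]) = pos l ++ [e (pos l) n] := by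
    intro l n
    simp [pos, List.reverse_append]
  -- compact sets
  let C : Type := {K : Set X // IsCompact K}
  have h2 : ∀ (K : C) (l : List ℕ), ∃ n, K.1 ⊆ e (pos l) n := by
    intro K l
    obtain ⟨U, ⟨n, rfl⟩, hU⟩ := (he2 (pos l)).2.2 K.1 K.2
    exact ⟨n, hU⟩
  choose a ha using h2
  let Wd : C → Set X := fun K => ⋂ l : List ℕ, e (pos l) (a K l)
  have hWo : ∀ K, IsOpen (Wd K) := fun K => hP _ _ fun l => (he2 (pos l)).1 _ ⟨_, rfl⟩
  have hWs : ∀ K : C, K.1 ⊆ Wd K := fun K => subset_iInter fun l => ha K l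
  have hWk : KCover (range Wd) := by
    refine ⟨?_, ?_, fun K hK => ⟨_, ⟨⟨K, hK⟩, rfl⟩, hWs ⟨K, hK⟩⟩⟩
    · rintro _ ⟨K, rfl⟩
      exact hWo K
    · refine eq_univ_of_forall fun x => ⟨_, ⟨⟨{x}, isCompact_singleton⟩, rfl⟩, ?_⟩
      exact hWs ⟨{x}, isCompact_singleton⟩ rfl
  obtain ⟨𝒱, h𝒱, hc, hk⟩ := hL _ hWk
  have hne : 𝒱.Nonempty := by
    obtain ⟨U, hU, -⟩ := hk.2.2 ∅ isCompact_empty
    exact ⟨U, hU⟩
  obtain ⟨V, hV⟩ := hc.exists_eq_range hne
  have h3 : ∀ n, ∃ K : C, Wd K = V n := by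
    intro n
    have : V n ∈ range Wd := h𝒱 (hV ▸ mem_range_self n)
    exact this
  choose F hF using h3
  -- the play
  let l : ℕ → List ℕ := fun k => Nat.rec [] (fun k l => l ++ [a (F k) l]) k
  have hl : ∀ k, l (k + 1) = l k ++ [a (F k) (l k)] := fun k => rfl
  let U : ℕ → Set X := fun k => e (pos (l k)) (a (F k) (l k))
  have hU : ∀ k, hist U k = pos (l k) := by
    intro k
    induction k with
    | zero => rfl
    | succ k ih =>
      rw [hist_succ, ih, hl, hpos]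
  refine hw U (fun n => ?_) ?_
  · rw [hU]
    exact he1 _ ⟨_, rfl⟩
  · have h4 : ∀ n, V n ⊆ U n := by
      intro n
      rw [← hF]
      exact iInter_subset _ (l n)
    refine ⟨?_, ?_, ?_⟩
    · rintro _ ⟨n, rfl⟩
      exact (he2 (pos (l n))).1 _ ⟨_, rfl⟩
    · refine eq_univ_of_forall fun x => ?_
      have : x ∈ ⋃₀ 𝒱 := hk.2.1 ▸ mem_univ x
      obtain ⟨S, hS, hx⟩ := this
      rw [hV] at hS
      obtain ⟨n, rfl⟩ := hS
      exact ⟨_, ⟨n, rfl⟩, h4 n hx⟩
    · intro K hK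
      obtain ⟨S, hS, hx⟩ := hk.2.2 K hK
      rw [hV] at hS
      obtain ⟨n, rfl⟩ := hS
      exact ⟨_, ⟨n, rfl⟩, hx.trans (h4 n)⟩

end Pool.Agent.Q153.KGame
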