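import Mathlib

/-! Parent structures of rooted trees. -/

open SimpleGraph Set

namespace Pool.Agent.Q153

variable {V : Type*}

/-- Parent structure of a rooted tree. -/
structure PS (G : SimpleGraph V) (c : V) (π : V → V) (dep : V → ℕ) : Prop where
  adj : ∀ u v, G.Adj u v ↔ (u ≠ c ∧ π u = v) ∨ (v ≠ c ∧ π v = u)
  pc : π c = c
  dc : dep c = 0
  ds : ∀ v, v ≠ c → dep v = dep (π v) + 1

namespace PS

variable {G : SimpleGraph V} {c : V} {π : V → V} {dep : V → ℕ} (h : PS G c π dep)

include h

theorem adj_parent {v : V} (hv : v ≠ c) : G.Adj v (π v) := (h.adj _ _).2 (Or.inl ⟨hv, rfl⟩)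

theorem dep_pos_iff {v : V} : 0 < dep v ↔ v ≠ c := by
  constructor
  · rintro h0 rfl
    rw [h.dc] at h0
    omega
  · intro hv
    rw [h.ds v hv]
    omega

theorem dep_eq_zero {v : V} (hv : dep v = 0) : v = c := by
  by_contra hne
  have := h.dep_pos_iff.2 hne
  omega

theorem iter_c (k : ℕ) : π^[k] c = c := Function.iterate_fixed h.pc k

theorem dep_parent (v : V) : dep (π v) = dep v - 1 := by
  by_cases hv : v = c
  · subst hv
    rw [h.pc, h.dc]
  · rw [h.ds v hv]
    omega

theorem dep_iter (v : V) (k : ℕ) : dep (π^[k] v) = dep v - k := by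
  induction k with
  | zero => rfl
  | succ k ih =>
    rw [Function.iterate_succ_apply', h.dep_parent, ih]
    omega

theorem iter_dep (v : V) : π^[dep v] v = c := by
  apply h.dep_eq_zero
  rw [h.dep_iter]
  omega

theorem iter_ne {v : V} {k : ℕ} (hk : k < dep v) : π^[k] v ≠ c := by
  rw [← h.dep_pos_iff, h.dep_iter]
  omega

theorem vertical (k : ℕ) : ∀ v w : V, k ≤ dep v → π^[k] v = w → ∃ p : G.Walk v w, p.IsPath ∧
    ∀ z, z ∈ p.support ↔ ∃ i ≤ k, z = π^[i] v := by
  induction k with
  | zero =>
    intro v w _ hw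
    have hw' : v = w := hw
    subst hw'
    refine ⟨Walk.nil, Walk.IsPath.nil, fun w => ?_⟩
    rw [Walk.support_nil, List.mem_singleton]
    constructor
    · rintro rfl
      exact ⟨0, le_refl _, rfl⟩
    · rintro ⟨i, hi, rfl⟩
      obtain rfl : i = 0 := by omega
      rfl
  | succ k ih =>
    intro v w hv hw
    have hvc : v ≠ c := by
      rw [← h.dep_pos_iff]
      omega
    obtain ⟨p, hp, hps⟩ := ih (π v) w (by rw [h.dep_parent]; omega) hw
    refine ⟨Walk.cons (h.adj_parent hvc) p, ?_, fun w => ?_⟩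
    · refine hp.cons ?_
      rw [hps]
      rintro ⟨i, hi, hvi⟩
      have h1 := congrArg dep hvi
      rw [h.dep_iter, h.dep_parent] at h1
      have := h.dep_pos_iff.2 hvc
      omega
    · rw [Walk.support_cons, List.mem_cons, hps]
      constructor
      · rintro (rfl | ⟨i, hi, rfl⟩)
        · exact ⟨0, Nat.zero_le _, rfl⟩
        · exact ⟨i + 1, by omega, rfl⟩
      · rintro ⟨i, hi, rfl⟩
        cases i with
        | zero => exact Or.inl rfl
        | succ i => exact Or.inr ⟨i, by omega, rfl⟩

theorem junction (n : ℕ) : ∀ u v : V, dep u = n → (∀ i j, π^[i] u = π^[j] v → π^[i] u = c) →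
    ∃ p : G.Walk u v, p.IsPath ∧
      ∀ w, w ∈ p.support ↔ (∃ i ≤ dep u, w = π^[i] u) ∨ (∃ j ≤ dep v, w = π^[j] v) := by
  induction n with
  | zero =>
    intro u v hu hd
    obtain rfl := h.dep_eq_zero hu
    obtain ⟨p, hp, hps⟩ := h.vertical (dep v) v u le_rfl (h.iter_dep v)
    refine ⟨p.reverse, ?_, fun w => ?_⟩
    · rw [Walk.isPath_reverse_iff]
      exact hp
    · rw [Walk.support_reverse, List.mem_reverse, hps]
      constructor
      · intro hw
        exact Or.inr hw
      · rintro (⟨i, hi, rfl⟩ | hw)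
        · refine ⟨dep v, le_rfl, ?_⟩
          rw [h.iter_c, h.iter_dep]
        · exact hw
  | succ n ih =>
    intro u v hu hd
    have huc : u ≠ c := by
      rw [← h.dep_pos_iff]
      omega
    obtain ⟨p, hp, hps⟩ := ih (π u) v (by rw [h.dep_parent]; omega) (by
      intro i j hij
      exact hd (i + 1) j hij)
    refine ⟨Walk.cons (h.adj_parent huc) p, ?_, fun w => ?_⟩
    · refine hp.cons ?_
      rw [hps]
      rintro (⟨i, hi, hvi⟩ | ⟨j, hj, hvj⟩)
      · have h1 := congrArg dep hvi
        rw [h.dep_iter, h.dep_parent] at h1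
        omega
      · exact huc (hd 0 j hvj)
    · rw [Walk.support_cons, List.mem_cons, hps]
      constructor
      · rintro (rfl | ⟨i, hi, rfl⟩ | hw)
        · exact Or.inl ⟨0, Nat.zero_le _, rfl⟩
        · rw [h.dep_parent] at hi
          exact Or.inl ⟨i + 1, by omega, rfl⟩
        · exact Or.inr hw
      · rintro (⟨i, hi, rfl⟩ | hw)
        · cases i with
          | zero => exact Or.inl rfl
          | succ i => exact Or.inr (Or.inl ⟨i, by rw [h.dep_parent]; omega, rfl⟩)
        · exact Or.inr (Or.inr hw)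

theorem parent_of_adj_of_le {u v : V} (huv : G.Adj u v) (hd : dep v ≤ dep u) :
    u ≠ c ∧ π u = v := by
  rcases (h.adj u v).1 huv with h1 | ⟨h1, h2⟩
  · exact h1
  · have := h.ds v h1
    rw [h2] at this
    omega

theorem isTree : G.IsTree := by
  classical
  refine ⟨?_, ?_⟩
  · have hreach : ∀ v, G.Reachable v c := by
      intro v
      obtain ⟨p, -, -⟩ := h.vertical (dep v) v c le_rfl (h.iter_dep v)
      exact ⟨p⟩
    have : Nonempty V := ⟨c⟩
    exact Connected.mk fun u v => (hreach u).trans (hreach v).symm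
  · intro v p hp
    -- a vertex of maximal depth on the cycle
    obtain ⟨m, hm, hmax⟩ := Finset.exists_max_image p.support.toFinset dep
      ⟨v, by rw [List.mem_toFinset]; exact p.start_mem_support⟩
    rw [List.mem_toFinset] at hm
    have hq := hp.rotate hm
    have hqs : ∀ w, w ∈ (p.rotate m hm).support → dep w ≤ dep m := by
      intro w hw
      rw [Walk.mem_support_rotate_iff] at hw
      exact hmax w (List.mem_toFinset.2 hw)
    have h1 : G.Adj m (p.rotate m hm).snd := Walk.adj_snd hq.not_nil
    have h2 : G.Adj m (p.rotate m hm).penultimate := (Walk.adj_penultimate hq.not_nil).symm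
    have h3 := h.parent_of_adj_of_le h1 (hqs _ (Walk.getVert_mem_support _ _))
    have h4 := h.parent_of_adj_of_le h2 (hqs _ (Walk.getVert_mem_support _ _))
    exact hq.snd_ne_penultimate (h3.2.symm.trans h4.2)

omit h in
/-- Every tree has a parent structure with any given root. -/
theorem exists_of_isTree {G : SimpleGraph V} (hT : G.IsTree) (c : V) :
    ∃ (π : V → V) (dep : V → ℕ), PS G c π dep := by
  classical
  let P : ∀ v, G.Walk v c := fun v => (hT.existsUnique_path v c).choose
  have hP : ∀ v, (P v).IsPath := fun v => (hT.existsUnique_path v c).choose_spec.1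
  have hPu : ∀ v (q : G.Walk v c), q.IsPath → q = P v := fun v q hq =>
    (hT.existsUnique_path v c).choose_spec.2 q hq
  have hPc : P c = Walk.nil := (hPu c Walk.nil Walk.IsPath.nil).symm
  refine ⟨fun v => (P v).snd, fun v => (P v).length, ?_, ?_, ?_, ?_⟩
  · intro u v
    constructor
    · intro huv
      by_cases hv : v ∈ (P u).support
      · left
        refine ⟨?_, (hT.isAcyclic.eq_snd_of_adj_start (hP u) huv hv).symm⟩
        rintro rfl
        rw [hPc, Walk.support_nil, List.mem_singleton] at hv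
        exact huv.ne hv.symm
      · right
        have h1 : (Walk.cons huv.symm (P u)).IsPath := (hP u).cons hv
        have h2 := hPu v _ h1
        refine ⟨?_, ?_⟩
        · rintro rfl
          exact hv (P u).end_mem_support
        · show (P v).snd = u
          rw [← h2]
          simp
    · rintro (⟨h1, h2⟩ | ⟨h1, h2⟩)
      · rw [← h2]
        exact Walk.adj_snd (Walk.not_nil_of_ne h1)
      · rw [← h2]
        exact (Walk.adj_snd (Walk.not_nil_of_ne h1)).symm
  · show (P c).snd = c
    rw [hPc]
    simp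
  · show (P c).length = 0
    rw [hPc]
    rfl
  · intro v hv
    show (P v).length = (P (P v).snd).length + 1
    have hn : ¬ (P v).Nil := Walk.not_nil_of_ne hv
    rw [← hPu _ _ (hP v).tail, Walk.length_tail_add_one hn]

/-- The path between two vertices one of which is an ancestor of the other. -/
theorem support_vertical (hT : G.IsTree) {v w : V} {k : ℕ} (hk : k ≤ dep v) (hw : π^[k] v = w)
    (p : G.Walk v w) (hp : p.IsPath) (z : V) : z ∈ p.support ↔ ∃ i ≤ k, z = π^[i] v := by
  obtain ⟨q, hq, hqs⟩ := h.vertical k v w hk hw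
  rw [(hT.existsUnique_path v w).unique hp hq, hqs]

theorem support_junction (hT : G.IsTree) {u v : V}
    (hd : ∀ i j, π^[i] u = π^[j] v → π^[i] u = c)
    (p : G.Walk u v) (hp : p.IsPath) (z : V) :
    z ∈ p.support ↔ (∃ i ≤ dep u, z = π^[i] u) ∨ (∃ j ≤ dep v, z = π^[j] v) := by
  obtain ⟨q, hq, hqs⟩ := h.junction (dep u) u v rfl hd
  rw [(hT.existsUnique_path u v).unique hp hq, hqs]

end PS

/-- The parent structure of a ray. -/
theorem ray_PS {V : Type*} {R : SimpleGraph V} (e : ℕ ≃ V)
    (hR : ∀ u v, R.Adj u v ↔ ∃ n, (u = e n ∧ v = e (n + 1)) ∨ (v = e n ∧ u = e (n + 1))) :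
    PS R (e 0) (fun v => e (e.symm v - 1)) (fun v => e.symm v) := by
  refine ⟨?_, ?_, ?_, ?_⟩
  · intro u v
    rw [hR]
    constructor
    · rintro ⟨n, (⟨rfl, rfl⟩ | ⟨rfl, rfl⟩)⟩
      · right
        simp
      · left
        simp
    · rintro (⟨h1, rfl⟩ | ⟨h1, rfl⟩)
      · have h2 : e.symm u ≠ 0 := fun h => h1 (by rw [← h]; simp)
        refine ⟨e.symm u - 1, Or.inr ⟨rfl, ?_⟩⟩
        rw [Nat.sub_add_cancel (by omega)]
        simp
      · have h2 : e.symm v ≠ 0 := fun h => h1 (by rw [← h]; simp)
        refine ⟨e.symm v - 1, Or.inl ⟨rfl, ?_⟩⟩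
        rw [Nat.sub_add_cancel (by omega)]
        simp
  · simp
  · simp
  · intro v hv
    have h2 : e.symm v ≠ 0 := fun h => hv (by rw [← h]; simp)
    simp
    omega

theorem ray_iter {V : Type*} (e : ℕ ≃ V) (k n : ℕ) :
    (fun v => e (e.symm v - 1))^[k] (e n) = e (n - k) := by
  induction k with
  | zero => rfl
  | succ k ih =>
    rw [Function.iterate_succ_apply', ih]
    simp only [Equiv.symm_apply_apply]
    rw [Nat.sub_sub]

end Pool.Agent.Q153
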