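import Mathlib

/-!
The partial open neighbourhood assignment game, the Menger game and total paracompactness:
definitions.
-/

set_option autoImplicit false

open Set

namespace Pool.Agent.Q153.Ponag

variable (X : Type) [TopologicalSpace X]

/-- A partial open neighbourhood assignment in `X`: a set `Y ⊆ X` and for every `x ∈ Y` an open set
`V x` which contains `x`. -/
structure Pona where
  Y : Set X
  V : Y → Set X
  isOpen : ∀ x, IsOpen (V x)
  mem : ∀ x : Y, (x : X) ∈ V x

variable {X}

/-- `V_D`, the union of the sets `V x`, `x ∈ D`. -/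
def Pona.star (A : Pona X) (D : Set X) : Set X := ⋃ x : A.Y, ⋃ _ : (x : X) ∈ D, A.V x

/-- The list `[f 0, ..., f (n - 1)]` of the first `n` moves. -/
def hist {A : Type} (f : ℕ → A) (n : ℕ) : List A := (List.range n).map f

/-- The set of the points which are not covered before round `n`; it is `X` for `n = 0`. -/
def rest (A : ℕ → Pona X) (D : ℕ → Set X) (n : ℕ) : Set X := (⋃ k, ⋃ _ : k < n, (A k).star (D k))ᶜ

/-- Alice's move in round `n` is legal: the points of the assignment lie in the set which is not yet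
covered, and its members cover this set. -/
def AliceLegal (A : ℕ → Pona X) (D : ℕ → Set X) (n : ℕ) : Prop :=
  (A n).Y ⊆ rest A D n ∧ rest A D n ⊆ ⋃ x, (A n).V x

/-- Bob's move in round `n` is legal: it is a subset of `Y n`, closed and discrete in `X`. -/
def BobLegal (A : ℕ → Pona X) (D : ℕ → Set X) (n : ℕ) : Prop :=
  D n ⊆ (A n).Y ∧ IsClosed (D n) ∧ DiscreteTopology (D n)

variable (X)

/-- Bob has a winning strategy in `PONAG(X)`: a function `τ` of Alice's moves such that, as long as
Alice's moves are legal, the answers of `τ` are legal, and Bob wins every play in which all moves of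
Alice are legal and Bob follows `τ`. -/
def BobWinsPonag : Prop :=
  ∃ τ : List (Pona X) → Set X, ∀ A : ℕ → Pona X,
    (∀ n, (∀ m ≤ n, AliceLegal A (fun k => τ (hist A (k + 1))) m) →
      BobLegal A (fun k => τ (hist A (k + 1))) n) ∧
    ((∀ n, AliceLegal A (fun k => τ (hist A (k + 1))) n) →
      ⋃ n, (A n).star (τ (hist A (n + 1))) = univ)

/-- Alice has a winning strategy in `PONAG(X)`: a function `σ` of Bob's moves such that, as long as
Bob's moves are legal, the moves of `σ` are legal, and Alice wins every play in which all moves of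
Bob are legal and Alice follows `σ`. -/
def AliceWinsPonag : Prop :=
  ∃ σ : List (Set X) → Pona X, ∀ D : ℕ → Set X,
    (∀ n, (∀ m < n, BobLegal (fun k => σ (hist D k)) D m) →
      AliceLegal (fun k => σ (hist D k)) D n) ∧
    ((∀ n, BobLegal (fun k => σ (hist D k)) D n) →
      ⋃ n, (σ (hist D n)).star (D n) ≠ univ)

variable {X}

/-- `𝒰` is an open cover of `X`. -/
def OpenCover (𝒰 : Set (Set X)) : Prop := (∀ U ∈ 𝒰, IsOpen U) ∧ ⋃₀ 𝒰 = univ

variable (X)

/-- `X` is Menger. -/
def Menger : Prop :=
  ∀ 𝒰 : ℕ → Set (Set X), (∀ n, OpenCover (𝒰 n)) →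
    ∃ F : ℕ → Set (Set X), (∀ n, (F n).Finite ∧ F n ⊆ 𝒰 n) ∧ ⋃₀ (⋃ n, F n) = univ

/-- Bob has a winning strategy in the Menger game: a function `τ` which answers the open covers
`𝒰 0, ..., 𝒰 n` of Alice with a finite subset of `𝒰 n`, such that these finite families cover `X`
in every play. -/
def BobWinsMenger : Prop :=
  ∃ τ : List (Set (Set X)) → Set (Set X), ∀ 𝒰 : ℕ → Set (Set X), (∀ n, OpenCover (𝒰 n)) →
    (∀ n, (τ (hist 𝒰 (n + 1))).Finite ∧ τ (hist 𝒰 (n + 1)) ⊆ 𝒰 n) ∧
      ⋃₀ (⋃ n, τ (hist 𝒰 (n + 1))) = univ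

/-- `X` is totally paracompact: every base of `X` has a locally finite subfamily which covers
`X`. -/
def TotallyParacompact : Prop :=
  ∀ ℬ : Set (Set X), TopologicalSpace.IsTopologicalBasis ℬ →
    ∃ ℬ' ⊆ ℬ, ⋃₀ ℬ' = univ ∧ LocallyFinite (fun B : ℬ' => (B : Set X))

/-- Bob can cover the space in the first round. -/
def OneRound : Prop :=
  ∀ A : Pona X, ⋃ x, A.V x = univ → ∃ D ⊆ A.Y, IsClosed D ∧ DiscreteTopology D ∧ A.star D = univ

variable {X}

theorem star_empty (A : Pona X) : A.star ∅ = ∅ := by simp [Pona.star]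

theorem discreteTopology_empty : DiscreteTopology (∅ : Set X) :=
  Subsingleton.discreteTopology

theorem rest_zero (A : ℕ → Pona X) (D : ℕ → Set X) : rest A D 0 = univ := by simp [rest]

theorem OneRound.bob (h : OneRound X) : BobWinsPonag X := by
  classical
  choose! D hD1 hD2 hD3 hD4 using h
  refine ⟨fun l => match l with
    | [A] => D A
    | _ => ∅, fun A => ?_⟩
  have h0 : hist A (0 + 1) = [A 0] := by simp [hist]
  have hn : ∀ n, ∃ a b l, hist A (n + 1 + 1) = a :: b :: l := by
    intro n
    have h1 : (hist A (n + 1 + 1)).length = n + 2 := by simp [hist]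
    match hist A (n + 1 + 1), h1 with
    | a :: b :: l, _ => exact ⟨a, b, l, rfl⟩
  constructor
  · intro n hleg
    have hcov : ⋃ x, (A 0).V x = univ := by
      have := (hleg 0 (Nat.zero_le n)).2
      rw [rest_zero] at this
      exact univ_subset_iff.1 this
    rcases n with _ | n
    · exact ⟨hD1 _ hcov, hD2 _ hcov, hD3 _ hcov⟩
    · obtain ⟨a, b, l, h1⟩ := hn n
      have h2 : ∀ S : Set X, S = ∅ → S ⊆ (A (n + 1)).Y ∧ IsClosed S ∧ DiscreteTopology S := by
        rintro _ rfl
        exact ⟨empty_subset _, isClosed_empty, discreteTopology_empty⟩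
      refine h2 _ ?_
      simp only [h1]
  · intro hleg
    have hcov : ⋃ x, (A 0).V x = univ := by
      have := (hleg 0).2
      rw [rest_zero] at this
      exact univ_subset_iff.1 this
    refine eq_univ_of_univ_subset ?_
    refine Subset.trans ?_ (subset_iUnion _ 0)
    simp only [h0]
    exact (hD4 _ hcov).ge

theorem OneRound.not_alice (h : OneRound X) : ¬ AliceWinsPonag X := by
  rintro ⟨σ, hσ⟩
  have h0 : ∀ D : ℕ → Set X, hist D 0 = [] := fun D => rfl
  have hcov : ⋃ x, (σ []).V x = univ := by
    have := ((hσ fun _ => ∅).1 0 (fun m hm => absurd hm (Nat.not_lt_zero m))).2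
    rw [rest_zero] at this
    exact univ_subset_iff.1 this
  obtain ⟨D₀, h1, h2, h3, h4⟩ := h (σ []) hcov
  let D : ℕ → Set X := fun n => if n = 0 then D₀ else ∅
  have hD0 : D 0 = D₀ := by simp [D]
  have hDn : ∀ n, n ≠ 0 → D n = ∅ := fun n hn => by simp [D, hn]
  refine (hσ D).2 (fun n => ?_) ?_
  · by_cases hn : n = 0
    · subst hn
      exact ⟨by rw [hD0]; exact h1, by rw [hD0]; exact h2, by rw [hD0]; exact h3⟩
    · refine ⟨?_, ?_, ?_⟩
      · rw [hDn n hn]; exact empty_subset _
      · rw [hDn n hn]; exact isClosed_empty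
      · rw [hDn n hn]; exact discreteTopology_empty
  · refine eq_univ_of_univ_subset ?_
    refine Subset.trans ?_ (subset_iUnion _ 0)
    rw [hD0]
    exact h4.ge

/-- A set all of whose subsets are closed is discrete. -/
theorem discrete_of_subsets {D : Set X} (h : ∀ E ⊆ D, IsClosed E) : DiscreteTopology D := by
  rw [discreteTopology_iff_isOpen_singleton]
  intro a
  refine ⟨(D \ {a.1})ᶜ, (h _ sdiff_subset).isOpen_compl, ?_⟩
  ext b
  simp only [mem_preimage, mem_compl_iff, mem_sdiff, Subtype.coe_prop, true_and, not_not,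
    mem_singleton_iff, Subtype.ext_iff]

end Pool.Agent.Q153.Ponag
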