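import Pool.Agent.Q153.PonagDefs
import Pool.Agent.Q153.KGame

/-!
The Lindelöf `P`-space `Pt` of `KGame`: Bob wins the game `PONAG` but not the Menger game.
-/

set_option autoImplicit false

open Set

namespace Pool.Agent.Q153.Ponag

open Pool.Agent.Q153.FreeTVS (W countable_Iio)
open Pool.Agent.Q153.KGame (Pt bdd IsL lad lad_lt lad_mono lad_cof seq N N_anti N_sub mem_N_self
  Nb Nb_open mem_Nb cov cov_k exists_roots closing fin_inj)
open Pool.Agent.Q153.KGame.Pt

theorem pt_infinite : Infinite Pt :=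
  Infinite.of_injective (fun n : ℕ => fin (List.replicate n (Classical.arbitrary W)))
    fun m n h => by simpa using congrArg List.length (Pt.fin.inj h)

theorem pt_menger : Menger Pt := by
  intro 𝒰 h𝒰
  have h1 : ∀ (n : ℕ) (x : Pt), ∃ U ∈ 𝒰 n, x ∈ U := fun n x =>
    mem_sUnion.1 ((h𝒰 n).2 ▸ mem_univ x)
  choose u hu1 hu2 using h1
  have hL := KGame.lindelof
  obtain ⟨t, htc, ht⟩ := (isLindelof_univ (X := Pt)).elim_countable_subcover
    (fun x => ⋂ n, u n x) (fun x => KGame.isOpen_iInter' _ fun n => (h𝒰 n).1 _ (hu1 n x))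
    (fun x _ => mem_iUnion.2 ⟨x, mem_iInter.2 fun n => hu2 n x⟩)
  have hne : t.Nonempty := by
    obtain ⟨x, hx, -⟩ := mem_iUnion₂.1 (ht (mem_univ (fin [])))
    exact ⟨x, hx⟩
  obtain ⟨e, he⟩ := htc.exists_eq_range hne
  refine ⟨fun n => {u n (e n)}, fun n => ⟨finite_singleton _, singleton_subset_iff.2 (hu1 _ _)⟩,
    eq_univ_of_forall fun y => ?_⟩
  obtain ⟨x, hx, hy⟩ := mem_iUnion₂.1 (ht (mem_univ y))
  rw [he] at hx
  obtain ⟨n, rfl⟩ := hx
  exact ⟨u n (e n), mem_iUnion.2 ⟨n, rfl⟩, mem_iInter.1 hy n⟩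

theorem pt_oneRound : OneRound Pt := by
  intro A hA
  have hL := KGame.lindelof
  obtain ⟨t, htc, ht⟩ := (isLindelof_univ (X := Pt)).elim_countable_subcover
    A.V A.isOpen hA.ge
  have hc : ((fun x : A.Y => (x : Pt)) '' t).Countable := htc.image _
  refine ⟨(fun x : A.Y => (x : Pt)) '' t, ?_, KGame.isClosed_countable hc, ?_, ?_⟩
  · rintro _ ⟨x, -, rfl⟩
    exact x.2
  · exact discrete_of_subsets fun E hE => KGame.isClosed_countable (hc.mono hE)
  · refine eq_univ_of_forall fun y => ?_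
    obtain ⟨x, hx, hy⟩ := mem_iUnion₂.1 (ht (mem_univ y))
    exact mem_iUnion.2 ⟨x, mem_iUnion.2 ⟨⟨x, hx, rfl⟩, hy⟩⟩

theorem cov_open (α : W) : OpenCover (cov α) := ⟨(cov_k α).1, (cov_k α).2.1⟩

theorem hist_succ {A : Type} (f : ℕ → A) (n : ℕ) : hist f (n + 1) = hist f n ++ [f n] := by
  simp [hist, List.range_succ]

theorem pt_not_bob : ¬ BobWinsMenger Pt := by
  classical
  rintro ⟨τ, hτ⟩
  -- the moves of Bob against the covers `cov α`
  have h1 : ∀ (p : List W) (α : W), ∃ F : Finset Pt,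
      ⋃₀ τ ((p ++ [α]).map cov) ⊆ ⋃ x ∈ F, Nb α x := by
    intro p α
    let f : ℕ → W := fun n => (p ++ [α]).getD n α
    have h2 : hist (fun n => cov (f n)) (p.length + 1) = (p ++ [α]).map cov := by
      apply List.ext_getElem
      · simp [hist]
      · intro i h3 h4
        have h5 : i < (p ++ [α]).length := by simpa using h4
        have h6 : f i = (p ++ [α])[i] := List.getD_eq_getElem _ _ h5
        rw [List.getElem_map]
        simp only [hist, List.getElem_map, List.getElem_range]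
        rw [h6]
    have h3 := (hτ (fun n => cov (f n)) fun n => cov_open _).1 p.length
    rw [h2] at h3
    have h4 : f p.length = α := by simp [f]
    simp only [h4] at h3
    obtain ⟨hfin, hsub⟩ := h3
    have h5 : ∀ U : Set Pt, ∃ G : Finset Pt, U ∈ τ ((p ++ [α]).map cov) →
        U = ⋃ x ∈ G, Nb α x := by
      intro U
      by_cases hU : U ∈ τ ((p ++ [α]).map cov)
      · obtain ⟨G, hG⟩ := hsub hU
        exact ⟨G, fun _ => hG.symm⟩
      · exact ⟨∅, fun h => absurd h hU⟩
    choose G hG using h5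
    refine ⟨hfin.toFinset.biUnion G, ?_⟩
    rintro x ⟨U, hU, hx⟩
    rw [hG U hU] at hx
    obtain ⟨y, hy, hxy⟩ := mem_iUnion₂.1 hx
    exact mem_biUnion (x := y) (Finset.mem_biUnion.2 ⟨U, hfin.mem_toFinset.2 hU, hy⟩) hxy
  choose Φ hΦ using h1
  have h2 : ∀ p : List W, ∃ R : Finset (List W), ∀ β, ∃ α, β ≤ α ∧
    ∀ s, fin s ∈ Φ p α → ∃ r ∈ R, fin s ∈ N α r := fun p => exists_roots (Φ p)
  choose R α hα1 hα2 using h2
  -- a bound of the limits
  have h3 : ∀ (p : List W) (β : W), ∃ c : W, α p β < c ∧ ∀ γ h, lim γ h ∈ Φ p (α p β) → γ < c := by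
    intro p β
    obtain ⟨c, hc⟩ := bdd (ι := Option {x // x ∈ Φ p (α p β)}) fun o => o.elim (α p β) fun x =>
      match x.1 with
      | fin _ => α p β
      | lim γ _ => γ
    exact ⟨c, hc none, fun γ h hγ => hc (some ⟨lim γ h, hγ⟩)⟩
  choose c hc1 hc2 using h3
  -- closing off
  have h4 : ∀ F : Finset Pt, ∃ a : W, ∀ (p : List W) (β : W), fin p ∈ F → fin [β] ∈ F →
      c p β < a := by
    intro F
    let A : Finset (List W) := F.preimage fin fin_inj.injOn
    let B : Finset W := F.preimage (fun β => fin [β]) (fun s _ t _ h => by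
      simpa using Pt.fin.inj h)
    obtain ⟨a, ha⟩ := bdd (ι := {z : List W × W // z ∈ A ×ˢ B}) fun z => c z.1.1 z.1.2
    exact ⟨a, fun p β hp hβ => ha ⟨(p, β),
      Finset.mem_product.2 ⟨Finset.mem_preimage.2 hp, Finset.mem_preimage.2 hβ⟩⟩⟩
  choose k hk using h4
  obtain ⟨δ, -, hL, hδ⟩ := closing k (Classical.arbitrary W)
  have hcδ : ∀ (p : List W) (β : W), (∀ b ∈ p, b < δ) → β < δ → c p β < δ := by
    intro p β hp hβ
    refine (hk {fin p, fin [β]} p β (by simp) (by simp)).trans (hδ _ ?_)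
    intro x hx
    simp only [Finset.mem_insert, Finset.mem_singleton] at hx
    rcases hx with rfl | rfl
    · exact hp
    · intro b hb
      simp only [List.mem_singleton] at hb
      rw [hb]
      exact hβ
  -- the play
  let m : List W → ℕ := fun p => (R p).sup List.length + 1
  let nx : List W → W := fun p => α p (lad δ hL (m p))
  let P : ℕ → List W := fun n => Nat.rec [] (fun _ p => p ++ [nx p]) n
  have hP : ∀ n, P (n + 1) = P n ++ [nx (P n)] := fun n => rfl
  have hnx : ∀ p : List W, (∀ b ∈ p, b < δ) → nx p < δ := fun p hp =>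
    (hc1 p _).trans (hcδ p _ hp (lad_lt hL _))
  have hPδ : ∀ n, ∀ b ∈ P n, b < δ := by
    intro n
    induction n with
    | zero =>
      intro b hb
      exact absurd hb (by simp [P])
    | succ n ih =>
      intro b hb
      rw [hP, List.mem_append, List.mem_singleton] at hb
      rcases hb with hb | rfl
      · exact ih b hb
      · exact hnx _ ih
  let 𝒰 : ℕ → Set (Set Pt) := fun n => cov (nx (P n))
  have hh : ∀ n, hist 𝒰 n = (P n).map cov := by
    intro n
    induction n with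
    | zero => rfl
    | succ n ih => rw [hist_succ, ih, hP, List.map_append]; rfl
  have hwin := (hτ 𝒰 fun n => cov_open _).2
  have hcov : lim δ hL ∈ ⋃₀ ⋃ n, τ (hist 𝒰 (n + 1)) := hwin ▸ mem_univ _
  obtain ⟨U, hU, hxU⟩ := hcov
  obtain ⟨n, hn⟩ := mem_iUnion.1 hU
  rw [hh, hP] at hn
  have hx := hΦ (P n) (nx (P n)) ⟨U, hn, hxU⟩
  obtain ⟨y, hy, hxy⟩ := mem_iUnion₂.1 hx
  rcases y with s | ⟨γ, hγ⟩
  · obtain ⟨r, hr, hsr⟩ := hα2 (P n) (lad δ hL (m (P n))) s hy
    have hxr : lim δ hL ∈ N (nx (P n)) r := by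
      by_cases hs : s = r
      · rw [← hs]; exact hxy
      · exact N_sub hsr hs hxy
    have h5 : nx (P n) ≤ lad δ hL r.length := hxr.2 _ rfl
    have h6 : lad δ hL r.length < lad δ hL (m (P n)) := by
      refine lad_mono hL ?_
      have : r.length ≤ (R (P n)).sup List.length := Finset.le_sup (f := List.length) hr
      show r.length < (R (P n)).sup List.length + 1
      omega
    exact absurd (h6.trans_le (hα1 (P n) _)) (not_lt.2 h5)
  · have h5 : lim δ hL = lim γ hγ := hxy
    have h6 : γ = δ := (Pt.lim.inj h5).symm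
    have h7 := hc2 (P n) (lad δ hL (m (P n))) γ hγ hy
    have h8 := hcδ (P n) (lad δ hL (m (P n))) (hPδ n) (lad_lt hL _)
    rw [h6] at h7
    exact absurd h7 (not_lt.2 h8.le)

end Pool.Agent.Q153.Ponag
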