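import Pool.Agent.Q153.PonagDefs

/-!
A regular space in which Bob wins `PONAG` in the first round and which is not totally paracompact.
-/

set_option autoImplicit false

open Set Cardinal

namespace Pool.Agent.Q153.Ponag

/-- the first ordinal of the cardinality `𝔠⁺` -/
abbrev K : Type := (Order.succ (𝔠 : Cardinal.{0})).ord.ToType

theorem mk_K : #K = Order.succ 𝔠 := mk_ord_toType _

theorem mk_Iio_le (w : K) : #(Iio w) ≤ 𝔠 := by
  have h1 : #(Iio w) < #K := Cardinal.mk_Iio_lt w (by rw [mk_K]; simp)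
  rw [mk_K] at h1
  exact Order.lt_succ_iff.1 h1

instance : Nonempty K := by
  rw [← Cardinal.mk_ne_zero_iff, mk_K]
  exact (Cardinal.succ_pos _).ne'

theorem mk_Iic_le (w : K) : #(Iic w) ≤ 𝔠 := by
  rw [← Iio_insert]
  refine (Cardinal.mk_insert_le).trans ?_
  refine (add_le_add (mk_Iio_le w) (one_le_aleph0.trans aleph0_le_continuum)).trans ?_
  rw [continuum_add_self]

theorem kbdd {ι : Type} (hι : #ι ≤ 𝔠) (f : ι → K) : ∃ a, ∀ i, f i < a := by
  by_contra h
  push Not at h
  have h1 : (⋃ i, Iic (f i)) = (univ : Set K) := eq_univ_of_forall fun a => mem_iUnion.2 (h a)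
  have h2 : #K ≤ 𝔠 := by
    rw [← Cardinal.mk_univ, ← h1]
    refine (Cardinal.mk_iUnion_le _).trans ?_
    refine (mul_le_mul' hι (ciSup_le' fun i => mk_Iic_le (f i))).trans ?_
    rw [continuum_mul_self]
  rw [mk_K] at h2
  exact absurd h2 (not_le.2 (Order.lt_succ _))

/-- Points: finite and infinite sequences in `K`. -/
inductive Tr : Type
  | fin (s : List K) : Tr
  | inf (x : ℕ → K) : Tr

open Tr

theorem tfin_inj : Function.Injective Tr.fin := fun _ _ h => Tr.fin.inj h

/-- the sequence of a point -/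
def sq : Tr → ℕ → Option K
  | fin s, i => s[i]?
  | inf x, i => some (x i)

/-- the basic neighbourhoods of the finite sequence `s` -/
def B (α : K) (s : List K) : Set Tr :=
  {x | (∀ i < s.length, sq x i = s[i]?) ∧ ∀ β, sq x s.length = some β → α ≤ β}

theorem B_anti {α β : K} (h : α ≤ β) (s : List K) : B β s ⊆ B α s :=
  fun _ hx => ⟨hx.1, fun γ hγ => h.trans (hx.2 γ hγ)⟩

theorem mem_B_self (α : K) (s : List K) : fin s ∈ B α s :=
  ⟨fun _ _ => rfl, fun β hβ => by simp [sq] at hβ⟩

instance : TopologicalSpace Tr where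
  IsOpen U := ∀ s, fin s ∈ U → ∃ α, B α s ⊆ U
  isOpen_univ := fun _ _ => ⟨Classical.arbitrary K, subset_univ _⟩
  isOpen_inter U V hU hV s hs := by
    obtain ⟨α, hα⟩ := hU s hs.1
    obtain ⟨β, hβ⟩ := hV s hs.2
    exact ⟨max α β, subset_inter ((B_anti (le_max_left _ _) s).trans hα)
      ((B_anti (le_max_right _ _) s).trans hβ)⟩
  isOpen_sUnion 𝒰 h𝒰 s hs := by
    obtain ⟨U, hU, hsU⟩ := hs
    obtain ⟨α, hα⟩ := h𝒰 U hU s hsU
    exact ⟨α, hα.trans (subset_sUnion_of_mem hU)⟩

theorem tr_isOpen_iInter {ι : Type} (hι : #ι ≤ 𝔠) (U : ι → Set Tr) (h : ∀ i, IsOpen (U i)) :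
    IsOpen (⋂ i, U i) := by
  intro s hs
  have h1 : ∀ i, ∃ α, B α s ⊆ U i := fun i => h i s (mem_iInter.1 hs i)
  choose f hf using h1
  obtain ⟨a, ha⟩ := kbdd hι f
  exact ⟨a, subset_iInter fun i => (B_anti (ha i).le s).trans (hf i)⟩

/-- the set of the extensions of `t` lies in `B α s` if `t` does and `t ≠ s` -/
theorem B_sub {α γ : K} {s t : List K} (h : fin t ∈ B α s) (hne : t ≠ s) : B γ t ⊆ B α s := by
  have h1 : s.length < t.length := by
    by_contra hle
    push Not at hle
    apply hne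
    apply List.ext_getElem?
    intro i
    rcases lt_or_ge i s.length with hi | hi
    · exact h.1 i hi
    · rw [List.getElem?_eq_none hi, List.getElem?_eq_none (hle.trans hi)]
  intro x hx
  refine ⟨fun i hi => ?_, fun β hβ => ?_⟩
  · rw [hx.1 i (hi.trans h1)]
    exact h.1 i hi
  · rw [hx.1 _ h1] at hβ
    exact h.2 β hβ

theorem B_open (α : K) (s : List K) : IsOpen (B α s) := by
  intro t ht
  by_cases h : t = s
  · exact ⟨α, by rw [h]⟩
  · exact ⟨α, B_sub ht h⟩

theorem mem_of_meet {α γ : K} {s t : List K} (hγ : ∀ b ∈ s, b < γ) {x : Tr} (hx : x ∈ B γ t)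
    (hx' : x ∈ B α s) : fin t ∈ B α s := by
  have h1 : s.length ≤ t.length := by
    by_contra hlt
    push Not at hlt
    have h2 := hx'.1 _ hlt
    rw [List.getElem?_eq_getElem hlt] at h2
    exact absurd (hγ _ (List.getElem_mem hlt)) (not_lt.2 (hx.2 _ h2))
  refine ⟨fun i hi => ?_, fun β hβ => ?_⟩
  · show t[i]? = s[i]?
    rw [← hx.1 i (hi.trans_le h1), hx'.1 i hi]
  · have hβ' : t[s.length]? = some β := hβ
    have h2 : s.length < t.length := by
      by_contra hle
      rw [List.getElem?_eq_none (not_lt.1 hle)] at hβ'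
      exact absurd hβ' (by simp)
    exact hx'.2 β (by rw [hx.1 _ h2, hβ'])

theorem klist_bdd (s : List K) : ∃ γ, ∀ b ∈ s, b < γ := by
  obtain ⟨a, ha⟩ := kbdd (ι := {b // b ∈ s}) (Cardinal.mk_le_aleph0.trans aleph0_le_continuum)
    (fun b => b.1)
  exact ⟨a, fun b hb => ha ⟨b, hb⟩⟩

theorem B_closed (α : K) (s : List K) : IsClosed (B α s) := by
  rw [← isOpen_compl_iff]
  intro t ht
  obtain ⟨γ, hγ⟩ := klist_bdd s
  exact ⟨γ, fun x hx hx' => ht (mem_of_meet hγ hx hx')⟩

theorem B_clopen (α : K) (s : List K) : IsClopen (B α s) := ⟨B_closed α s, B_open α s⟩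

/-- separation of points from finite sequences -/
theorem tsep (s : List K) (y : Tr) (h : y ≠ fin s) : ∃ α, y ∉ B α s := by
  rcases y with t | x
  · obtain ⟨γ, hγ⟩ := klist_bdd t
    refine ⟨γ, fun hy => h ?_⟩
    congr 1
    apply List.ext_getElem?
    intro i
    rcases lt_or_ge i s.length with hi | hi
    · exact hy.1 i hi
    · rw [List.getElem?_eq_none hi]
      apply List.getElem?_eq_none
      by_contra hlt
      have h1 : s.length < t.length := hi.trans_lt (not_le.1 hlt)
      have h2 : sq (fin t) s.length = some t[s.length] := List.getElem?_eq_getElem h1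
      exact absurd (hγ _ (List.getElem_mem h1)) (not_lt.2 (hy.2 _ h2))
  · obtain ⟨a, ha⟩ := kbdd (ι := Unit) (Cardinal.mk_le_aleph0.trans aleph0_le_continuum)
      fun _ => x s.length
    exact ⟨a, fun hy => absurd (ha ()) (not_lt.2 (hy.2 _ rfl))⟩

theorem tr_isOpen_compl_singleton (x : Tr) : IsOpen ({x}ᶜ : Set Tr) := by
  intro s hs
  obtain ⟨α, hα⟩ := tsep s x fun h => hs h.symm
  exact ⟨α, fun y hy hyx => hα (by rw [← show y = x from hyx]; exact hy)⟩

theorem isOpen_inf (x : ℕ → K) : IsOpen ({inf x} : Set Tr) := by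
  intro s hs
  exact absurd hs (by simp)

theorem isClopen_inf (x : ℕ → K) : IsClopen ({inf x} : Set Tr) :=
  ⟨isOpen_compl_iff.1 (tr_isOpen_compl_singleton _), isOpen_inf x⟩

/-- a clopen base -/
theorem tr_exists_clopen (U : Set Tr) (hU : IsOpen U) (x : Tr) (hx : x ∈ U) :
    ∃ V : Set Tr, IsClopen V ∧ x ∈ V ∧ V ⊆ U := by
  rcases x with s | x
  · obtain ⟨α, hα⟩ := hU s hx
    exact ⟨_, B_clopen α s, mem_B_self α s, hα⟩
  · exact ⟨_, isClopen_inf x, rfl, singleton_subset_iff.2 hx⟩

theorem tr_t2 : T2Space Tr := by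
  refine ⟨fun x y hxy => ?_⟩
  obtain ⟨V, hV, hx, hy⟩ := tr_exists_clopen _ (tr_isOpen_compl_singleton y) x hxy
  exact ⟨V, Vᶜ, hV.isOpen, hV.compl.isOpen, hx, fun h => hy h rfl, disjoint_compl_right⟩

theorem tr_regular : RegularSpace Tr := by
  refine RegularSpace.of_exists_mem_nhds_isClosed_subset fun x s hs => ?_
  obtain ⟨U, hU, hUo, hx⟩ := mem_nhds_iff.1 hs
  obtain ⟨V, hV, hxV, hVU⟩ := tr_exists_clopen U hUo x hx
  exact ⟨V, hV.isOpen.mem_nhds hxV, hV.isClosed, hVU.trans hU⟩

theorem tr_infinite : Infinite Tr :=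
  Infinite.of_injective (fun n : ℕ => Tr.fin (List.replicate n (Classical.arbitrary K)))
    fun m n h => by simpa using congrArg List.length (Tr.fin.inj h)

theorem tr_isClosed {A : Set Tr} (hA : #A ≤ 𝔠) : IsClosed A := by
  rw [← isOpen_compl_iff]
  have h1 : Aᶜ = ⋂ a : A, ({a.1}ᶜ : Set Tr) := by
    ext x
    simp only [mem_compl_iff, mem_iInter, mem_singleton_iff, Subtype.forall]
    exact ⟨fun h a ha hxa => h (hxa ▸ ha), fun h hx => h x hx rfl⟩
  rw [h1]
  exact tr_isOpen_iInter hA (fun a : A => ({a.1}ᶜ : Set Tr)) fun a => tr_isOpen_compl_singleton _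

/-! ### Bob wins in the first round -/

/-- the points with all entries smaller than `δ` -/
def Bel (δ : K) : Tr → Prop
  | fin s => ∀ b ∈ s, b < δ
  | inf x => ∀ n, x n < δ

theorem mk_list_le (δ : K) : #{s : List K // ∀ b ∈ s, b < δ} ≤ 𝔠 := by
  have h1 : #(List (Iio δ)) ≤ 𝔠 :=
    (Cardinal.mk_list_le_max _).trans (max_le aleph0_le_continuum (mk_Iio_le δ))
  refine le_trans ?_ h1
  refine Cardinal.mk_le_of_injective (f := fun s : {s : List K // ∀ b ∈ s, b < δ} =>
    s.1.attach.map fun b => (⟨b.1, s.2 b.1 b.2⟩ : Iio δ)) ?_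
  intro s t hst
  apply Subtype.ext
  have h2 := congrArg (List.map Subtype.val) hst
  simpa [List.map_map, Function.comp_def] using h2

theorem mk_bel (δ : K) : #{x // Bel δ x} ≤ 𝔠 := by
  have h2 : #(ℕ → Iio δ) ≤ 𝔠 := by
    rw [← Cardinal.power_def]
    refine (Cardinal.power_le_power_right (mk_Iio_le δ)).trans ?_
    rw [Cardinal.mk_nat, continuum_power_aleph0]
  have h3 : #({s : List K // ∀ b ∈ s, b < δ} ⊕ (ℕ → Iio δ)) ≤ 𝔠 := by
    rw [← Cardinal.add_def]
    refine (add_le_add (mk_list_le δ) h2).trans ?_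
    rw [continuum_add_self]
  refine le_trans ?_ h3
  refine Cardinal.mk_le_of_surjective
    (f := Sum.elim (fun s => (⟨fin s.1, s.2⟩ : {x // Bel δ x}))
      fun x => ⟨inf fun n => x n, fun n => (x n).2⟩) ?_
  rintro ⟨s | x, hx⟩
  · exact ⟨Sum.inl ⟨s, hx⟩, rfl⟩
  · exact ⟨Sum.inr fun n => ⟨x n, hx n⟩, rfl⟩

/-- closing off -/
theorem tclosing (b : List K → K) : ∃ δ, ∀ s : List K, (∀ c ∈ s, c < δ) → b s ≤ δ := by
  have h1 : ∀ δ : K, ∃ ε, δ < ε ∧ ∀ s : List K, (∀ c ∈ s, c < δ) → b s < ε := by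
    intro δ
    obtain ⟨ε, hε⟩ := kbdd (ι := Option {s : List K // ∀ c ∈ s, c < δ}) (by
      rw [Cardinal.mk_option]
      refine (add_le_add (mk_list_le δ) (one_le_aleph0.trans aleph0_le_continuum)).trans ?_
      rw [continuum_add_self]) fun o => o.elim δ fun s => b s.1
    exact ⟨ε, hε none, fun s hs => hε (some ⟨s, hs⟩)⟩
  choose g hg1 hg2 using h1
  let d : ℕ → K := fun n => g^[n] (Classical.arbitrary K)
  have hd : ∀ n, d (n + 1) = g (d n) := fun n => Function.iterate_succ_apply' g n _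
  have hdm : StrictMono d := strictMono_nat_of_lt_succ fun n => by rw [hd]; exact hg1 _
  have hub : {a | ∀ n, d n ≤ a}.Nonempty := by
    obtain ⟨a, ha⟩ := kbdd (Cardinal.mk_le_aleph0.trans aleph0_le_continuum) d
    exact ⟨a, fun n => (ha n).le⟩
  let δ := wellFounded_lt.min _ hub
  have hδ1 : ∀ n, d n ≤ δ := wellFounded_lt.min_mem _ hub
  have hδ3 : ∀ γ < δ, ∃ n, γ < d n := by
    intro γ hγ
    by_contra h
    push Not at h
    exact wellFounded_lt.not_lt_min {a | ∀ n, d n ≤ a} (show γ ∈ {a | ∀ n, d n ≤ a} from h) hγ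
  refine ⟨δ, fun s hs => ?_⟩
  have h3 : ∀ c : {c // c ∈ s}, ∃ n, c.1 < d n := fun c => hδ3 _ (hs _ c.2)
  choose n hn using h3
  obtain ⟨m, hm⟩ := (finite_range n).bddAbove
  have h4 := hg2 (d m) s fun c hc => (hn ⟨c, hc⟩).trans_le (hdm.monotone (hm ⟨_, rfl⟩))
  rw [← hd] at h4
  exact h4.le.trans (hδ1 _)

theorem troot (δ : K) (x : Tr) : Bel δ x ∨ ∃ s, (∀ b ∈ s, b < δ) ∧ x ∈ B δ s := by
  classical
  by_cases h : ∃ n, ∀ β, sq x n = some β → δ ≤ β
  · right
    let n := Nat.find h
    have hn : ∀ β, sq x n = some β → δ ≤ β := Nat.find_spec h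
    have hm : ∀ i < n, ∃ β, sq x i = some β ∧ β < δ := by
      intro i hi
      have := Nat.find_min h hi
      push Not at this
      exact this
    choose! g hg1 hg2 using hm
    refine ⟨(List.range n).map g, ?_, ?_⟩
    · intro b hb
      obtain ⟨i, hi, rfl⟩ := List.mem_map.1 hb
      exact hg2 i (List.mem_range.1 hi)
    · refine ⟨fun i hi => ?_, fun β hβ => ?_⟩
      · simp only [List.length_map, List.length_range] at hi
        rw [hg1 i hi]
        simp [hi]
      · simp only [List.length_map, List.length_range] at hβ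
        exact hn β hβ
  · push Not at h
    left
    rcases x with s | x
    · obtain ⟨β, hβ, -⟩ := h s.length
      simp [sq] at hβ
    · intro n
      obtain ⟨β, hβ, hβ'⟩ := h n
      have : x n = β := Option.some.inj hβ
      rw [this]
      exact hβ'

theorem tr_oneRound : OneRound Tr := by
  intro A hA
  have h1 : ∀ z : Tr, ∃ y : A.Y, z ∈ A.V y := fun z => mem_iUnion.1 (hA ▸ mem_univ z)
  choose y hy using h1
  have h2 : ∀ s : List K, ∃ b, B b s ⊆ A.V (y (fin s)) := fun s =>
    A.isOpen _ s (hy (fin s))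
  choose b hb using h2
  obtain ⟨δ, hδ⟩ := tclosing b
  let D : Set Tr := range fun z : {z // Bel δ z} => (y z.1 : Tr)
  have hD : #D ≤ 𝔠 := Cardinal.mk_range_le.trans (mk_bel δ)
  refine ⟨D, ?_, tr_isClosed hD, ?_, ?_⟩
  · rintro _ ⟨z, rfl⟩
    exact (y z.1).2
  · exact discrete_of_subsets fun E hE => tr_isClosed ((Cardinal.mk_le_mk_of_subset hE).trans hD)
  · refine eq_univ_of_forall fun z => ?_
    have h3 : ∀ w, Bel δ w → z ∈ A.V (y w) → z ∈ A.star D := fun w hw hz =>
      mem_iUnion.2 ⟨y w, mem_iUnion.2 ⟨⟨⟨w, hw⟩, rfl⟩, hz⟩⟩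
    rcases troot δ z with h | ⟨s, hs, hz⟩
    · exact h3 z h (hy z)
    · exact h3 (fin s) hs (hb s (B_anti (hδ s hs) s hz))

/-! ### The space is not totally paracompact -/

/-- the members of the bad base -/
def C (α : K) (s : List K) : Set Tr :=
  {x | (∀ i < s.length, sq x i = s[i]?) ∧
    ∀ β, sq x s.length = some β → α < β ∨ (β = α ∧ ∃ z, x = inf z)}

theorem C_sub (α : K) (s : List K) : C α s ⊆ B α s := fun _ hx =>
  ⟨hx.1, fun β hβ => (hx.2 β hβ).elim (fun h => h.le) fun h => h.1.ge⟩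

theorem mem_C_self (α : K) (s : List K) : fin s ∈ C α s :=
  ⟨fun _ _ => rfl, fun β hβ => by simp [sq] at hβ⟩

theorem C_open (α : K) (s : List K) : IsOpen (C α s) := by
  intro t ht
  have h1 : ∀ β, sq (fin t) s.length = some β → α < β := by
    intro β hβ
    rcases ht.2 β hβ with h | ⟨-, z, hz⟩
    · exact h
    · exact absurd hz (by simp)
  by_cases hts : t = s
  · obtain ⟨γ, hγ⟩ := kbdd (ι := Unit) (Cardinal.mk_le_aleph0.trans aleph0_le_continuum) fun _ => α
    refine ⟨γ, fun x hx => ?_⟩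
    rw [hts] at hx
    exact ⟨hx.1, fun β hβ => Or.inl ((hγ ()).trans_le (hx.2 β hβ))⟩
  · refine ⟨α, fun x hx => ?_⟩
    have h3 := C_sub α s ht
    have h4 : s.length < t.length := by
      by_contra hle
      push Not at hle
      apply hts
      apply List.ext_getElem?
      intro i
      rcases lt_or_ge i s.length with hi | hi
      · exact h3.1 i hi
      · rw [List.getElem?_eq_none hi, List.getElem?_eq_none (hle.trans hi)]
    refine ⟨(B_sub h3 hts hx).1, fun β hβ => Or.inl (h1 β ?_)⟩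
    rw [← hβ, hx.1 _ h4]
    rfl

/-- the bad base -/
def bad : Set (Set Tr) := (range fun x : ℕ → K => ({inf x} : Set Tr)) ∪
  range fun p : K × List K => C p.1 p.2

theorem bad_basis : TopologicalSpace.IsTopologicalBasis bad := by
  refine TopologicalSpace.isTopologicalBasis_of_isOpen_of_nhds ?_ ?_
  · rintro _ (⟨x, rfl⟩ | ⟨p, rfl⟩)
    · exact isOpen_inf x
    · exact C_open _ _
  · intro x U hx hU
    rcases x with s | x
    · obtain ⟨α, hα⟩ := hU s hx
      exact ⟨C α s, Or.inr ⟨(α, s), rfl⟩, mem_C_self α s, (C_sub α s).trans hα⟩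
    · exact ⟨{inf x}, Or.inl ⟨x, rfl⟩, rfl, singleton_subset_iff.2 hx⟩

theorem tr_not_tp : ¬ TotallyParacompact Tr := by
  classical
  intro h
  obtain ⟨ℬ, hℬ, hcov, hlf⟩ := h bad bad_basis
  -- the least index
  let a : List K → K := fun s => if hs : ∃ α, C α s ∈ ℬ then
    wellFounded_lt.min {α | C α s ∈ ℬ} hs else Classical.arbitrary K
  have ha1 : ∀ s, (∃ α, C α s ∈ ℬ) → C (a s) s ∈ ℬ := by
    intro s hs
    have h1 : a s = wellFounded_lt.min {α | C α s ∈ ℬ} hs := dif_pos hs
    rw [h1]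
    exact wellFounded_lt.min_mem {α | C α s ∈ ℬ} hs
  have ha2 : ∀ s α, C α s ∈ ℬ → a s ≤ α := by
    intro s α hα
    have hs : ∃ α, C α s ∈ ℬ := ⟨α, hα⟩
    have h1 : a s = wellFounded_lt.min {α | C α s ∈ ℬ} hs := dif_pos hs
    rw [h1]
    exact not_lt.1 (wellFounded_lt.not_lt_min {α | C α s ∈ ℬ} hα)
  let P : ℕ → List K := fun n => Nat.rec [] (fun _ p => p ++ [a p]) n
  have hP : ∀ n, P (n + 1) = P n ++ [a (P n)] := fun n => rfl
  have hlen : ∀ n, (P n).length = n := by
    intro n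
    induction n with
    | zero => rfl
    | succ n ih => rw [hP, List.length_append, ih]; rfl
  have hget : ∀ n i, i < n → (P n)[i]? = some (a (P i)) := by
    intro n
    induction n with
    | zero => intro i hi; exact absurd hi (Nat.not_lt_zero i)
    | succ n ih =>
      intro i hi
      rw [hP]
      rcases Nat.lt_succ_iff_lt_or_eq.1 hi with h1 | rfl
      · rw [List.getElem?_append_left (by rw [hlen]; exact h1)]
        exact ih i h1
      · rw [List.getElem?_append_right (by rw [hlen]), hlen]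
        simp
  -- the finite sequences `P n` are covered by sets with the stem `P n`
  have h1 : ∀ n, ∃ α, C α (P n) ∈ ℬ := by
    intro n
    obtain ⟨S, hS, hx⟩ : fin (P n) ∈ ⋃₀ ℬ := hcov ▸ mem_univ _
    rcases hℬ hS with ⟨x, rfl⟩ | ⟨⟨α, t⟩, rfl⟩
    · exact absurd hx (by simp)
    · have hx' : fin (P n) ∈ C α t := hx
      have hS' : C α t ∈ ℬ := hS
      -- `t` is an initial segment of `P n`
      have h2 : t.length ≤ n := by
        by_contra hlt
        push Not at hlt
        have h3 := hx'.1 n hlt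
        have h4 : sq (fin (P n)) n = none := List.getElem?_eq_none (hlen n).le
        rw [h4, List.getElem?_eq_getElem hlt] at h3
        exact absurd h3 (by simp)
      have h3 : t = P t.length := by
        apply List.ext_getElem?
        intro i
        rcases lt_or_ge i t.length with hi | hi
        · rw [← hx'.1 i hi]
          show (P n)[i]? = _
          rw [hget n i (hi.trans_le h2), hget _ i hi]
        · rw [List.getElem?_eq_none hi, List.getElem?_eq_none (by rw [hlen]; exact hi)]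
      rcases h2.lt_or_eq with h4 | h4
      · exfalso
        have h5 : sq (fin (P n)) t.length = some (a (P t.length)) := hget n _ h4
        rcases hx'.2 _ h5 with h6 | ⟨-, z, hz⟩
        · rw [← h3] at h6
          exact absurd (ha2 t α hS') (not_le.2 h6)
        · exact absurd hz (by simp)
      · rw [h4] at h3
        exact ⟨α, h3 ▸ hS'⟩
  -- the infinite sequence
  let x : Tr := inf fun n => a (P n)
  have hxm : ∀ n, x ∈ C (a (P n)) (P n) := by
    intro n
    refine ⟨fun i hi => ?_, fun β hβ => Or.inr ⟨?_, _, rfl⟩⟩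
    · rw [hlen] at hi
      rw [hget n i hi]
      rfl
    · rw [hlen] at hβ
      exact (Option.some.inj hβ).symm
  obtain ⟨V, hV, hfin⟩ := hlf x
  have hxV : x ∈ V := mem_of_mem_nhds hV
  let f : ℕ → ℬ := fun n => ⟨C (a (P n)) (P n), ha1 _ (h1 n)⟩
  have hfinj : Function.Injective f := by
    have key : ∀ m n, m < n → f m ≠ f n := by
      intro m n hmn hfmn
      have h2 : C (a (P m)) (P m) = C (a (P n)) (P n) := congrArg Subtype.val hfmn
      have h3 : fin (P m) ∈ C (a (P n)) (P n) := h2 ▸ mem_C_self _ _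
      have h4 := h3.1 m (by rw [hlen]; exact hmn)
      have h5 : sq (fin (P m)) m = none := List.getElem?_eq_none (hlen m).le
      rw [h5, hget n m hmn] at h4
      exact absurd h4 (by simp)
    intro m n hmn
    rcases lt_trichotomy m n with h2 | h2 | h2
    · exact absurd hmn (key m n h2)
    · exact h2
    · exact absurd hmn.symm (key n m h2)
  refine (infinite_range_of_injective hfinj) (hfin.subset ?_)
  rintro _ ⟨n, rfl⟩
  exact ⟨x, hxm n, hxV⟩

end Pool.Agent.Q153.Ponag
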