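import Mathlib

/-! Definitions for the problem on completions of ray-generated ultrametric spaces. -/

open Set

namespace Pool.Agent.Q153.Star

/-- The metric space `X` is generated by the labeled tree `T(l)`: the distance of two distinct
points is the largest label on the path between them. -/
def GeneratedBy {X : Type*} [MetricSpace X] (T : SimpleGraph X) (l : X → ℝ) : Prop :=
  T.IsTree ∧ (∀ x, 0 ≤ l x) ∧
    ∀ u v, u ≠ v → ∀ p : T.Walk u v, p.IsPath → IsGreatest (l '' {w | w ∈ p.support}) (dist u v)

/-- The graph `R` is a ray: its vertices are listed by a bijection `x` from the natural numbers and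
its edges are the pairs of consecutive vertices. -/
def IsRay {V : Type*} (R : SimpleGraph V) : Prop :=
  ∃ x : ℕ → V, Function.Bijective x ∧
    ∀ u v, R.Adj u v ↔ ∃ n, (u = x n ∧ v = x (n + 1)) ∨ (v = x n ∧ u = x (n + 1))

/-- The graph `T` contains no ray as a subgraph. -/
def Rayless {V : Type*} (T : SimpleGraph V) : Prop :=
  ¬ ∃ x : ℕ → V, Function.Injective x ∧ ∀ n, T.Adj (x n) (x (n + 1))

/-- `T` is a tree and exactly one of its vertices has more than two neighbours. -/
def Starlike {V : Type*} (T : SimpleGraph V) : Prop :=
  T.IsTree ∧ ∃! v, 2 < (T.neighborSet v).encard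

/-- Condition (i): `X` is the completion of a totally bounded proper subset that is generated by a
labeled ray. -/
def CondI (X : Type*) [MetricSpace X] : Prop :=
  ∃ X₀ : Set X, X₀ ≠ univ ∧ TotallyBounded X₀ ∧
    (∃ (R : SimpleGraph X₀) (l : X₀ → ℝ), IsRay R ∧ GeneratedBy R l) ∧
    CompleteSpace X ∧ Dense X₀

/-- Condition (ii): `X` is compact and generated by a labeled starlike rayless tree. -/
def CondII (X : Type*) [MetricSpace X] : Prop :=
  CompactSpace X ∧
    ∃ (T : SimpleGraph X) (l : X → ℝ), Starlike T ∧ Rayless T ∧ GeneratedBy T l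

end Pool.Agent.Q153.Star
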