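import Mathlib
import Pool.Agent.Q153.PS
import Pool.Agent.Q153.StarDefs

/-! Completions of ray-generated spaces are generated by starlike rayless trees. -/

open Set Filter Topology

namespace Pool.Agent.Q153.Star

variable {X : Type*} [MetricSpace X]

theorem IsGreatest.iff_of_symm {T : SimpleGraph X} {l : X → ℝ} {u v : X}
    (h : ∀ p : T.Walk u v, p.IsPath → IsGreatest (l '' {w | w ∈ p.support}) (dist u v)) :
    ∀ p : T.Walk v u, p.IsPath → IsGreatest (l '' {w | w ∈ p.support}) (dist v u) := by
  intro p hp
  have := h p.reverse hp.reverse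
  rw [dist_comm v u]
  have hs : {w | w ∈ p.reverse.support} = {w | w ∈ p.support} := by
    ext w
    rw [Set.mem_ofPred_eq, Set.mem_ofPred_eq, SimpleGraph.Walk.support_reverse, List.mem_reverse]
  rwa [hs] at this

/-- The distance formula for a ray. -/
theorem ray_gen_iff {Y : Type*} [MetricSpace Y] (e : ℕ ≃ Y) {R : SimpleGraph Y}
    (hR : ∀ u v, R.Adj u v ↔ ∃ n, (u = e n ∧ v = e (n + 1)) ∨ (v = e n ∧ u = e (n + 1)))
    (l : Y → ℝ) :
    GeneratedBy R l ↔ (∀ x, 0 ≤ l x) ∧
      ∀ m n, m < n → IsGreatest ((fun i => l (e i)) '' Icc m n) (dist (e m) (e n)) := by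
  have hPS := ray_PS e hR
  have hT := hPS.isTree
  -- the support of the path from `e n` to `e m`
  have hsupp : ∀ m n, m < n → ∀ p : R.Walk (e n) (e m), p.IsPath →
      l '' {w | w ∈ p.support} = (fun i => l (e i)) '' Icc m n := by
    intro m n hmn p hp
    have h1 := hPS.support_vertical hT (v := e n) (w := e m) (k := n - m)
      (by simp) (by rw [ray_iter]; congr 1; omega) p hp
    ext r
    constructor
    · rintro ⟨w, hw, rfl⟩
      obtain ⟨i, hi, rfl⟩ := (h1 w).1 hw
      refine ⟨n - i, ⟨by omega, by omega⟩, ?_⟩
      rw [ray_iter]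
    · rintro ⟨i, ⟨hi1, hi2⟩, rfl⟩
      refine ⟨e i, (h1 _).2 ⟨n - i, by omega, ?_⟩, rfl⟩
      rw [ray_iter]
      congr 1
      omega
  constructor
  · rintro ⟨-, h0, hg⟩
    refine ⟨h0, fun m n hmn => ?_⟩
    have hne : e n ≠ e m := fun h => by
      have := e.injective h
      omega
    obtain ⟨p, hp, -⟩ := hT.existsUnique_path (e n) (e m)
    have := hg _ _ hne p hp
    rw [hsupp m n hmn p hp, dist_comm] at this
    exact this
  · rintro ⟨h0, hg⟩
    refine ⟨hT, h0, ?_⟩
    have hkey : ∀ m n, m < n → ∀ p : R.Walk (e n) (e m), p.IsPath →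
        IsGreatest (l '' {w | w ∈ p.support}) (dist (e n) (e m)) := by
      intro m n hmn p hp
      rw [hsupp m n hmn p hp, dist_comm]
      exact hg m n hmn
    intro u v huv p hp
    obtain ⟨a, rfl⟩ := e.surjective u
    obtain ⟨b, rfl⟩ := e.surjective v
    rcases lt_trichotomy a b with hab | rfl | hab
    · exact IsGreatest.iff_of_symm (hkey a b hab) p hp
    · exact (huv rfl).elim
    · exact hkey b a hab p hp

section

variable {f : ℕ → X} {L : ℕ → ℝ}

theorem labels_small (hH : ∀ m n, m < n → IsGreatest (L '' Icc m n) (dist (f m) (f n)))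
    (htb : TotallyBounded (range f)) {ε : ℝ} (hε : 0 < ε) : ∃ N, ∀ n ≥ N, L n < ε := by
  by_contra hcon
  push Not at hcon
  obtain ⟨t, ht, hcov⟩ := Metric.totallyBounded_iff.1 htb (ε / 2) (by linarith)
  have hinf : {n | ε ≤ L n}.Infinite := by
    rw [← Nat.frequently_atTop_iff_infinite, frequently_atTop]
    exact hcon
  have hex : ∀ n, ∃ y ∈ t, dist (f n) y < ε / 2 := by
    intro n
    have := hcov (mem_range_self n)
    simp only [mem_iUnion] at this
    obtain ⟨y, hy, hny⟩ := this
    exact ⟨y, hy, hny⟩
  choose g hgt hg using hex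
  obtain ⟨a, ha, b, hb, hab, hgab⟩ := hinf.exists_ne_map_eq_of_mapsTo (f := g) (t := t)
    (fun n _ => hgt n) ht
  have key : ∀ a b, a < b → ε ≤ L a → g a = g b → False := by
    intro a b hab ha hgab
    have h1 := (hH a b hab).2 ⟨a, ⟨le_rfl, hab.le⟩, rfl⟩
    have h2 := dist_triangle_right (f a) (f b) (g a)
    have h3 := hg a
    have h4 := hg b
    rw [← hgab] at h4
    linarith
  rcases lt_or_gt_of_ne hab with h | h
  · exact key a b h ha hgab
  · exact key b a h hb hgab.symm

theorem exists_limit [CompleteSpace X]
    (hH : ∀ m n, m < n → IsGreatest (L '' Icc m n) (dist (f m) (f n)))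
    (htb : TotallyBounded (range f)) : ∃ c, Tendsto f atTop (𝓝 c) := by
  apply cauchySeq_tendsto_of_complete
  rw [Metric.cauchySeq_iff']
  intro ε hε
  obtain ⟨N, hN⟩ := labels_small hH htb hε
  refine ⟨N, fun n hn => ?_⟩
  rcases eq_or_lt_of_le hn with rfl | h
  · rw [dist_self]
    exact hε
  · rw [dist_comm]
    obtain ⟨i, hi, hi'⟩ := (hH N n h).1
    rw [← hi']
    exact hN i hi.1

/-- The last index at which the supremum of a tail is attained. -/
theorem exists_last (hH : ∀ m n, m < n → IsGreatest (L '' Icc m n) (dist (f m) (f n)))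
    (hinj : Function.Injective f) (htb : TotallyBounded (range f)) (n : ℕ) :
    ∃ b, n ≤ b ∧ (∀ i, n ≤ i → L i ≤ L b) ∧ (∀ i, b < i → L i < L b) ∧ 0 < L b := by
  classical
  obtain ⟨k, hk, hkd⟩ := (hH n (n + 1) (Nat.lt_succ_self n)).1
  have hLk : 0 < L k := by
    rw [hkd]
    exact dist_pos.2 (fun h => by have := hinj h; omega)
  obtain ⟨N, hN⟩ := labels_small hH htb hLk
  have hkN : k < N := by
    by_contra h
    exact lt_irrefl _ (hN k (by omega))
  let F := Finset.Icc n N
  have hkF : k ∈ F := Finset.mem_Icc.2 ⟨hk.1, hkN.le⟩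
  obtain ⟨m, hm, hmax⟩ := Finset.exists_max_image F L ⟨k, hkF⟩
  let G := F.filter fun i => L i = L m
  have hG : G.Nonempty := ⟨m, Finset.mem_filter.2 ⟨hm, rfl⟩⟩
  have hbG := G.max'_mem hG
  obtain ⟨hbF, hbL⟩ := Finset.mem_filter.1 hbG
  refine ⟨G.max' hG, (Finset.mem_Icc.1 hbF).1, ?_, ?_, ?_⟩
  · intro i hi
    rw [hbL]
    by_cases hiN : i ≤ N
    · exact hmax i (Finset.mem_Icc.2 ⟨hi, hiN⟩)
    · exact (hN i (by omega)).le.trans (hmax k hkF)
  · intro i hi
    rw [hbL]
    by_cases hiN : i ≤ N
    · have hiF : i ∈ F := Finset.mem_Icc.2 ⟨by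
        have := (Finset.mem_Icc.1 hbF).1
        omega, hiN⟩
      refine lt_of_le_of_ne (hmax i hiF) fun h => ?_
      have := G.le_max' i (Finset.mem_filter.2 ⟨hiF, h⟩)
      omega
    · exact (hN i (by omega)).trans_le (hmax k hkF)
  · rw [hbL]
    exact hLk.trans_le (hmax k hkF)

end

/-- Condition (i) implies condition (ii). -/
theorem condII_of_condI (h : CondI X) : CondII X := by
  classical
  obtain ⟨X₀, hX₀, htb, ⟨R, l₀, ⟨x, hx, hR⟩, hgen⟩, hcomp, hdense⟩ := h
  let e : ℕ ≃ X₀ := Equiv.ofBijective x hx
  have hgen' := (ray_gen_iff e hR l₀).1 hgen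
  let f : ℕ → X := fun n => e n
  let L : ℕ → ℝ := fun n => l₀ (e n)
  have hH : ∀ m n, m < n → IsGreatest (L '' Icc m n) (dist (f m) (f n)) := hgen'.2
  have hL0 : ∀ n, 0 ≤ L n := fun n => hgen'.1 _
  have hinj : Function.Injective f := fun a b hab => e.injective (Subtype.ext hab)
  have hrange : range f = X₀ := by
    ext z
    constructor
    · rintro ⟨n, rfl⟩
      exact (e n).2
    · intro hz
      exact ⟨e.symm ⟨z, hz⟩, by simp [f]⟩
  have htb' : TotallyBounded (range f) := hrange ▸ htb
  obtain ⟨c, hc⟩ := exists_limit hH htb'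
  have hcompact : IsCompact (insert c (range f)) := hc.isCompact_insert_range
  have huniv : insert c (range f) = univ := by
    have h1 : IsClosed (insert c (range f)) := hcompact.isClosed
    have h2 : Dense (insert c (range f)) := by
      refine hdense.mono ?_
      rw [← hrange]
      exact subset_insert _ _
    rw [← h1.closure_eq]
    exact h2.closure_eq
  have hcX₀ : ∀ n, f n ≠ c := by
    intro n hn
    apply hX₀
    rw [← hrange, ← huniv]
    symm
    exact insert_eq_of_mem ⟨n, hn⟩
  have hcases : ∀ z : X, z = c ∨ ∃ n, z = f n := by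
    intro z
    have : z ∈ insert c (range f) := by rw [huniv]; trivial
    rcases this with h | ⟨n, hn⟩
    · exact Or.inl h
    · exact Or.inr ⟨n, hn.symm⟩
  choose b hb1 hb2 hb3 hb4 using exists_last hH hinj htb'
  have hbu : ∀ n m, n ≤ m → m ≤ b n → b m = b n := by
    intro n m hnm hmb
    have h1 := hb2 m (b n) hmb
    rcases lt_trichotomy (b m) (b n) with h | h | h
    · have := hb3 m _ h
      have h2 := hb2 n (b m) (hnm.trans (hb1 m))
      linarith
    · exact h
    · have h2 := hb3 n _ h
      linarith
  have hbu' : ∀ n m, b n < m → n ≤ m → b n < b m := by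
    intro n m h1 _
    exact lt_of_lt_of_le h1 (hb1 m)
  -- distances
  have hdist : ∀ m n, m < n → b m < n → dist (f m) (f n) = L (b m) := by
    intro m n hmn hbn
    refine (hH m n hmn).unique ⟨⟨b m, ⟨hb1 m, hbn.le⟩, rfl⟩, ?_⟩
    rintro _ ⟨i, hi, rfl⟩
    exact hb2 m i hi.1
  have hdistc : ∀ n, dist (f n) c = L (b n) := by
    intro n
    have h1 : Tendsto (fun m => dist (f n) (f m)) atTop (𝓝 (dist (f n) c)) :=
      tendsto_const_nhds.dist hc
    refine tendsto_nhds_unique h1 (tendsto_const_nhds.congr' ?_)
    filter_upwards [eventually_gt_atTop (b n)] with m hm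
    exact (hdist n m (lt_of_le_of_lt (hb1 n) hm) hm).symm
  -- the parent map
  let idx : X → ℕ := Function.invFun f
  have hidx : ∀ n, idx (f n) = n := Function.leftInverse_invFun hinj
  let π : X → X := fun z => if z = c then c else if b (idx z) = idx z then c else f (idx z + 1)
  let dep : X → ℕ := fun z => if z = c then 0 else b (idx z) - idx z + 1
  let lab : X → ℝ := fun z => if z = c then 0 else L (idx z)
  have hπc : π c = c := if_pos rfl
  have hπf : ∀ n, π (f n) = if b n = n then c else f (n + 1) := by
    intro n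
    show (if f n = c then c else if b (idx (f n)) = idx (f n) then c else f (idx (f n) + 1)) = _
    rw [if_neg (hcX₀ n), hidx]
  have hdepf : ∀ n, dep (f n) = b n - n + 1 := by
    intro n
    show (if f n = c then 0 else b (idx (f n)) - idx (f n) + 1) = _
    rw [if_neg (hcX₀ n), hidx]
  have hdepc : dep c = 0 := if_pos rfl
  have hlabf : ∀ n, lab (f n) = L n := by
    intro n
    show (if f n = c then 0 else L (idx (f n))) = _
    rw [if_neg (hcX₀ n), hidx]
  have hlabc : lab c = 0 := if_pos rfl
  have hds : ∀ v, v ≠ c → dep v = dep (π v) + 1 := by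
    intro v hv
    obtain ⟨n, rfl⟩ := (hcases v).resolve_left hv
    rw [hdepf, hπf]
    by_cases h : b n = n
    · rw [if_pos h, hdepc, h]
      omega
    · rw [if_neg h, hdepf]
      have h1 := hb1 n
      rw [hbu n (n + 1) (Nat.le_succ n) (by omega)]
      omega
  let T : SimpleGraph X :=
    { Adj := fun u v => (u ≠ c ∧ π u = v) ∨ (v ≠ c ∧ π v = u)
      symm := by
        constructor
        intro u v huv
        exact huv.symm
      loopless := by
        constructor
        intro u huu
        have h1 : u ≠ c ∧ π u = u := by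
          rcases huu with h | h
          · exact h
          · exact h
        have h2 := hds u h1.1
        rw [h1.2] at h2
        omega }
  have hPS : PS T c π dep := ⟨fun u v => Iff.rfl, hπc, hdepc, hds⟩
  have hT := hPS.isTree
  have hiter : ∀ n i, i ≤ b n - n → π^[i] (f n) = f (n + i) := by
    intro n i
    induction i with
    | zero => intro _; rfl
    | succ i ih =>
      intro hi
      rw [Function.iterate_succ_apply', ih (by omega), hπf]
      have h1 := hb1 n
      have h2 : b (n + i) = b n := hbu n (n + i) (by omega) (by omega)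
      rw [if_neg (by omega)]
      rfl
  have hiterc : ∀ n i, b n - n < i → π^[i] (f n) = c := by
    intro n i hi
    apply hPS.dep_eq_zero
    rw [hPS.dep_iter, hdepf]
    omega
  have hadjf : ∀ m n, T.Adj (f m) (f n) →
      (n = m + 1 ∧ b m ≠ m) ∨ (m = n + 1 ∧ b n ≠ n) := by
    intro m n h
    rcases h with ⟨-, h⟩ | ⟨-, h⟩
    · left
      rw [hπf] at h
      by_cases hbm : b m = m
      · rw [if_pos hbm] at h
        exact (hcX₀ n h.symm).elim
      · rw [if_neg hbm] at h
        exact ⟨(hinj h).symm, hbm⟩
    · right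
      rw [hπf] at h
      by_cases hbm : b n = n
      · rw [if_pos hbm] at h
        exact (hcX₀ m h.symm).elim
      · rw [if_neg hbm] at h
        exact ⟨(hinj h).symm, hbm⟩
  refine ⟨⟨huniv ▸ hcompact⟩, T, lab, ⟨hT, c, ?_, ?_⟩, ?_, hT, ?_, ?_⟩
  · -- the centre has infinitely many neighbours
    have hinf : (T.neighborSet c).Infinite := by
      have hsub : (fun n => f (b n)) '' univ ⊆ T.neighborSet c := by
        rintro _ ⟨n, -, rfl⟩
        refine Or.inr ⟨hcX₀ _, ?_⟩
        rw [hπf, if_pos (hbu n (b n) (hb1 n) le_rfl)]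
      refine Infinite.mono hsub ?_
      rw [image_univ]
      intro hfin
      have h2 : (range b).Finite := by
        have : range (fun n => f (b n)) = f '' range b := range_comp f b
        rw [this] at hfin
        exact hfin.of_finite_image hinj.injOn
      obtain ⟨M, hM⟩ := h2.bddAbove
      have h3 := hM ⟨M + 1, rfl⟩
      have h4 := hb1 (M + 1)
      omega
    show 2 < (T.neighborSet c).encard
    rw [hinf.encard_eq]
    exact ENat.natCast_lt_top 2
  · -- all other vertices have at most two neighbours
    intro v hv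
    by_contra hne
    obtain ⟨n, rfl⟩ := (hcases v).resolve_left hne
    have hsub : T.neighborSet (f n) ⊆ {π (f n), f (n - 1)} := by
      intro w hw
      rcases hw with ⟨-, h⟩ | ⟨hwc, h⟩
      · exact Or.inl h.symm
      · obtain ⟨m, rfl⟩ := (hcases w).resolve_left hwc
        right
        rw [hπf] at h
        by_cases hbm : b m = m
        · rw [if_pos hbm] at h
          exact (hcX₀ n h.symm).elim
        · rw [if_neg hbm] at h
          rw [mem_singleton_iff, ← hinj h]
          rfl
    have h1 := encard_le_encard hsub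
    have h2 : ({π (f n), f (n - 1)} : Set X).encard ≤ 2 := by
      refine (encard_insert_le _ _).trans ?_
      rw [encard_singleton]
      norm_num
    exact absurd hv (not_lt.2 (h1.trans h2))
  · -- rayless
    rintro ⟨y, hy, hyadj⟩
    obtain ⟨N, hN⟩ : ∃ N, ∀ n ≥ N, y n ≠ c := by
      by_cases h : ∃ n, y n = c
      · obtain ⟨n, hn⟩ := h
        refine ⟨n + 1, fun m hm hmc => ?_⟩
        have := hy (hn.trans hmc.symm)
        omega
      · push Not at h
        exact ⟨0, fun n _ => h n⟩
    have hex : ∀ n, ∃ a, y (N + n) = f a := fun n =>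
      (hcases _).resolve_left (hN _ (by omega))
    choose a ha using hex
    have hainj : Function.Injective a := by
      intro m n hmn
      have : y (N + m) = y (N + n) := by rw [ha, ha, hmn]
      have := hy this
      omega
    have hba : ∀ n, b (a n) = b (a 0) := by
      intro n
      induction n with
      | zero => rfl
      | succ n ih =>
        rw [← ih]
        have h1 : T.Adj (f (a n)) (f (a (n + 1))) := by
          rw [← ha, ← ha]
          exact hyadj (N + n)
        have hb := hb1 (a n)
        have hb' := hb1 (a (n + 1))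
        rcases hadjf _ _ h1 with ⟨h, h'⟩ | ⟨h, h'⟩
        · exact hbu _ _ (by omega) (by omega)
        · exact (hbu _ _ (by omega) (by omega)).symm
    have hfin : (range a).Finite := by
      refine (finite_Iic (b (a 0))).subset ?_
      rintro _ ⟨n, rfl⟩
      show a n ≤ b (a 0)
      rw [← hba n]
      exact hb1 _
    exact infinite_range_of_injective hainj hfin
  · intro z
    rcases hcases z with rfl | ⟨n, rfl⟩
    · rw [hlabc]
    · rw [hlabf]
      exact hL0 n
  · -- the distances
    have hQ1 : ∀ n, ∀ p : T.Walk (f n) c, p.IsPath →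
        IsGreatest (lab '' {w | w ∈ p.support}) (dist (f n) c) := by
      intro n p hp
      have h1 := hPS.support_vertical hT (v := f n) (w := c) (k := dep (f n)) le_rfl
        (hPS.iter_dep _) p hp
      have hbn := hb1 n
      rw [hdistc]
      constructor
      · refine ⟨f (b n), (h1 _).2 ⟨b n - n, ?_, ?_⟩, hlabf _⟩
        · rw [hdepf]
          omega
        · rw [hiter n _ le_rfl]
          congr 1
          omega
      · rintro _ ⟨w, hw, rfl⟩
        obtain ⟨i, hi, rfl⟩ := (h1 w).1 hw
        by_cases hib : i ≤ b n - n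
        · rw [hiter n i hib, hlabf]
          exact hb2 n _ (by omega)
        · rw [hiterc n i (by omega), hlabc]
          exact (hb4 n).le
    have hQ2 : ∀ m n, m < n → ∀ p : T.Walk (f m) (f n), p.IsPath →
        IsGreatest (lab '' {w | w ∈ p.support}) (dist (f m) (f n)) := by
      intro m n hmn p hp
      have hbm := hb1 m
      have hbn := hb1 n
      by_cases hnb : n ≤ b m
      · have h1 := hPS.support_vertical hT (v := f m) (w := f n) (k := n - m)
          (by rw [hdepf]; omega) (by rw [hiter m _ (by omega)]; congr 1; omega) p hp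
        have h2 : lab '' {w | w ∈ p.support} = L '' Icc m n := by
          ext r
          constructor
          · rintro ⟨w, hw, rfl⟩
            obtain ⟨i, hi, rfl⟩ := (h1 w).1 hw
            rw [hiter m i (by omega), hlabf]
            exact ⟨m + i, ⟨by omega, by omega⟩, rfl⟩
          · rintro ⟨i, ⟨hi1, hi2⟩, rfl⟩
            refine ⟨f i, (h1 _).2 ⟨i - m, by omega, ?_⟩, hlabf i⟩
            rw [hiter m _ (by omega)]
            congr 1
            omega
        rw [h2]
        exact hH m n hmn
      · have hbmn : b m < b n := by omega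
        have h1 := hPS.support_junction hT (u := f m) (v := f n) (by
          intro i j hij
          by_cases hi : i ≤ b m - m
          · by_cases hj : j ≤ b n - n
            · rw [hiter m i hi, hiter n j hj] at hij
              have := hinj hij
              omega
            · rw [hij, hiterc n j (by omega)]
          · exact hiterc m i (by omega)) p hp
        rw [hdist m n hmn (by omega)]
        constructor
        · refine ⟨f (b m), (h1 _).2 (Or.inl ⟨b m - m, ?_, ?_⟩), hlabf _⟩
          · rw [hdepf]
            omega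
          · rw [hiter m _ le_rfl]
            congr 1
            omega
        · rintro _ ⟨w, hw, rfl⟩
          rcases (h1 w).1 hw with ⟨i, hi, rfl⟩ | ⟨j, hj, rfl⟩
          · by_cases hib : i ≤ b m - m
            · rw [hiter m i hib, hlabf]
              exact hb2 m _ (by omega)
            · rw [hiterc m i (by omega), hlabc]
              exact (hb4 m).le
          · by_cases hjb : j ≤ b n - n
            · rw [hiter n j hjb, hlabf]
              exact hb2 m _ (by omega)
            · rw [hiterc n j (by omega), hlabc]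
              exact (hb4 m).le
    intro u v huv p hp
    rcases hcases u with rfl | ⟨m, rfl⟩
    · rcases hcases v with rfl | ⟨n, rfl⟩
      · exact (huv rfl).elim
      · exact IsGreatest.iff_of_symm (hQ1 n) p hp
    · rcases hcases v with rfl | ⟨n, rfl⟩
      · exact hQ1 m p hp
      · rcases lt_trichotomy m n with h | rfl | h
        · exact hQ2 m n h p hp
        · exact (huv rfl).elim
        · exact IsGreatest.iff_of_symm (hQ2 n m h) p hp

end Pool.Agent.Q153.Star
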