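import Mathlib
import Pool.Agent.Q153.PS
import Pool.Agent.Q153.StarDefs
import Pool.Agent.Q153.StarB

/-! Compact spaces generated by starlike rayless trees are completions of ray-generated spaces. -/

open Set Filter Topology

namespace Pool.Agent.Q153.Star

/-- An infinite set with an injective key in a linear order all of whose initial segments are finite
can be listed in the order of the keys. -/
theorem exists_enum {Y K : Type*} [Infinite Y] [LinearOrder K] (key : Y → K)
    (hinj : Function.Injective key) (hfin : ∀ y, {w | key w < key y}.Finite) :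
    ∃ e : ℕ ≃ Y, ∀ m n, m < n ↔ key (e m) < key (e n) := by
  classical
  let N : Y → ℕ := fun y => {w | key w < key y}.ncard
  have hmono : ∀ u v, key u < key v → N u < N v := by
    intro u v huv
    refine ncard_lt_ncard ⟨fun w hw => lt_trans hw huv, fun h => ?_⟩ (hfin v)
    exact lt_irrefl _ (h huv : key u < key u)
  have hN : Function.Injective N := by
    intro u v huv
    rcases lt_trichotomy (key u) (key v) with h | h | h
    · exact absurd huv (hmono u v h).ne
    · exact hinj h
    · exact absurd huv (hmono v u h).ne'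
  have hmono' : ∀ u v, key u < key v ↔ N u < N v := by
    intro u v
    refine ⟨hmono u v, fun h => ?_⟩
    rcases lt_trichotomy (key u) (key v) with h' | h' | h'
    · exact h'
    · rw [hinj h'] at h
      exact absurd h (lt_irrefl _)
    · exact absurd (hmono v u h') (not_lt.2 h.le)
  have hinf : Infinite (range N) := (infinite_range_of_injective hN).to_subtype
  let o : ℕ ≃o range N := Nat.Subtype.orderIsoOfNat (range N)
  let g : Y ≃ range N := Equiv.ofInjective N hN
  refine ⟨o.toEquiv.trans g.symm, fun m n => ?_⟩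
  rw [hmono']
  have h1 : ∀ k, N ((o.toEquiv.trans g.symm) k) = (o k : ℕ) := by
    intro k
    have : g (g.symm (o k)) = o k := g.apply_symm_apply _
    exact congrArg Subtype.val this
  rw [h1, h1, Subtype.coe_lt_coe, o.lt_iff_lt]

variable {X : Type*} [MetricSpace X]

/-- Condition (ii) implies condition (i). -/
theorem condI_of_condII [IsUltrametricDist X] [Infinite X] (h : CondII X) : CondI X := by
  classical
  obtain ⟨hcomp, T, l, ⟨hT, c, hc, hcu⟩, hray, -, hl0, hgen⟩ := h
  obtain ⟨π, dep, hPS⟩ := PS.exists_of_isTree hT c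
  -- each vertex other than `c` has at most one child
  have hchild : ∀ a b, π a = π b → π a ≠ c → a = b := by
    intro a b hab hac
    by_contra hne
    have ha : a ≠ c := by
      rintro rfl
      exact hac hPS.pc
    have hb : b ≠ c := by
      rintro rfl
      exact hac (hab.trans hPS.pc)
    have hda := hPS.ds a ha
    have hdb := hPS.ds b hb
    have hdw := hPS.ds (π a) hac
    have h1 : ({a, b, π (π a)} : Set X) ⊆ T.neighborSet (π a) := by
      intro z hz
      rcases hz with rfl | rfl | rfl
      · exact (hPS.adj_parent ha).symm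
      · rw [hab]
        exact (hPS.adj_parent hb).symm
      · exact hPS.adj_parent hac
    have h2 : ({a, b, π (π a)} : Set X).encard = 3 := by
      rw [encard_eq_three]
      refine ⟨a, b, π (π a), hne, ?_, ?_, rfl⟩
      · intro h
        have h' := congrArg dep h
        omega
      · intro h
        have h' := congrArg dep h
        have h'' := congrArg dep hab
        omega
    have h3 := encard_le_encard h1
    rw [h2] at h3
    have h4 : 2 < (T.neighborSet (π a)).encard := lt_of_lt_of_le (by norm_num) h3
    exact hac (hcu _ h4)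
  have hchildk : ∀ k a b, π^[k] a = π^[k] b → π^[k] a ≠ c → a = b := by
    intro k
    induction k with
    | zero => intro a b h _; exact h
    | succ k ih =>
      intro a b h h'
      rw [Function.iterate_succ_apply', Function.iterate_succ_apply'] at h
      rw [Function.iterate_succ_apply'] at h'
      have h1 := hchild _ _ h h'
      refine ih a b h1 fun h2 => h' ?_
      rw [h2, hPS.pc]
  -- arms
  let arm : X → X := fun v => π^[dep v - 1] v
  have harmne : ∀ v, v ≠ c → arm v ≠ c := by
    intro v hv
    have := hPS.dep_pos_iff.2 hv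
    exact hPS.iter_ne (by omega)
  have harmi : ∀ v i, i < dep v → arm (π^[i] v) = arm v := by
    intro v i hi
    show π^[dep (π^[i] v) - 1] (π^[i] v) = π^[dep v - 1] v
    rw [hPS.dep_iter, ← Function.iterate_add_apply]
    congr 1
    omega
  have harmc : ∀ u v, u ≠ c → v ≠ c → arm u = arm v → dep v ≤ dep u →
      v = π^[dep u - dep v] u := by
    intro u v hu hv huv hd
    have hdu := hPS.dep_pos_iff.2 hu
    have hdv := hPS.dep_pos_iff.2 hv
    refine hchildk (dep v - 1) _ _ ?_ (harmne v hv)
    rw [← Function.iterate_add_apply]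
    have h1 : dep v - 1 + (dep u - dep v) = dep u - 1 := by omega
    rw [h1]
    exact huv.symm
  have hdisj : ∀ u v, u ≠ c → v ≠ c → arm u ≠ arm v →
      ∀ i j, π^[i] u = π^[j] v → π^[i] u = c := by
    intro u v _ _ huv i j hij
    by_contra hne
    apply huv
    have hi : i < dep u := by
      by_contra h
      exact hne (hPS.dep_eq_zero (by rw [hPS.dep_iter]; omega))
    have hj : j < dep v := by
      by_contra h
      exact hne (hPS.dep_eq_zero (by rw [hij, hPS.dep_iter]; omega))
    rw [← harmi u i hi, ← harmi v j hj, hij]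
  -- distances
  let ρ : X → ℝ := fun v => dist v c
  have hρpos : ∀ v, v ≠ c → 0 < ρ v := fun v hv => dist_pos.2 hv
  have hR3 : ∀ v k, k ≤ dep v → v ≠ π^[k] v →
      IsGreatest (l '' {z | ∃ i ≤ k, z = π^[i] v}) (dist v (π^[k] v)) := by
    intro v k hk hne
    obtain ⟨p, hp, -⟩ := hT.existsUnique_path v (π^[k] v)
    have h1 := hgen v _ hne p hp
    have h2 : {w | w ∈ p.support} = {z | ∃ i ≤ k, z = π^[i] v} := by
      ext z
      exact hPS.support_vertical hT hk rfl p hp z
    rwa [h2] at h1
  have hR1 : ∀ v, v ≠ c → IsGreatest (l '' {z | ∃ i ≤ dep v, z = π^[i] v}) (ρ v) := by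
    intro v hv
    have := hR3 v (dep v) le_rfl (by rw [hPS.iter_dep]; exact hv)
    rwa [hPS.iter_dep] at this
  have hR2 : ∀ u v, u ≠ c → v ≠ c → arm u ≠ arm v →
      IsGreatest (l '' {z | (∃ i ≤ dep u, z = π^[i] u) ∨ (∃ j ≤ dep v, z = π^[j] v)})
        (dist u v) := by
    intro u v hu hv huv
    obtain ⟨p, hp, -⟩ := hT.existsUnique_path u v
    have h1 := hgen u v (fun h => huv (by rw [h])) p hp
    have h2 : {w | w ∈ p.support} =
        {z | (∃ i ≤ dep u, z = π^[i] u) ∨ (∃ j ≤ dep v, z = π^[j] v)} := by
      ext z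
      exact hPS.support_junction hT (hdisj u v hu hv huv) p hp z
    rwa [h2] at h1
  have hR2' : ∀ u v, u ≠ c → v ≠ c → arm u ≠ arm v → ρ u ≤ dist u v := by
    intro u v hu hv huv
    obtain ⟨z, ⟨i, hi, rfl⟩, hz⟩ := (hR1 u hu).1
    rw [← hz]
    exact (hR2 u v hu hv huv).2 ⟨_, Or.inl ⟨i, hi, rfl⟩, rfl⟩
  -- only finitely many points are far from `c`
  have hfin : ∀ ε > 0, {v | v ≠ c ∧ ε ≤ ρ v}.Finite := by
    intro ε hε
    by_contra hinf
    have hinf' : {v | v ≠ c ∧ ε ≤ ρ v}.Infinite := hinf
    obtain ⟨t, ht, hcov⟩ := Metric.totallyBounded_iff.1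
      (isCompact_univ (X := X)).totallyBounded (ε / 2) (by linarith)
    obtain ⟨y, hyt, hy⟩ : ∃ y ∈ t, ({v | v ≠ c ∧ ε ≤ ρ v} ∩ Metric.ball y (ε / 2)).Infinite := by
      by_contra hcon
      push Not at hcon
      apply hinf'
      refine (ht.biUnion (t := fun y => {v | v ≠ c ∧ ε ≤ ρ v} ∩ Metric.ball y (ε / 2))
        fun y hy => hcon y hy).subset ?_
      intro v hv
      obtain ⟨y, hy, hvy⟩ := mem_iUnion₂.1 (hcov (mem_univ v))
      exact mem_iUnion₂.2 ⟨y, hy, hv, hvy⟩
    set C := {v | v ≠ c ∧ ε ≤ ρ v} ∩ Metric.ball y (ε / 2) with hC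
    have harmC : ∀ u ∈ C, ∀ v ∈ C, arm u = arm v := by
      intro u hu v hv
      by_contra hne
      have h1 := hR2' u v hu.1.1 hv.1.1 hne
      have h2 := hu.1.2
      have h3 : dist u y < ε / 2 := hu.2
      have h4 : dist v y < ε / 2 := hv.2
      have h5 := dist_triangle_right u v y
      linarith
    have hdepC : InjOn dep C := by
      intro u hu v hv huv
      have := harmc u v hu.1.1 hv.1.1 (harmC u hu v hv) huv.ge
      rw [huv, Nat.sub_self] at this
      exact this.symm
    have hunb : ∀ k, ∃ v ∈ C, k < dep v := by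
      intro k
      by_contra hcon
      push Not at hcon
      apply hy
      refine Finite.of_finite_image ((finite_Iic k).subset ?_) hdepC
      rintro _ ⟨v, hv, rfl⟩
      exact hcon v hv
    choose g hgC hgd using hunb
    apply hray
    let y' : ℕ → X := fun k => π^[dep (g k) - (k + 1)] (g k)
    have hydep : ∀ k, dep (y' k) = k + 1 := by
      intro k
      show dep (π^[dep (g k) - (k + 1)] (g k)) = k + 1
      rw [hPS.dep_iter]
      have := hgd k
      omega
    have hyc : ∀ k, y' k ≠ c := by
      intro k
      rw [← hPS.dep_pos_iff, hydep]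
      omega
    have hyarm : ∀ k, arm (y' k) = arm (g k) := by
      intro k
      apply harmi
      have := hgd k
      omega
    have harmall : ∀ j k, arm (y' j) = arm (y' k) := by
      intro j k
      rw [hyarm, hyarm]
      exact harmC _ (hgC j) _ (hgC k)
    refine ⟨y', ?_, ?_⟩
    · intro j k hjk
      have h1 := hydep j
      have h2 := hydep k
      rw [hjk] at h1
      omega
    · intro k
      have h1 : y' k = π^[dep (y' (k + 1)) - dep (y' k)] (y' (k + 1)) := by
        apply harmc _ _ (hyc _) (hyc _) (harmall _ _)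
        rw [hydep, hydep]
        omega
      rw [hydep, hydep] at h1
      have h2 : k + 1 + 1 - (k + 1) = 1 := by omega
      rw [h2] at h1
      rw [show y' k = π (y' (k + 1)) from h1]
      exact (hPS.adj_parent (hyc _)).symm
  -- the label of `c` is zero
  have hlc : l c = 0 := by
    by_contra hne
    have hpos : 0 < l c := lt_of_le_of_ne (hl0 c) (Ne.symm hne)
    have h1 := hfin (l c) hpos
    have h2 : (univ : Set X) ⊆ insert c {v | v ≠ c ∧ l c ≤ ρ v} := by
      intro v _
      by_cases hv : v = c
      · exact Or.inl hv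
      · exact Or.inr ⟨hv, (hR1 v hv).2 ⟨c, ⟨dep v, le_rfl, (hPS.iter_dep v).symm⟩, rfl⟩⟩
    exact infinite_univ ((h1.insert c).subset h2)
  have hlρ : ∀ v, v ≠ c → l v ≤ ρ v := fun v hv => (hR1 v hv).2 ⟨v, ⟨0, Nat.zero_le _, rfl⟩, rfl⟩
  have hρi : ∀ v i, i < dep v → ρ (π^[i] v) ≤ ρ v := by
    intro v i hi
    have hv : v ≠ c := hPS.dep_pos_iff.1 (by omega)
    have hic := hPS.iter_ne hi
    obtain ⟨z, ⟨j, hj, rfl⟩, hz⟩ := (hR1 _ hic).1
    rw [hPS.dep_iter] at hj
    rw [← hz]
    refine (hR1 v hv).2 ⟨_, ⟨j + i, by omega, ?_⟩, rfl⟩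
    rw [Function.iterate_add_apply]
  have hpeak : ∀ v, v ≠ c → ∃ j < dep v, l (π^[j] v) = ρ v := by
    intro v hv
    obtain ⟨z, ⟨j, hj, rfl⟩, hz⟩ := (hR1 v hv).1
    refine ⟨j, ?_, hz⟩
    rcases eq_or_lt_of_le hj with h | h
    · exfalso
      rw [h, hPS.iter_dep, hlc] at hz
      exact absurd hz (hρpos v hv).ne
    · exact h
  -- `X` is countable
  have hcount : Countable X := by
    have h1 : (univ : Set X) ⊆ insert c (⋃ n : ℕ, {v | v ≠ c ∧ 1 / ((n : ℝ) + 1) ≤ ρ v}) := by
      intro v _
      by_cases hv : v = c
      · exact Or.inl hv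
      · obtain ⟨n, hn⟩ := exists_nat_one_div_lt (hρpos v hv)
        exact Or.inr (mem_iUnion.2 ⟨n, hv, hn.le⟩)
    have h2 : (insert c (⋃ n : ℕ, {v | v ≠ c ∧ 1 / ((n : ℝ) + 1) ≤ ρ v})).Countable :=
      (countable_iUnion fun n => (hfin _ (by positivity)).countable).insert c
    exact countable_univ_iff.1 (h2.mono h1)
  obtain ⟨code, hcode⟩ := exists_injective_nat X
  let key : X → ℝ ×ₗ (ℕ ×ₗ ℤ) := fun v => toLex (-ρ v, toLex (code (arm v), -(dep v : ℤ)))
  have hkeylt : ∀ u v, key u < key v ↔ (ρ v < ρ u ∨ (ρ u = ρ v ∧
      (code (arm u) < code (arm v) ∨ (arm u = arm v ∧ dep v < dep u)))) := by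
    intro u v
    show toLex (-ρ u, toLex (code (arm u), -(dep u : ℤ))) <
      toLex (-ρ v, toLex (code (arm v), -(dep v : ℤ))) ↔ _
    rw [Prod.Lex.toLex_lt_toLex, Prod.Lex.toLex_lt_toLex]
    simp only [neg_lt_neg_iff, neg_inj, Nat.cast_lt, hcode.eq_iff]
  have hkeyinj : ∀ u v, u ≠ c → v ≠ c → key u = key v → u = v := by
    intro u v hu hv huv
    have h1 : ¬ key u < key v := by rw [huv]; exact lt_irrefl _
    have h2 : ¬ key v < key u := by rw [huv]; exact lt_irrefl _
    rw [hkeylt] at h1 h2
    push Not at h1 h2
    have h3 : ρ u = ρ v := le_antisymm h1.1 h2.1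
    have h4 := h1.2 h3
    have h5 := h2.2 h3.symm
    have h6 : arm u = arm v := hcode (le_antisymm h5.1 h4.1)
    have h7 : dep u = dep v := le_antisymm (h4.2 h6) (h5.2 h6.symm)
    have h8 := harmc u v hu hv h6 h7.ge
    rw [h7, Nat.sub_self] at h8
    exact h8.symm
  have hkeyρ : ∀ u v, key u ≤ key v → ρ v ≤ ρ u := by
    intro u v huv
    by_contra hlt
    push Not at hlt
    have : key v < key u := (hkeylt v u).2 (Or.inl hlt)
    exact absurd this (not_lt.2 huv)
  -- the main property of the order
  have hmain : ∀ u v, u ≠ c → v ≠ c → key u < key v →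
      IsGreatest (l '' {w | w ≠ c ∧ key u ≤ key w ∧ key w ≤ key v}) (dist u v) := by
    intro u v hu hv huv
    have hρ := hkeyρ u v huv.le
    by_cases hcase : ρ u = ρ v ∧ arm u = arm v
    · obtain ⟨hρe, harm⟩ := hcase
      have hdep : dep v < dep u := by
        rcases (hkeylt u v).1 huv with h | ⟨-, h | h⟩
        · linarith
        · rw [harm] at h
          exact absurd h (lt_irrefl _)
        · exact h.2
      have hvu := harmc u v hu hv harm hdep.le
      have h1 := hR3 u (dep u - dep v) (Nat.sub_le _ _) (by
        rw [← hvu]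
        rintro rfl
        exact lt_irrefl _ hdep)
      rw [← hvu] at h1
      have h2 : {w | w ≠ c ∧ key u ≤ key w ∧ key w ≤ key v} =
          {z | ∃ i ≤ dep u - dep v, z = π^[i] u} := by
        ext w
        constructor
        · rintro ⟨hw, h3, h4⟩
          have h5 : ρ w = ρ u := le_antisymm (hkeyρ _ _ h3) (hρe ▸ hkeyρ _ _ h4)
          have h6 : arm w = arm u := by
            apply hcode
            apply le_antisymm
            · by_contra hlt
              push Not at hlt
              have : key v < key w := (hkeylt v w).2 (Or.inr ⟨by rw [h5, hρe],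
                Or.inl (by rw [← harm]; exact hlt)⟩)
              exact absurd this (not_lt.2 h4)
            · by_contra hlt
              push Not at hlt
              have : key w < key u := (hkeylt w u).2 (Or.inr ⟨h5, Or.inl hlt⟩)
              exact absurd this (not_lt.2 h3)
          have h7 : dep w ≤ dep u := by
            by_contra hlt
            push Not at hlt
            have : key w < key u := (hkeylt w u).2 (Or.inr ⟨h5, Or.inr ⟨h6, hlt⟩⟩)
            exact absurd this (not_lt.2 h3)
          have h8 : dep v ≤ dep w := by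
            by_contra hlt
            push Not at hlt
            have : key v < key w := (hkeylt v w).2 (Or.inr ⟨by rw [h5, hρe],
              Or.inr ⟨by rw [h6, harm], hlt⟩⟩)
            exact absurd this (not_lt.2 h4)
          exact ⟨dep u - dep w, by omega, harmc u w hu hw h6.symm h7⟩
        · rintro ⟨i, hi, rfl⟩
          have hdv := hPS.dep_pos_iff.2 hv
          have hilt : i < dep u := by omega
          have h5 : ρ (π^[i] u) = ρ u := by
            apply le_antisymm (hρi u i hilt)
            rw [hρe, hvu]
            have h9 : dep u - dep v = (dep u - dep v - i) + i := by omega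
            rw [h9, Function.iterate_add_apply]
            apply hρi
            rw [hPS.dep_iter]
            omega
          have h6 := harmi u i hilt
          have h7 := hPS.dep_iter u i
          refine ⟨hPS.iter_ne hilt, ?_, ?_⟩
          · by_contra hlt
            push Not at hlt
            rcases (hkeylt _ _).1 hlt with h | ⟨-, h | ⟨-, h⟩⟩
            · rw [h5] at h
              exact lt_irrefl _ h
            · rw [h6] at h
              exact lt_irrefl _ h
            · omega
          · by_contra hlt
            push Not at hlt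
            rcases (hkeylt _ _).1 hlt with h | ⟨-, h | ⟨-, h⟩⟩
            · rw [h5, hρe] at h
              exact lt_irrefl _ h
            · rw [h6, harm] at h
              exact lt_irrefl _ h
            · omega
      rw [h2]
      exact h1
    · -- the distance is `ρ u`
      have hdist : dist u v = ρ u := by
        by_cases harm : arm u = arm v
        · have hne : ρ v < ρ u := lt_of_le_of_ne hρ (fun h => hcase ⟨h.symm, harm⟩)
          have h1 : dist u c ≤ max (dist u v) (dist v c) := dist_triangle_max u v c
          have h2 : dist u v ≤ max (dist u c) (dist c v) := dist_triangle_max u c v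
          rw [dist_comm c v] at h2
          apply le_antisymm
          · exact h2.trans (max_le le_rfl hρ)
          · rcases le_max_iff.1 h1 with h | h
            · exact h
            · exact absurd hne (not_lt.2 h)
        · apply le_antisymm
          · obtain ⟨z, hz, hz'⟩ := (hR2 u v hu hv harm).1
            rw [← hz']
            rcases hz with ⟨i, hi, rfl⟩ | ⟨j, hj, rfl⟩
            · exact (hR1 u hu).2 ⟨_, ⟨i, hi, rfl⟩, rfl⟩
            · exact ((hR1 v hv).2 ⟨_, ⟨j, hj, rfl⟩, rfl⟩).trans hρ
          · exact hR2' u v hu hv harm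
      rw [hdist]
      constructor
      · obtain ⟨j, hj, hjl⟩ := hpeak u hu
        have hjc := hPS.iter_ne hj
        have h1 : ρ (π^[j] u) = ρ u := le_antisymm (hρi u j hj) (hjl ▸ hlρ _ hjc)
        have h2 := harmi u j hj
        have h3 := hPS.dep_iter u j
        refine ⟨_, ⟨hjc, ?_, ?_⟩, hjl⟩
        · by_contra hlt
          push Not at hlt
          rcases (hkeylt _ _).1 hlt with h | ⟨-, h | ⟨-, h⟩⟩
          · rw [h1] at h
            exact lt_irrefl _ h
          · rw [h2] at h
            exact lt_irrefl _ h
          · omega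
        · apply le_of_lt
          rw [hkeylt, h1, h2]
          rcases (hkeylt _ _).1 huv with h | ⟨h, h' | ⟨h', -⟩⟩
          · exact Or.inl h
          · exact Or.inr ⟨h, Or.inl h'⟩
          · exact (hcase ⟨h, h'⟩).elim
      · rintro _ ⟨w, ⟨hw, h3, -⟩, rfl⟩
        exact (hlρ w hw).trans (hkeyρ _ _ h3)
  -- the enumeration
  have hinfY : Infinite ({c}ᶜ : Set X) := (finite_singleton c).infinite_compl.to_subtype
  obtain ⟨e, he⟩ := exists_enum (Y := ({c}ᶜ : Set X)) (fun v => key v)
    (fun u v huv => Subtype.ext (hkeyinj u v u.2 v.2 huv)) (by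
      intro y
      have hyc : (y : X) ≠ c := y.2
      have h1 : {w : ({c}ᶜ : Set X) | key w < key y} ⊆
          Subtype.val ⁻¹' {v | v ≠ c ∧ ρ y ≤ ρ v} := by
        intro w hw
        exact ⟨w.2, hkeyρ _ _ (le_of_lt hw)⟩
      exact ((hfin _ (hρpos _ hyc)).preimage Subtype.val_injective.injOn).subset h1)
  have hle : ∀ m n, m ≤ n ↔ key (e m) ≤ key (e n) := by
    intro m n
    rw [← not_lt, ← not_lt, he]
  let R : SimpleGraph ({c}ᶜ : Set X) :=
    { Adj := fun u v => ∃ n, (u = e n ∧ v = e (n + 1)) ∨ (v = e n ∧ u = e (n + 1))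
      symm := by
        constructor
        rintro u v ⟨n, hn⟩
        exact ⟨n, hn.symm⟩
      loopless := by
        constructor
        rintro u ⟨n, hn⟩
        have : e n = e (n + 1) := by
          rcases hn with ⟨h1, h2⟩ | ⟨h1, h2⟩
          · exact h1.symm.trans h2
          · exact h1.symm.trans h2
        have := e.injective this
        omega }
  refine ⟨{c}ᶜ, ?_, ?_, ⟨R, fun v => l v, ⟨e, e.bijective, fun u v => Iff.rfl⟩, ?_⟩,
    inferInstance, ?_⟩
  · intro h
    have : c ∈ ({c}ᶜ : Set X) := by rw [h]; trivial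
    exact this rfl
  · exact (isCompact_univ (X := X)).totallyBounded.subset (subset_univ _)
  · rw [ray_gen_iff e (fun u v => Iff.rfl)]
    refine ⟨fun x => hl0 x, fun m n hmn => ?_⟩
    have h1 := hmain (e m) (e n) (e m).2 (e n).2 ((he m n).1 hmn)
    have h2 : l '' {w | w ≠ c ∧ key (e m) ≤ key w ∧ key w ≤ key (e n)} =
        (fun i => l (e i)) '' Icc m n := by
      ext r
      constructor
      · rintro ⟨w, ⟨hw, h3, h4⟩, rfl⟩
        refine ⟨e.symm ⟨w, hw⟩, ⟨?_, ?_⟩, by simp⟩
        · rw [hle, e.apply_symm_apply]
          exact h3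
        · rw [hle, e.apply_symm_apply]
          exact h4
      · rintro ⟨i, ⟨h3, h4⟩, rfl⟩
        exact ⟨e i, ⟨(e i).2, (hle _ _).1 h3, (hle _ _).1 h4⟩, rfl⟩
    rw [h2] at h1
    exact h1
  · rw [Metric.dense_iff]
    intro x r hr
    by_cases hx : x = c
    · subst hx
      by_contra hcon
      have h1 : (univ : Set X) ⊆ insert x {v | v ≠ x ∧ r ≤ ρ v} := by
        intro v _
        by_cases hv : v = x
        · exact Or.inl hv
        · right
          refine ⟨hv, ?_⟩
          by_contra hlt
          push Not at hlt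
          exact hcon ⟨v, hlt, hv⟩
      exact infinite_univ (((hfin r hr).insert x).subset h1)
    · exact ⟨x, Metric.mem_ball_self hr, hx⟩

end Pool.Agent.Q153.Star
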