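import Mathlib

/-!
Turánable oriented graphs: definitions and the regular tournament of three transitive pieces which
avoids the categorical products of large powers of cycles and iterated blow-ups of the triangle.
-/

set_option autoImplicit false

namespace Pool.Agent.Q153.Turan

/-- An oriented graph on the vertex set `V`: loopless, and at most one of the edges `uv`, `vu` is
present. -/
structure OGraph (V : Type) where
  adj : V → V → Prop
  asymm : ∀ u v, adj u v → ¬ adj v u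

variable {V W : Type}

/-- `H ⊂ G`: some injective map sends every edge of `H` to an edge of `G` with the same
direction. -/
def OGraph.Sub (H : OGraph V) (G : OGraph W) : Prop :=
  ∃ f : V → W, Function.Injective f ∧ ∀ u v, H.adj u v → G.adj (f u) (f v)

/-- The minimum semi-degree: the smallest out-degree or in-degree of a vertex. -/
noncomputable def OGraph.semiDeg (G : OGraph V) : ℕ :=
  sInf {d | ∃ v, d = Nat.card {w // G.adj v w} ∨ d = Nat.card {w // G.adj w v}}

/-- `G` is a semi-regular near-tournament: `δ⁰(G) = ⌊(|G| - 1)/2⌋`. -/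
def OGraph.SemiRegular (G : OGraph V) : Prop := G.semiDeg = (Nat.card V - 1) / 2

/-- `H` is Turánable: for some `n₀`, every semi-regular near-tournament with at least `n₀` vertices
contains `H`. -/
def OGraph.Turanable (H : OGraph V) : Prop :=
  ∃ n₀ : ℕ, ∀ (W : Type) [Finite W], n₀ ≤ Nat.card W → ∀ G : OGraph W, G.SemiRegular → H.Sub G

/-- The `k`-th power `C_{2k+1}^k` of the cycle on `2k + 1` vertices: the vertex set is
`ℤ/(2k+1)`, with an edge `a → a + t` for `1 ≤ t ≤ k`. -/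
def cyc (k : ℕ) : OGraph (ZMod (2 * k + 1)) where
  adj a b := ∃ t : ℕ, 1 ≤ t ∧ t ≤ k ∧ b = a + t
  asymm := by
    rintro a b ⟨t, ht1, ht2, hb⟩ ⟨s, hs1, hs2, ha⟩
    have h1 : ((t + s : ℕ) : ZMod (2 * k + 1)) = 0 := by
      push_cast
      rw [hb] at ha
      linear_combination -ha
    rw [ZMod.natCast_eq_zero_iff] at h1
    have h2 := Nat.le_of_dvd (by omega) h1
    omega

/-- The tournament `F_r` on `[3]^r`: `u → v` if for the least `i` with `u i ≠ v i` the pair
`(u i, v i)` is one of `(0,1)`, `(1,2)`, `(2,0)` (the addition is the one of `Fin 3`). -/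
def F (r : ℕ) : OGraph (Fin r → Fin 3) where
  adj u v := ∃ i, (∀ j < i, u j = v j) ∧ v i = u i + 1
  asymm := by
    have h3 : ∀ a : Fin 3, a ≠ a + 1 := by decide
    have h4 : ∀ a : Fin 3, a ≠ a + 1 + 1 := by decide
    rintro u v ⟨i, hi1, hi2⟩ ⟨j, hj1, hj2⟩
    rcases lt_trichotomy i j with h | h | h
    · have := hj1 i h
      rw [hi2] at this
      exact h3 _ this.symm
    · subst h
      rw [hi2] at hj2
      exact h4 _ hj2
    · have := hi1 j h
      rw [hj2] at this
      exact h3 _ this.symm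

/-! ### The graphs `H` -/

/-- the oriented graph of two interleaved chains; it is contained in `C_{2k+1}^k` -/
def cadj {K : ℕ} (a b : Bool × Fin K) : Prop :=
  (a.1 = b.1 ∧ a.2 < b.2) ∨ (a.1 ≠ b.1 ∧ b.2 < a.2)

/-- the product of the two interleaved chains with `F R` -/
def H (K R : ℕ) : OGraph ((Bool × Fin K) × (Fin R → Fin 3)) where
  adj a b := cadj a.1 b.1 ∧ (F R).adj a.2 b.2
  asymm := fun _ _ h h' => (F R).asymm _ _ h.2 h'.2

theorem H_sub_F (K R : ℕ) : (H K R).Sub (F (R + Fintype.card (Bool × Fin K))) := by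
  classical
  let e := Fintype.equivFin (Bool × Fin K)
  let code : Bool × Fin K → Fin (Fintype.card (Bool × Fin K)) → Fin 3 := fun a j =>
    if j = e a then 1 else 0
  have hcode : Function.Injective code := by
    intro a b hab
    have h1 := congrFun hab (e a)
    simp only [code, if_true] at h1
    by_contra hne
    rw [if_neg (fun h => hne (e.injective h))] at h1
    exact absurd h1 (by decide)
  refine ⟨fun a => Fin.append a.2 (code a.1), ?_, ?_⟩
  · rintro ⟨a, u⟩ ⟨b, v⟩ hab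
    have h1 : u = v := by
      funext j
      have := congrFun hab (Fin.castAdd _ j)
      simpa using this
    have h2 : code a = code b := by
      funext j
      have := congrFun hab (Fin.natAdd _ j)
      simpa using this
    rw [h1, hcode h2]
  · rintro ⟨a, u⟩ ⟨b, v⟩ ⟨-, i, hi1, hi2⟩
    refine ⟨Fin.castAdd _ i, fun j hj => ?_, ?_⟩
    · have hj' : j.val < i.val := hj
      have hjR : j.val < R := hj'.trans i.2
      have h1 : j = Fin.castAdd _ ⟨j.val, hjR⟩ := Fin.ext rfl
      rw [h1]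
      simp only [Fin.append_left]
      exact hi1 _ hj'
    · simp only [Fin.append_left]
      exact hi2

theorem H_sub_cyc (K R : ℕ) :
    (H K R).Sub (cyc (K * Fintype.card (Fin R → Fin 3))) := by
  classical
  let N := Fintype.card (Fin R → Fin 3)
  let rk : (Fin R → Fin 3) ≃ Fin N := Fintype.equivFin _
  set k := K * N with hk
  let pos : (Bool × Fin K) × (Fin R → Fin 3) → ℕ := fun a =>
    (if a.1.1 then 0 else k + 1) + (a.1.2.val * N + (rk a.2).val)
  have hb : ∀ (i : Fin K) (u : Fin R → Fin 3), i.val * N + (rk u).val < k := by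
    intro i u
    have h1 : (i.val + 1) * N ≤ K * N := Nat.mul_le_mul_right _ i.2
    have h2 := (rk u).2
    rw [Nat.add_mul] at h1
    omega
  have hlt : ∀ (i j : Fin K) (u v : Fin R → Fin 3), i < j →
      i.val * N + (rk u).val < j.val * N + (rk v).val := by
    intro i j u v hij
    have h1 : (i.val + 1) * N ≤ j.val * N := Nat.mul_le_mul_right _ hij
    have h2 := (rk u).2
    rw [Nat.add_mul] at h1
    omega
  have hpos : ∀ a, pos a < 2 * k + 1 := by
    rintro ⟨⟨s, i⟩, u⟩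
    have := hb i u
    rcases s <;> simp only [pos] <;> simp <;> omega
  have key : ∀ A B t : ℕ, A + (2 * k + 1) = B + t → (A : ZMod (2 * k + 1)) = B + t := by
    intro A B t h
    have h1 := congrArg (Nat.cast : ℕ → ZMod (2 * k + 1)) h
    rw [Nat.cast_add, ZMod.natCast_self, add_zero, Nat.cast_add] at h1
    exact h1
  have key' : ∀ A B t : ℕ, A = B + t → (A : ZMod (2 * k + 1)) = B + t := by
    intro A B t h
    rw [h, Nat.cast_add]
  refine ⟨fun a => (pos a : ZMod (2 * k + 1)), ?_, ?_⟩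
  · rintro ⟨⟨s, i⟩, u⟩ ⟨⟨t, j⟩, v⟩ hab
    have h1 : pos ⟨⟨s, i⟩, u⟩ = pos ⟨⟨t, j⟩, v⟩ := by
      have := congrArg ZMod.val hab
      simpa [ZMod.val_natCast, Nat.mod_eq_of_lt (hpos _)] using this
    have hi := hb i u
    have hj := hb j v
    have h2 : s = t ∧ i.val * N + (rk u).val = j.val * N + (rk v).val := by
      rcases s <;> rcases t <;> simp [pos] at h1 ⊢ <;> omega
    obtain ⟨rfl, h3⟩ := h2
    have h4 : i = j := by
      rcases lt_trichotomy i j with h | h | h
      · exact absurd h3 (hlt i j u v h).ne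
      · exact h
      · exact absurd h3 (hlt j i v u h).ne'
    subst h4
    have h5 : rk u = rk v := Fin.ext (by omega)
    rw [rk.injective h5]
  · rintro ⟨⟨s, i⟩, u⟩ ⟨⟨t, j⟩, v⟩ ⟨hc, -⟩
    have hi := hb i u
    have hj := hb j v
    rcases hc with ⟨hst, hij⟩ | ⟨hst, hij⟩
    · have hst' : s = t := hst
      subst hst'
      have hl := hlt i j u v hij
      refine ⟨(j.val * N + (rk v).val) - (i.val * N + (rk u).val), by omega, by omega, ?_⟩
      apply key'
      simp only [pos]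
      omega
    · have hl := hlt j i v u hij
      rcases s <;> rcases t <;> simp at hst
      · -- from `-` to `+`
        refine ⟨k - ((i.val * N + (rk u).val) - (j.val * N + (rk v).val)), by omega, by omega, ?_⟩
        apply key
        simp [pos]
        omega
      · refine ⟨(k + 1) - ((i.val * N + (rk u).val) - (j.val * N + (rk v).val)), by omega,
          by omega, ?_⟩
        apply key'
        simp [pos]
        omega

/-! ### The regular tournaments -/

/-- the relation between consecutive pieces -/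
def E (m : ℕ) (x y : ZMod (2 * m + 1)) : Prop := (-x - y).val < x.val

theorem E_iff (m : ℕ) (x y : ZMod (2 * m + 1)) : E m x y ↔
    (2 * m + 1 < 2 * x.val + y.val ∧ x.val + y.val ≤ 2 * m + 1) ∨
      2 * (2 * m + 1) < 2 * x.val + y.val := by
  unfold E
  have hx := ZMod.val_lt x
  have hy := ZMod.val_lt y
  have hz := ZMod.val_lt (-x - y)
  have h1 : ((x.val + y.val + (-x - y).val : ℕ) : ZMod (2 * m + 1)) = 0 := by
    push_cast
    simp only [ZMod.natCast_val, ZMod.cast_id', id_eq]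
    ring
  rw [ZMod.natCast_eq_zero_iff] at h1
  obtain ⟨c, hc⟩ := h1
  have hc3 : c < 3 := by
    by_contra h
    push Not at h
    have : (2 * m + 1) * 3 ≤ (2 * m + 1) * c := Nat.mul_le_mul_left _ h
    omega
  interval_cases c <;> omega

theorem strip1 (m : ℕ) {x₁ x₂ x₃ y₁ y₂ y₃ : ZMod (2 * m + 1)} (hx : x₁.val < x₂.val)
    (hx' : x₂.val < x₃.val) (hy : y₁.val < y₂.val) (hy' : y₂.val < y₃.val)
    (h1 : ¬ E m x₁ y₁) (h2 : E m x₂ y₁) (h3 : ¬ E m x₂ y₂) (h4 : E m x₃ y₂)
    (h5 : ¬ E m x₃ y₃) : False := by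
  rw [E_iff] at h1 h2 h3 h4 h5
  have hx3 := ZMod.val_lt x₃
  have hy3 := ZMod.val_lt y₃
  omega

theorem strip2 (m : ℕ) {x₁ x₂ x₃ y₁ y₂ y₃ : ZMod (2 * m + 1)} (hx : x₁.val < x₂.val)
    (hx' : x₂.val < x₃.val) (hy : y₁.val < y₂.val) (hy' : y₂.val < y₃.val)
    (h1 : E m y₁ x₁) (h2 : ¬ E m y₁ x₂) (h3 : E m y₂ x₂) (h4 : ¬ E m y₂ x₃)
    (h5 : E m y₃ x₃) : False := by
  rw [E_iff] at h1 h2 h3 h4 h5
  have hx3 := ZMod.val_lt x₃
  have hy3 := ZMod.val_lt y₃
  omega

/-- the tournament on `3(2m+1)` vertices: three transitive pieces, consecutive pieces are related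
by `E` -/
def T (m : ℕ) : OGraph (Fin 3 × ZMod (2 * m + 1)) where
  adj a b := (a.1 = b.1 ∧ a.2.val < b.2.val) ∨ (b.1 = a.1 + 1 ∧ E m a.2 b.2) ∨
    (a.1 = b.1 + 1 ∧ ¬ E m b.2 a.2)
  asymm := by
    rintro ⟨i, x⟩ ⟨j, y⟩ h h'
    simp only at h h'
    have h1 : ∀ i : Fin 3, i ≠ i + 1 := by decide
    have h2 : ∀ i j : Fin 3, i = j + 1 → j ≠ i + 1 := by decide
    rcases h with ⟨rfl, h⟩ | ⟨rfl, h⟩ | ⟨rfl, h⟩
    · rcases h' with ⟨-, h'⟩ | ⟨h', -⟩ | ⟨h', -⟩
      · omega
      · exact h1 _ h'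
      · exact h1 _ h'
    · rcases h' with ⟨h', -⟩ | ⟨h', -⟩ | ⟨-, h'⟩
      · exact h1 _ h'.symm
      · exact h2 _ _ rfl h'
      · exact h' h
    · rcases h' with ⟨h', -⟩ | ⟨-, h'⟩ | ⟨h', -⟩
      · exact h1 _ h'
      · exact h h'
      · exact h2 _ _ rfl h'

theorem fin_lt {n : ℕ} (x : Fin n) : Nat.card {y : Fin n // y.val < x.val} = x.val := by
  rw [Nat.card_eq_fintype_card, Fintype.card_subtype]
  have : (Finset.univ.filter fun y : Fin n => y.val < x.val) = Finset.Iio x := by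
    ext y; simp
  rw [this, Fin.card_Iio]

theorem fin_gt {n : ℕ} (x : Fin n) : Nat.card {y : Fin n // x.val < y.val} = n - 1 - x.val := by
  rw [Nat.card_eq_fintype_card, Fintype.card_subtype]
  have : (Finset.univ.filter fun y : Fin n => x.val < y.val) = Finset.Ioi x := by
    ext y; simp
  rw [this, Fin.card_Ioi]

theorem card_lt (m : ℕ) (x : ZMod (2 * m + 1)) :
    Nat.card {y : ZMod (2 * m + 1) // y.val < x.val} = x.val :=
  fin_lt (n := 2 * m + 1) x

theorem card_gt (m : ℕ) (x : ZMod (2 * m + 1)) :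
    Nat.card {y : ZMod (2 * m + 1) // x.val < y.val} = 2 * m - x.val :=
  fin_gt (n := 2 * m + 1) x

theorem card_row (m : ℕ) (x : ZMod (2 * m + 1)) :
    Nat.card {y : ZMod (2 * m + 1) // E m x y} = x.val := by
  rw [← card_lt m x]
  exact Nat.card_congr ((Equiv.subLeft (-x)).subtypeEquiv fun y => Iff.rfl)

theorem card_compl {α : Type} [Fintype α] (p : α → Prop) :
    Nat.card {a // ¬ p a} = Fintype.card α - Nat.card {a // p a} := by
  classical
  rw [Nat.card_eq_fintype_card, Nat.card_eq_fintype_card, Fintype.card_subtype_compl]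

theorem card_three {α : Type} [Fintype α] (p q r : α → Prop)
    (h : ∀ a, (p a ∧ ¬ q a ∧ ¬ r a) ∨ (¬ p a ∧ q a ∧ ¬ r a) ∨ (¬ p a ∧ ¬ q a ∧ r a)) :
    Nat.card {a // p a} + Nat.card {a // q a} + Nat.card {a // r a} = Fintype.card α := by
  classical
  simp only [Nat.card_eq_fintype_card, Fintype.card_subtype, Finset.card_filter]
  rw [← Finset.sum_add_distrib, ← Finset.sum_add_distrib, ← Finset.card_univ,
    Finset.card_eq_sum_ones]
  refine Finset.sum_congr rfl fun a _ => ?_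
  rcases h a with ⟨h1, h2, h3⟩ | ⟨h1, h2, h3⟩ | ⟨h1, h2, h3⟩ <;> simp [h1, h2, h3]

theorem card_col (m : ℕ) (y : ZMod (2 * m + 1)) :
    Nat.card {x : ZMod (2 * m + 1) // E m x y} = m := by
  have h1 : Nat.card {x : ZMod (2 * m + 1) // E m x y} =
      Nat.card {x : ZMod (2 * m + 1) // x.val < (-x - y).val} := by
    refine Nat.card_congr ((Equiv.subLeft (-y)).subtypeEquiv fun x => ?_)
    unfold E
    rw [show (Equiv.subLeft (-y)) x = -x - y by simp [Equiv.subLeft]; ring,
      show -(-x - y) - y = x by ring]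
  have h2 : (2 : ZMod (2 * m + 1)) * (m + 1) = 1 := by
    have : ((2 * m + 1 : ℕ) : ZMod (2 * m + 1)) = 0 := ZMod.natCast_self _
    push_cast at this
    linear_combination this
  have h3 : Nat.card {x : ZMod (2 * m + 1) // -x - y = x} = 1 := by
    rw [Nat.card_eq_one_iff_exists]
    refine ⟨⟨-y * (m + 1), ?_⟩, ?_⟩
    · linear_combination y * h2
    · rintro ⟨x, hx⟩
      apply Subtype.ext
      show x = -y * (m + 1)
      linear_combination (-x) * h2 - (m + 1) * hx
  have h4 := card_three (fun x => E m x y) (fun x => x.val < (-x - y).val)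
    (fun x => -x - y = x) (fun x => by
      unfold E
      rcases lt_trichotomy (-x - y).val x.val with h | h | h
      · refine Or.inl ⟨h, by omega, fun h' => ?_⟩
        rw [h'] at h
        exact lt_irrefl _ h
      · exact Or.inr (Or.inr ⟨by omega, by omega, ZMod.val_injective _ h⟩)
      · refine Or.inr (Or.inl ⟨by omega, h, fun h' => ?_⟩)
        rw [h'] at h
        exact lt_irrefl _ h)
  rw [ZMod.card] at h4
  omega

theorem card_prod {A B : Type} [Fintype A] [Finite B] (p : A × B → Prop) :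
    Nat.card {w // p w} = ∑ a, Nat.card {b // p (a, b)} := by
  rw [← Nat.card_sigma]
  exact Nat.card_congr (Equiv.subtypeProdEquivSigmaSubtype fun a b => p (a, b))

theorem sum_three (g : Fin 3 → ℕ) (i : Fin 3) : ∑ j, g j = g i + g (i + 1) + g (i + 2) := by
  rw [Fin.sum_univ_three]
  fin_cases i
  · rfl
  · show g 0 + g 1 + g 2 = g 1 + g 2 + g 0
    ring
  · show g 0 + g 1 + g 2 = g 2 + g 0 + g 1
    ring

theorem adj_same (m : ℕ) (i : Fin 3) (x y : ZMod (2 * m + 1)) :
    (T m).adj (i, x) (i, y) ↔ x.val < y.val := by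
  have h1 : ∀ i : Fin 3, i ≠ i + 1 := by decide
  simp [T, h1]

theorem adj_next (m : ℕ) (i : Fin 3) (x y : ZMod (2 * m + 1)) :
    (T m).adj (i, x) (i + 1, y) ↔ E m x y := by
  have h1 : ∀ i : Fin 3, i ≠ i + 1 := by decide
  have h2 : ∀ i : Fin 3, i ≠ i + 1 + 1 := by decide
  constructor
  · rintro (⟨h, -⟩ | ⟨-, h⟩ | ⟨h, -⟩)
    · exact absurd h (h1 i)
    · exact h
    · exact absurd h (h2 i)
  · exact fun h => Or.inr (Or.inl ⟨rfl, h⟩)

theorem adj_prev (m : ℕ) (i : Fin 3) (x y : ZMod (2 * m + 1)) :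
    (T m).adj (i + 1, x) (i, y) ↔ ¬ E m y x := by
  have h1 : ∀ i : Fin 3, i + 1 ≠ i := by decide
  have h2 : ∀ i : Fin 3, i ≠ i + 1 + 1 := by decide
  constructor
  · rintro (⟨h, -⟩ | ⟨h, -⟩ | ⟨-, h⟩)
    · exact absurd h (h1 i)
    · exact absurd h (h2 i)
    · exact h
  · exact fun h => Or.inr (Or.inr ⟨rfl, h⟩)

theorem T_out (m : ℕ) (v : Fin 3 × ZMod (2 * m + 1)) :
    Nat.card {w // (T m).adj v w} = 3 * m + 1 := by
  obtain ⟨i, x⟩ := v
  have hx := ZMod.val_lt x
  have h0 : Nat.card {b // (T m).adj (i, x) (i, b)} = 2 * m - x.val := by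
    rw [← card_gt m x]
    exact Nat.card_congr (Equiv.subtypeEquivRight fun b => adj_same m i x b)
  have h1 : Nat.card {b // (T m).adj (i, x) (i + 1, b)} = x.val := by
    rw [← card_row m x]
    exact Nat.card_congr (Equiv.subtypeEquivRight fun b => adj_next m i x b)
  have h2 : Nat.card {b // (T m).adj (i, x) (i + 2, b)} = m + 1 := by
    have h3 := card_compl (fun y => E m y x)
    rw [ZMod.card, card_col] at h3
    have h4 : Nat.card {b // (T m).adj (i, x) (i + 2, b)} = Nat.card {b // ¬ E m b x} := by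
      refine Nat.card_congr (Equiv.subtypeEquivRight fun b => ?_)
      have h5 : ∀ i : Fin 3, i = i + 2 + 1 := by decide
      conv_lhs => rw [h5 i]
      have h6 : ∀ i : Fin 3, i + 2 + 1 + 2 = i + 2 := by decide
      rw [h6 i]
      exact adj_prev m (i + 2) x b
    omega
  rw [card_prod, sum_three _ i, h0, h1, h2]
  omega

theorem T_in (m : ℕ) (v : Fin 3 × ZMod (2 * m + 1)) :
    Nat.card {w // (T m).adj w v} = 3 * m + 1 := by
  obtain ⟨i, x⟩ := v
  have hx := ZMod.val_lt x
  have h0 : Nat.card {b // (T m).adj (i, b) (i, x)} = x.val := by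
    conv_rhs => rw [← card_lt m x]
    exact Nat.card_congr (Equiv.subtypeEquivRight fun b => adj_same m i b x)
  have h1 : Nat.card {b // (T m).adj (i + 1, b) (i, x)} = 2 * m + 1 - x.val := by
    have h3 := card_compl (fun y => E m x y)
    rw [ZMod.card, card_row] at h3
    rw [← h3]
    exact Nat.card_congr (Equiv.subtypeEquivRight fun b => adj_prev m i b x)
  have h2 : Nat.card {b // (T m).adj (i + 2, b) (i, x)} = m := by
    conv_rhs => rw [← card_col m x]
    refine Nat.card_congr (Equiv.subtypeEquivRight fun b => ?_)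
    have h5 : ∀ i : Fin 3, i = i + 2 + 1 := by decide
    conv_lhs => rw [h5 i]
    have h6 : ∀ i : Fin 3, i + 2 + 1 + 2 = i + 2 := by decide
    rw [h6 i]
    exact adj_next m (i + 2) b x
  rw [card_prod, sum_three _ i, h0, h1, h2]
  omega

theorem T_semiRegular (m : ℕ) : (T m).SemiRegular := by
  have h1 : (T m).semiDeg = 3 * m + 1 := by
    unfold OGraph.semiDeg
    have : {d | ∃ v, d = Nat.card {w // (T m).adj v w} ∨ d = Nat.card {w // (T m).adj w v}} =
        {3 * m + 1} := by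
      ext d
      simp only [T_out, T_in, or_self, exists_const, Set.mem_ofPred_eq, Set.mem_singleton_iff]
    rw [this, csInf_singleton]
  have h2 : Nat.card (Fin 3 × ZMod (2 * m + 1)) = 3 * (2 * m + 1) := by
    rw [Nat.card_prod, Nat.card_eq_fintype_card, Nat.card_eq_fintype_card, ZMod.card,
      Fintype.card_fin]
  rw [OGraph.SemiRegular, h1, h2]
  omega

/-! ### The Ramsey argument -/

theorem F_cons {r : ℕ} (c : Fin 3) {u v : Fin r → Fin 3} (h : (F r).adj u v) :
    (F (r + 1)).adj (Fin.cons c u) (Fin.cons c v) := by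
  obtain ⟨i, hi1, hi2⟩ := h
  refine ⟨i.succ, fun j hj => ?_, by simpa using hi2⟩
  refine Fin.cases ?_ (fun j' hj' => ?_) j hj
  · intro _; simp
  · simpa using hi1 j' (Fin.succ_lt_succ_iff.1 hj')

/-- every colouring of `F r` with at most `r` colours has a monochromatic cyclic triangle -/
theorem F_ramsey {Γ : Type} [DecidableEq Γ] : ∀ (r : ℕ) (S : Finset Γ), S.card ≤ r →
    ∀ χ : (Fin r → Fin 3) → Γ, (∀ u, χ u ∈ S) →
    ∃ u₀ u₁ u₂, (F r).adj u₀ u₁ ∧ (F r).adj u₁ u₂ ∧ (F r).adj u₂ u₀ ∧ χ u₁ = χ u₀ ∧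
      χ u₂ = χ u₀ := by
  intro r
  induction r with
  | zero =>
    intro S hS χ hχ
    have : S = ∅ := Finset.card_eq_zero.1 (Nat.le_zero.1 hS)
    have h := hχ (fun _ => 0)
    rw [this] at h
    exact absurd h (Finset.notMem_empty _)
  | succ r ih =>
    intro S hS χ hχ
    let γ := χ fun _ => 0
    by_cases h : ∀ c : Fin 3, ∃ u : Fin r → Fin 3, χ (Fin.cons c u) = γ
    · choose u hu using h
      refine ⟨Fin.cons 0 (u 0), Fin.cons 1 (u 1), Fin.cons 2 (u 2), ⟨0, ?_, ?_⟩, ⟨0, ?_, ?_⟩,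
        ⟨0, ?_, ?_⟩, ?_, ?_⟩
      · intro j hj; exact absurd hj (by simp)
      · simp
      · intro j hj; exact absurd hj (by simp)
      · simp
      · intro j hj; exact absurd hj (by simp)
      · simp
      · rw [hu, hu]
      · rw [hu, hu]
    · push Not at h
      obtain ⟨c, hc⟩ := h
      have hγ : γ ∈ S := hχ _
      obtain ⟨u₀, u₁, u₂, h1, h2, h3, h4, h5⟩ := ih (S.erase γ)
        (by rw [Finset.card_erase_of_mem hγ]; omega) (fun u => χ (Fin.cons c u))
        (fun u => Finset.mem_erase.2 ⟨hc u, hχ _⟩)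
      exact ⟨_, _, _, F_cons c h1, F_cons c h2, F_cons c h3, h4, h5⟩

theorem not_sub_T (m K R : ℕ) (hK : 46 ≤ K) (hR : Fintype.card (Bool × Fin K → Fin 3) ≤ R) :
    ¬ (H K R).Sub (T m) := by
  classical
  rintro ⟨f, -, hf⟩
  obtain ⟨u₀, u₁, u₂, h01, h12, h20, hc1, hc2⟩ := F_ramsey (Γ := Bool × Fin K → Fin 3)
    R Finset.univ (Finset.card_univ.le.trans (by convert hR)) (fun u a => (f (a, u)).1)
    (fun u => Finset.mem_univ _)
  let κ : Bool × Fin K → Fin 3 := fun a => (f (a, u₀)).1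
  have hk0 : ∀ a, (f (a, u₀)).1 = κ a := fun a => rfl
  have hk1 : ∀ a, (f (a, u₁)).1 = κ a := fun a => congrFun hc1 a
  have hk2 : ∀ a, (f (a, u₂)).1 = κ a := fun a => congrFun hc2 a
  -- six indices
  obtain ⟨⟨p, q⟩, hpq⟩ := Fintype.exists_lt_card_fiber_of_mul_lt_card (n := 5)
    (fun i : Fin K => (κ (true, i), κ (false, i)))
    (by rw [Fintype.card_prod, Fintype.card_fin, Fintype.card_fin]; omega)
  set I : Finset (Fin K) := Finset.univ.filter fun i => (κ (true, i), κ (false, i)) = (p, q)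
    with hI
  let e : Fin 6 → Fin K := fun t => I.orderEmbOfFin rfl ⟨t.val, by omega⟩
  have he : ∀ s t : Fin 6, s < t → e s < e t := fun s t hst =>
    (I.orderEmbOfFin rfl).strictMono hst
  have heI : ∀ t, κ (true, e t) = p ∧ κ (false, e t) = q := by
    intro t
    have h1 : e t ∈ I := I.orderEmbOfFin_mem rfl _
    rw [hI, Finset.mem_filter] at h1
    exact ⟨congrArg Prod.fst h1.2, congrArg Prod.snd h1.2⟩
  -- the strip
  have e1 : (T m).adj (f ((true, e 0), u₁)) (f ((true, e 2), u₂)) :=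
    hf _ _ ⟨Or.inl ⟨rfl, he _ _ (by decide)⟩, h12⟩
  have e2 : (T m).adj (f ((true, e 2), u₂)) (f ((true, e 4), u₀)) :=
    hf _ _ ⟨Or.inl ⟨rfl, he _ _ (by decide)⟩, h20⟩
  have e3 : (T m).adj (f ((false, e 1), u₀)) (f ((false, e 3), u₁)) :=
    hf _ _ ⟨Or.inl ⟨rfl, he _ _ (by decide)⟩, h01⟩
  have e4 : (T m).adj (f ((false, e 3), u₁)) (f ((false, e 5), u₂)) :=
    hf _ _ ⟨Or.inl ⟨rfl, he _ _ (by decide)⟩, h12⟩
  have e5 : (T m).adj (f ((false, e 1), u₀)) (f ((true, e 0), u₁)) :=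
    hf _ _ ⟨Or.inr ⟨by simp, he _ _ (by decide)⟩, h01⟩
  have e6 : (T m).adj (f ((true, e 2), u₂)) (f ((false, e 1), u₀)) :=
    hf _ _ ⟨Or.inr ⟨by simp, he _ _ (by decide)⟩, h20⟩
  have e7 : (T m).adj (f ((false, e 3), u₁)) (f ((true, e 2), u₂)) :=
    hf _ _ ⟨Or.inr ⟨by simp, he _ _ (by decide)⟩, h12⟩
  have e8 : (T m).adj (f ((true, e 4), u₀)) (f ((false, e 3), u₁)) :=
    hf _ _ ⟨Or.inr ⟨by simp, he _ _ (by decide)⟩, h01⟩
  have e9 : (T m).adj (f ((false, e 5), u₂)) (f ((true, e 4), u₀)) :=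
    hf _ _ ⟨Or.inr ⟨by simp, he _ _ (by decide)⟩, h20⟩
  have hx1 : (f ((true, e 0), u₁)).1 = p := (hk1 _).trans (heI 0).1
  have hx2 : (f ((true, e 2), u₂)).1 = p := (hk2 _).trans (heI 2).1
  have hx3 : (f ((true, e 4), u₀)).1 = p := (hk0 _).trans (heI 4).1
  have hy1 : (f ((false, e 1), u₀)).1 = q := (hk0 _).trans (heI 1).2
  have hy2 : (f ((false, e 3), u₁)).1 = q := (hk1 _).trans (heI 3).2
  have hy3 : (f ((false, e 5), u₂)).1 = q := (hk2 _).trans (heI 5).2
  generalize f ((true, e 0), u₁) = x₁ at *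
  generalize f ((true, e 2), u₂) = x₂ at *
  generalize f ((true, e 4), u₀) = x₃ at *
  generalize f ((false, e 1), u₀) = y₁ at *
  generalize f ((false, e 3), u₁) = y₂ at *
  generalize f ((false, e 5), u₂) = y₃ at *
  have n1 : ∀ i : Fin 3, i ≠ i + 1 := by decide
  have n2 : ∀ i j : Fin 3, i = j + 1 → j ≠ i + 1 := by decide
  have n3 : ∀ i j : Fin 3, i = j ∨ j = i + 1 ∨ i = j + 1 := by decide
  -- the adjacency inside a piece and between consecutive pieces
  have a1 : ∀ a b : Fin 3 × ZMod (2 * m + 1), a.1 = b.1 → (T m).adj a b → a.2.val < b.2.val := by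
    intro a b hab h
    rcases h with ⟨-, h⟩ | ⟨h, -⟩ | ⟨h, -⟩
    · exact h
    · rw [← hab] at h; exact absurd h (n1 _)
    · rw [hab] at h; exact absurd h (n1 _)
  have a2 : ∀ a b : Fin 3 × ZMod (2 * m + 1), b.1 = a.1 + 1 → (T m).adj a b → E m a.2 b.2 := by
    intro a b hab h
    rcases h with ⟨h, -⟩ | ⟨-, h⟩ | ⟨h, -⟩
    · rw [← h] at hab; exact absurd hab (n1 _)
    · exact h
    · exact absurd h (n2 _ _ hab)
  have a3 : ∀ a b : Fin 3 × ZMod (2 * m + 1), a.1 = b.1 + 1 → (T m).adj a b →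
      ¬ E m b.2 a.2 := by
    intro a b hab h
    rcases h with ⟨h, -⟩ | ⟨h, -⟩ | ⟨-, h⟩
    · rw [h] at hab; exact absurd hab (n1 _)
    · exact absurd h (n2 _ _ hab)
    · exact h
  have b1 := a1 _ _ (hx1.trans hx2.symm) e1
  have b2 := a1 _ _ (hx2.trans hx3.symm) e2
  have b3 := a1 _ _ (hy1.trans hy2.symm) e3
  have b4 := a1 _ _ (hy2.trans hy3.symm) e4
  rcases n3 p q with h | h | h
  · have b5 := a1 _ _ (by rw [hy1, hx1, h]) e5
    have b6 := a1 _ _ (by rw [hy1, hx2, h]) e6
    omega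
  · exact strip1 m b1 b2 b3 b4 (a3 _ _ (by rw [hy1, hx1, h]) e5) (a2 _ _ (by rw [hy1, hx2, h]) e6)
      (a3 _ _ (by rw [hy2, hx2, h]) e7) (a2 _ _ (by rw [hy2, hx3, h]) e8)
      (a3 _ _ (by rw [hy3, hx3, h]) e9)
  · exact strip2 m b1 b2 b3 b4 (a2 _ _ (by rw [hy1, hx1, h]) e5) (a3 _ _ (by rw [hy1, hx2, h]) e6)
      (a2 _ _ (by rw [hy2, hx2, h]) e7) (a3 _ _ (by rw [hy2, hx3, h]) e8)
      (a2 _ _ (by rw [hy3, hx3, h]) e9)

end Pool.Agent.Q153.Turan
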